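import Pool.Agent.Work.MP_02cc39_co.Pin.Sector

set_option autoImplicit false

/-!
# Ballot numbers (size M)

PROOFS. `ball_closed`: (2k+p) ball p k = p * choose (2k+p) k (k = 0: clear; p = 0: clear; induction along the recursion:
 p/(2k+p) C(2k+p,k) = (p-1)/(2k+p-1) C(2k+p-1,k) + (p+1)/(2k+p-1) C(2k+p-1,k-1)).
`ball_next`: from `ball_closed`: b C(2b+a-1, b) = (2b+a-1) C(2b+a-2, b-1) (Nat.succ_mul_choose_eq / add_one_mul_choose_eq).
`ball_step`: p (2k+p-1) ball (p-1) k = (p-1) (k+p) ball p k, written with p+1: (p+1) (2k+p) ball p k = p (k+p+1) ball (p+1) k: from `ball_closed`: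
 (2k+p+1) (2k+p) both sides; C(2k+p+1, k) (k+p+1) = (2k+p+1) C(2k+p, k).
`ball_pos`: p ≥ 1: ball p k > 0 (closed form or the recursion).
`rho`: a b ball (a-1) b = (a-1)(a+2b-2) ball a (b-1) (`ball_next`) and tt a b ≥ ball (a-1) b.
`six`: ball 6 k ≤ 192 ball 1 k: `ball_step` for p = 1, ..., 5: p (k+p+1) ball (p+1) k = (p+1)(2k+p) ball p k ≤ 2 (p+1) (k+p+1) ball p k, so p ball (p+1) k ≤ 2 (p+1) ball p k.
-/

namespace Pool.Agent.Work.MP_02cc39_co.Pin

private theorem bl_all (k : ℕ) : ∀ p : ℕ, (2 * k + p) * ball p k = p * (2 * k + p).choose k := by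
  induction k with
  | zero =>
    intro p
    rw [Nat.choose_zero_right]
    simp [ball]
  | succ k ihk =>
    intro p
    induction p with
    | zero =>
      simp [ball]
    | succ p ihp =>
      have h0 : ball (p + 1) (k + 1) = ball p (k + 1) + ball (p + 2) k := by rw [ball]
      have h1 := ihk (p + 2)
      have h2 : (2 * (k + 1) + (p + 1)).choose (k + 1)
          = (2 * k + p + 2).choose k + (2 * k + p + 2).choose (k + 1) := by
        rw [show 2 * (k + 1) + (p + 1) = (2 * k + p + 2) + 1 by ring, Nat.choose_succ_succ]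
      have h3 := Nat.choose_succ_right_eq (2 * k + p + 2) k
      rw [show 2 * k + p + 2 - k = k + p + 2 by omega] at h3
      rw [show 2 * k + (p + 2) = 2 * k + p + 2 by ring] at h1
      rw [show 2 * (k + 1) + p = 2 * k + p + 2 by ring] at ihp
      rw [h2, h0]
      generalize (2 * k + p + 2).choose k = A at *
      generalize (2 * k + p + 2).choose (k + 1) = B at *
      generalize ball p (k + 1) = u at *
      generalize ball (p + 2) k = v at *
      apply Nat.eq_of_mul_eq_mul_left (show 0 < 2 * k + p + 2 by omega)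
      have e1 : ((2 * k + p + 2 : ℕ) : ℤ) * v = (p + 2) * A := by exact_mod_cast h1
      have e2 : ((2 * k + p + 2 : ℕ) : ℤ) * u = p * B := by exact_mod_cast ihp
      have e3 : (B : ℤ) * (k + 1) = A * (k + p + 2) := by exact_mod_cast h3
      zify
      push_cast at e1 e2
      linear_combination (2 * (k : ℤ) + p + 3) * e1 + (2 * (k : ℤ) + p + 3) * e2 - 2 * e3

theorem ball_closed (p k : ℕ) (h : 0 < p) : (2 * k + p) * ball p k = p * (2 * k + p).choose k := by
  exact bl_all k p

theorem ball_pos (p k : ℕ) (h : 0 < p) : 0 < ball p k := by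
  have h1 := bl_all k p
  have h2 : 0 < (2 * k + p).choose k := Nat.choose_pos (by omega)
  have h3 : 0 < p * (2 * k + p).choose k := Nat.mul_pos h h2
  rw [← h1] at h3
  exact Nat.pos_of_mul_pos_left h3

theorem ball_next (a b : ℕ) (ha : 2 ≤ a) (hb : 1 ≤ b) :
    a * b * ball (a - 1) b = (a - 1) * (a + 2 * b - 2) * ball a (b - 1) := by
  obtain ⟨c, rfl⟩ : ∃ c, a = c + 2 := ⟨a - 2, by omega⟩
  obtain ⟨d, rfl⟩ : ∃ d, b = d + 1 := ⟨b - 1, by omega⟩
  have h1 := bl_all (d + 1) (c + 1)
  have h2 := bl_all d (c + 2)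
  have h3 := Nat.add_one_mul_choose_eq (2 * d + (c + 2)) d
  rw [show c + 2 - 1 = c + 1 by omega, show c + 2 + 2 * (d + 1) - 2 = 2 * d + (c + 2) by omega,
    show d + 1 - 1 = d by omega]
  rw [show 2 * (d + 1) + (c + 1) = 2 * d + (c + 2) + 1 by ring] at h1
  generalize (2 * d + (c + 2) + 1).choose (d + 1) = B at *
  generalize (2 * d + (c + 2)).choose d = A at *
  generalize ball (c + 1) (d + 1) = u at *
  generalize ball (c + 2) d = v at *
  apply Nat.eq_of_mul_eq_mul_left (show 0 < 2 * d + (c + 2) + 1 by omega)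
  zify at h1 h2 h3 ⊢
  linear_combination ((c : ℤ) + 2) * (d + 1) * h1 - ((c : ℤ) + 1) * (2 * d + (c + 2) + 1) * h2
    - ((c : ℤ) + 1) * (c + 2) * h3

theorem ball_step (p k : ℕ) (h : 0 < p) :
    (p + 1) * (2 * k + p) * ball p k = p * (k + p + 1) * ball (p + 1) k := by
  have h1 := bl_all k p
  have h2 := bl_all k (p + 1)
  have h3 := Nat.choose_mul_succ_eq (2 * k + p) k
  rw [show 2 * k + p + 1 - k = k + p + 1 by omega] at h3
  rw [show 2 * k + (p + 1) = 2 * k + p + 1 by ring] at h2
  generalize (2 * k + p + 1).choose k = B at *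
  generalize (2 * k + p).choose k = A at *
  generalize ball p k = u at *
  generalize ball (p + 1) k = v at *
  apply Nat.eq_of_mul_eq_mul_left (show 0 < 2 * k + p + 1 by omega)
  zify at h1 h2 h3 ⊢
  linear_combination (2 * (k : ℤ) + p + 1) * (p + 1) * h1 - (p : ℤ) * (k + p + 1) * h2
    + (p : ℤ) * (p + 1) * h3

theorem tt_pos (a b : ℕ) : 0 < tt a b := by
  unfold tt
  have h1 := ball_pos 1 (b - 1) one_pos
  omega

theorem rho (a b : ℕ) (ha : 2 ≤ a) (hb : 1 ≤ b) :
    (a - 1) * (a + 2 * b - 2) * ball a (b - 1) ≤ a * b * tt a b := by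
  rw [← ball_next a b ha hb]
  apply Nat.mul_le_mul_left
  unfold tt
  omega

theorem six (k : ℕ) : ball 6 k ≤ 192 * ball 1 k := by
  have key : ∀ p : ℕ, 0 < p → p * ball (p + 1) k ≤ 2 * (p + 1) * ball p k := by
    intro p hp
    have h1 := ball_step p k hp
    apply Nat.le_of_mul_le_mul_left _ (show 0 < k + p + 1 by omega)
    calc (k + p + 1) * (p * ball (p + 1) k) = p * (k + p + 1) * ball (p + 1) k := by ring
      _ = (p + 1) * (2 * k + p) * ball p k := h1.symm
      _ ≤ (p + 1) * (2 * (k + p + 1)) * ball p k :=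
          Nat.mul_le_mul_right _ (Nat.mul_le_mul_left _ (by omega))
      _ = (k + p + 1) * (2 * (p + 1) * ball p k) := by ring
  have h1 := key 1 (by norm_num)
  have h2 := key 2 (by norm_num)
  have h3 := key 3 (by norm_num)
  have h4 := key 4 (by norm_num)
  have h5 := key 5 (by norm_num)
  norm_num at h1 h2 h3 h4 h5
  omega

end Pool.Agent.Work.MP_02cc39_co.Pin
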