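import Pool.Agent.Work.MP_02cc39_co.PT.Transport

set_option autoImplicit false

/-!
# The numbers of graphs pointed at one vertex for finite sets of points (size S-M)

PROOF. As `tr_triang` in PT/Transport.lean (copy the private lemmas there, with a general V instead of ∅: Ptd (pos..) (E.map ..) (e v) ↔ Ptd o E v): with e := eqv hQ,
cnt o' (V.map e) = cnt o V, and `ncard_ptv` (PT/LinkCnt.lean) for V.map e; (V.map e).map (emv S) = V.image Q.
-/

namespace Pool.Agent.Work.MP_02cc39_co.Pin

open Classical Pool.Agent.Work.MP_02cc39_co Pool.Agent.Work.MP_02cc39_co.PT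

/-- the equivalence of the unordered pairs -/
private def syE {V V' : Type} (e : V ≃ V') : Sym2 V ≃ Sym2 V' where
  toFun := Sym2.map e
  invFun := Sym2.map e.symm
  left_inv := fun x => by
    rw [Sym2.map_map]
    simp
  right_inv := fun x => by
    rw [Sym2.map_map]
    simp

private theorem mem_tr {V V' : Type} (e : V ≃ V') (E : Finset (Sym2 V)) (a b : V) :
    s(e a, e b) ∈ E.map (syE e).toEmbedding ↔ s(a, b) ∈ E := by
  have h : s(e a, e b) = (syE e).toEmbedding s(a, b) := by
    simp [syE]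
  rw [h, Finset.mem_map']

private theorem cross_tr {V V' : Type} (e : V ≃ V') {o : V → V → V → Prop}
    {o' : V' → V' → V' → Prop} (h : ∀ a b c, o' (e a) (e b) (e c) ↔ o a b c) (a b c d : V) :
    Cross o' (e a) (e b) (e c) (e d) ↔ Cross o a b c d := by
  unfold Cross
  rw [h, h, h, h]

private theorem ptd_tr {V V' : Type} (e : V ≃ V') {o : V → V → V → Prop}
    {o' : V' → V' → V' → Prop} (h : ∀ a b c, o' (e a) (e b) (e c) ↔ o a b c)
    (E : Finset (Sym2 V)) (v : V) : Ptd o' (E.map (syE e).toEmbedding) (e v) ↔ Ptd o E v := by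
  unfold Ptd
  constructor
  · rintro (h1 | ⟨a', ha', h2⟩)
    · left
      intro b hb
      exact h1 (e b) ((mem_tr e E v b).2 hb)
    · right
      obtain ⟨a, rfl⟩ := e.surjective a'
      refine ⟨a, (mem_tr e E v a).1 ha', ?_⟩
      intro b hb hba
      exact (h v a b).1 (h2 (e b) ((mem_tr e E v b).2 hb) (fun h3 => hba (e.injective h3)))
  · rintro (h1 | ⟨a, ha, h2⟩)
    · left
      intro b' hb'
      obtain ⟨b, rfl⟩ := e.surjective b'
      exact h1 b ((mem_tr e E v b).1 hb')
    · right
      refine ⟨e a, (mem_tr e E v a).2 ha, ?_⟩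
      intro b' hb' hba
      obtain ⟨b, rfl⟩ := e.surjective b'
      exact (h v a b).2 (h2 b ((mem_tr e E v b).1 hb') (fun h3 => hba (by rw [h3])))

private theorem fam_tr {V V' : Type} (e : V ≃ V') {o : V → V → V → Prop}
    {o' : V' → V' → V' → Prop} (h : ∀ a b c, o' (e a) (e b) (e c) ↔ o a b c) (W : Finset V)
    (E : Finset (Sym2 V)) : Fam o' (W.map e.toEmbedding) (E.map (syE e).toEmbedding) ↔ Fam o W E := by
  constructor
  · intro hF
    refine ⟨?_, ?_, ?_⟩
    · intro x hx hd
      induction x with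
      | _ a b =>
        have h1 := hF.nd s(e a, e b) ((mem_tr e E a b).2 hx)
        apply h1
        rw [Sym2.mk_isDiag_iff] at hd ⊢
        rw [hd]
    · intro a b c d h1 h2 hac had hbc hbd hx
      exact hF.nc (e a) (e b) (e c) (e d) ((mem_tr e E a b).2 h1) ((mem_tr e E c d).2 h2)
        (fun h3 => hac (e.injective h3)) (fun h3 => had (e.injective h3))
        (fun h3 => hbc (e.injective h3)) (fun h3 => hbd (e.injective h3))
        ((cross_tr e h a b c d).2 hx)
    · intro v hv
      exact (ptd_tr e h E v).1 (hF.pt (e v) (Finset.mem_map_of_mem e.toEmbedding hv))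
  · intro hF
    refine ⟨?_, ?_, ?_⟩
    · intro x hx hd
      induction x with
      | _ a' b' =>
        obtain ⟨a, rfl⟩ := e.surjective a'
        obtain ⟨b, rfl⟩ := e.surjective b'
        have h1 := hF.nd s(a, b) ((mem_tr e E a b).1 hx)
        apply h1
        rw [Sym2.mk_isDiag_iff] at hd ⊢
        exact e.injective hd
    · intro a' b' c' d' h1 h2 hac had hbc hbd hx
      obtain ⟨a, rfl⟩ := e.surjective a'
      obtain ⟨b, rfl⟩ := e.surjective b'
      obtain ⟨c, rfl⟩ := e.surjective c'
      obtain ⟨d, rfl⟩ := e.surjective d'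
      exact hF.nc a b c d ((mem_tr e E a b).1 h1) ((mem_tr e E c d).1 h2)
        (fun h3 => hac (by rw [h3])) (fun h3 => had (by rw [h3]))
        (fun h3 => hbc (by rw [h3])) (fun h3 => hbd (by rw [h3]))
        ((cross_tr e h a b c d).1 hx)
    · intro v' hv'
      obtain ⟨v, hv, rfl⟩ := Finset.mem_map.1 hv'
      exact (ptd_tr e h E v).2 (hF.pt v hv)

private theorem diag_tr {V V' : Type} (e : V ≃ V') (x : Sym2 V) :
    (syE e x).IsDiag ↔ x.IsDiag := by
  induction x with
  | _ a b =>
    have h : syE e s(a, b) = s(e a, e b) := by simp [syE]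
    rw [h, Sym2.mk_isDiag_iff, Sym2.mk_isDiag_iff]
    exact e.injective.eq_iff

private theorem max_tr {V V' : Type} (e : V ≃ V') {o : V → V → V → Prop}
    {o' : V' → V' → V' → Prop} (h : ∀ a b c, o' (e a) (e b) (e c) ↔ o a b c) (W : Finset V)
    (E : Finset (Sym2 V)) : Max o' (W.map e.toEmbedding) (E.map (syE e).toEmbedding) ↔ Max o W E := by
  unfold PT.Max
  rw [fam_tr e h]
  apply and_congr_right
  intro _
  constructor
  · intro h1 x hd hx hF
    apply h1 (syE e x) (fun h2 => hd ((diag_tr e x).1 h2))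
    · intro h2
      have h3 : (syE e).toEmbedding x ∈ E.map (syE e).toEmbedding := h2
      rw [Finset.mem_map'] at h3
      exact hx h3
    · rw [← fam_tr e h, Finset.map_insert] at hF
      exact hF
  · intro h1 x' hd hx hF
    obtain ⟨x, rfl⟩ := (syE e).surjective x'
    apply h1 x (fun h2 => hd ((diag_tr e x).2 h2))
    · intro h2
      apply hx
      have h3 : (syE e).toEmbedding x ∈ E.map (syE e).toEmbedding := Finset.mem_map_of_mem _ h2
      exact h3
    · rw [← fam_tr e h, Finset.map_insert]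
      exact hF

private theorem cnt_tr {V V' : Type} [Fintype V] [Fintype V'] (e : V ≃ V')
    {o : V → V → V → Prop} {o' : V' → V' → V' → Prop}
    (h : ∀ a b c, o' (e a) (e b) (e c) ↔ o a b c) (W : Finset V) :
    cnt o' (W.map e.toEmbedding) = cnt o W := by
  unfold cnt
  have h1 : MaxSet o' (W.map e.toEmbedding) = (MaxSet o W).map (syE e).finsetCongr.toEmbedding := by
    ext E'
    obtain ⟨E, rfl⟩ := (syE e).finsetCongr.surjective E'
    have h2 : (syE e).finsetCongr E ∈ (MaxSet o W).map (syE e).finsetCongr.toEmbedding ↔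
        E ∈ MaxSet o W := Finset.mem_map' _
    rw [h2]
    unfold MaxSet
    rw [Finset.mem_filter, Finset.mem_filter]
    have h3 := max_tr e h W E
    constructor
    · rintro ⟨-, h4⟩
      exact ⟨Finset.mem_univ _, h3.1 h4⟩
    · rintro ⟨-, h4⟩
      exact ⟨Finset.mem_univ _, h3.2 h4⟩
  rw [h1, Finset.card_map]

/-- the points as index type -/
private noncomputable def eqv {V : Type} [Fintype V] {Q : V → ℝ × ℝ} (hQ : Gen Q) :
    V ≃ {x // x ∈ Finset.univ.image Q} :=
  Equiv.ofBijective (fun v => ⟨Q v, Finset.mem_image_of_mem Q (Finset.mem_univ v)⟩) (by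
    constructor
    · intro a b hab
      exact hQ.1 (congrArg Subtype.val hab)
    · rintro ⟨x, hx⟩
      obtain ⟨v, -, hv⟩ := Finset.mem_image.1 hx
      exact ⟨v, Subtype.ext hv⟩)

private theorem eqv_L {V : Type} [Fintype V] {Q : V → ℝ × ℝ} (hQ : Gen Q) (a b c : V) :
    L (pos (Finset.univ.image Q)) (eqv hQ a) (eqv hQ b) (eqv hQ c) ↔ L Q a b c := Iff.rfl

theorem ncard_image {ι : Type} [Fintype ι] {Q : ι → ℝ × ℝ} (hQ : Gen Q) (V : Finset ι) :
    (PTV (Finset.univ.image Q) (V.image Q)).ncard = cnt (L Q) V := by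
  have h1 : (V.map (eqv hQ).toEmbedding).map (emv (Finset.univ.image Q)) = V.image Q := by
    ext x
    rw [Finset.mem_map, Finset.mem_image]
    constructor
    · rintro ⟨y, hy, rfl⟩
      obtain ⟨v, hv, rfl⟩ := Finset.mem_map.1 hy
      exact ⟨v, hv, rfl⟩
    · rintro ⟨v, hv, rfl⟩
      exact ⟨eqv hQ v, Finset.mem_map_of_mem (eqv hQ).toEmbedding hv, rfl⟩
  rw [← h1, ncard_ptv (genPos_image hQ)]
  exact cnt_tr (eqv hQ) (eqv_L hQ) V

end Pool.Agent.Work.MP_02cc39_co.Pin
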