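import Pool.Agent.Work.MP_02cc39_co.Pin.Defs

set_option autoImplicit false

/-!
# Maximal independent sets: removing a vertex (size M)

`hs` = symmetry of X.
PROOFS.
`nC_eq`: the map E ↦ E.erase e is a bijection from {E ∈ MS X D, e ∈ E} to MS X (D.filter (f ≠ e ∧ ¬ X e f)), inverse E' ↦ insert e E'
 (`Finset.card_bij'`/`card_nbij'`). Independent: the elements of E.erase e are different from e and not related to e. Maximal: f ∈ D', f ∉ E.erase e:
 f ≠ e, so f ∉ E, there is f' ∈ E with X f f', and f' ≠ e as ¬ X e f (hs). Back: f ∈ D, f ∉ insert e E': if X e f then f' := e (hs); otherwise f ∈ D'.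
`mem_of_iso`: if e ∈ D is related to nothing in D, every maximal set contains e (otherwise mx gives a contradiction).
`nM_erase`: from `nC_eq` and `mem_of_iso`: D.filter (f ≠ e ∧ ¬ X e f) = D.erase e.
`nC_erase`: g ≠ e: the same for the sets which contain g.
-/

namespace Pool.Agent.Work.MP_02cc39_co.Pin

open Classical

variable {α : Type*} {X : α → α → Prop}

theorem mem_MS {D E : Finset α} : E ∈ MS X D ↔ IsM X D E := by
  unfold MS
  rw [Finset.mem_filter, Finset.mem_powerset]
  exact ⟨fun h => h.2, fun h => ⟨h.sub, h⟩⟩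

theorem nC_eq (hs : ∀ e f, X e f → X f e) {D : Finset α} {e : α} (he : e ∈ D) (hee : ¬ X e e) :
    nC X D e = nM X (D.filter fun f => f ≠ e ∧ ¬ X e f) := by
  unfold nC nM
  refine Finset.card_bij' (fun E _ => E.erase e) (fun E _ => insert e E) ?_ ?_ ?_ ?_
  · intro E hE
    rw [Finset.mem_filter, mem_MS] at hE
    rw [mem_MS]
    obtain ⟨hE1, heE⟩ := hE
    refine ⟨?_, ?_, ?_⟩
    · intro f hf
      rw [Finset.mem_erase] at hf
      exact Finset.mem_filter.2 ⟨hE1.sub hf.2, hf.1, hE1.ind e heE f hf.2⟩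
    · intro f hf g hg
      exact hE1.ind f (Finset.mem_of_mem_erase hf) g (Finset.mem_of_mem_erase hg)
    · intro f hf hfE
      rw [Finset.mem_filter] at hf
      have h1 : f ∉ E := fun h2 => hfE (Finset.mem_erase.2 ⟨hf.2.1, h2⟩)
      obtain ⟨g, hg, hX⟩ := hE1.mx f hf.1 h1
      refine ⟨g, Finset.mem_erase.2 ⟨?_, hg⟩, hX⟩
      intro h2
      rw [h2] at hX
      exact hf.2.2 (hs f e hX)
  · intro E hE
    rw [mem_MS] at hE
    rw [Finset.mem_filter, mem_MS]
    refine ⟨⟨?_, ?_, ?_⟩, Finset.mem_insert_self e E⟩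
    · intro f hf
      rcases Finset.mem_insert.1 hf with h1 | h1
      · rw [h1]
        exact he
      · exact (Finset.mem_filter.1 (hE.sub h1)).1
    · intro f hf g hg
      rcases Finset.mem_insert.1 hf with h1 | h1 <;> rcases Finset.mem_insert.1 hg with h2 | h2
      · rw [h1, h2]
        exact hee
      · rw [h1]
        exact (Finset.mem_filter.1 (hE.sub h2)).2.2
      · rw [h2]
        intro h3
        exact (Finset.mem_filter.1 (hE.sub h1)).2.2 (hs f e h3)
      · exact hE.ind f h1 g h2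
    · intro f hf hfE
      have h1 : f ≠ e := fun h2 => hfE (Finset.mem_insert.2 (Or.inl h2))
      have h2 : f ∉ E := fun h3 => hfE (Finset.mem_insert.2 (Or.inr h3))
      by_cases hx : X e f
      · exact ⟨e, Finset.mem_insert_self e E, hs e f hx⟩
      · obtain ⟨g, hg, hX⟩ := hE.mx f (Finset.mem_filter.2 ⟨hf, h1, hx⟩) h2
        exact ⟨g, Finset.mem_insert.2 (Or.inr hg), hX⟩
  · intro E hE
    rw [Finset.mem_filter] at hE
    exact Finset.insert_erase hE.2
  · intro E hE
    rw [mem_MS] at hE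
    apply Finset.erase_insert
    intro h1
    exact (Finset.mem_filter.1 (hE.sub h1)).2.1 rfl

theorem mem_of_iso {D E : Finset α} {e : α} (he : e ∈ D) (h : ∀ f ∈ D, ¬ X e f) (hE : IsM X D E) : e ∈ E := by
  by_contra h1
  obtain ⟨f, hf, hX⟩ := hE.mx e he h1
  exact h f (hE.sub hf) hX

theorem nC_of_iso {D : Finset α} {e : α} (he : e ∈ D) (h : ∀ f ∈ D, ¬ X e f) : nC X D e = nM X D := by
  unfold nC nM
  congr 1
  apply Finset.filter_true_of_mem
  intro E hE
  exact mem_of_iso he h (mem_MS.1 hE)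

theorem nM_erase (hs : ∀ e f, X e f → X f e) {D : Finset α} {e : α} (he : e ∈ D) (h : ∀ f ∈ D, ¬ X e f) :
    nM X D = nM X (D.erase e) := by
  rw [← nC_of_iso he h, nC_eq hs he (h e he)]
  congr 1
  ext f
  rw [Finset.mem_filter, Finset.mem_erase]
  exact ⟨fun h1 => ⟨h1.2.1, h1.1⟩, fun h1 => ⟨h1.2, h1.1, h f h1.2⟩⟩

/-- no relations at all: there is exactly one maximal set -/
theorem nM_free {D : Finset α} (h : ∀ e ∈ D, ∀ f ∈ D, ¬ X e f) : nM X D = 1 := by
  unfold nM
  rw [Finset.card_eq_one]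
  refine ⟨D, ?_⟩
  ext E
  rw [mem_MS, Finset.mem_singleton]
  constructor
  · intro hE
    apply Finset.Subset.antisymm hE.sub
    intro e he
    exact mem_of_iso he (h e he) hE
  · intro hE
    rw [hE]
    exact ⟨Finset.Subset.refl _, h, fun e he h1 => absurd he h1⟩

end Pool.Agent.Work.MP_02cc39_co.Pin
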