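import Pool.Agent.Work.MP_02cc39_co.Pin.CrossCode
import Pool.Agent.Work.MP_02cc39_co.Pin.Mis

set_option autoImplicit false

/-!
# Noncrossing graphs of the pinwheel are independent sets (size M)

`lab` is injective. PROOFS.
`xe_iff`: for a ≠ b, c ≠ d: if the four vertices are different: `cross_code` (with `lab` injective). If two of them coincide, XE is false: in one sector t a vertex has
 one position (none: 0, (t,i): -1-i, (t+1,j): 1+j) and the code consists of the two positions of the two ends, the smaller one first, so codes of edges with a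
 common end have a common entry, and Il is false then. (Case distinction on the three arms, simp [sec, cod, Il], omega, as in CrossCode.)
`nonCr_iff`: (→) e = s(a,b), f = s(c,d) ∈ E with XE e f: then a, b, c, d are different and they cross by `xe_iff`. (←) the same.
`max_iff`: Fam o ∅ E ↔ E ⊆ Ed m ∧ no XE inside (pt is empty). Maximal: insert e E is not Fam iff XE e f for some f ∈ E (XE symmetric, ¬ XE e e).
`cnt_empty`: MaxSet = MS.
-/

namespace Pool.Agent.Work.MP_02cc39_co.Pin

open Classical Pool.Agent.Work.MP_02cc39_co.PT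

variable {m : Fin 3 → ℕ}

theorem lab_inj : Function.Injective (lab : Pw m → Lb) := by
  intro a b h
  rcases a with _ | ⟨t, i⟩ <;> rcases b with _ | ⟨u, j⟩
  · rfl
  · simp [lab] at h
  · simp [lab] at h
  · simp only [lab, Option.some.injEq, Prod.mk.injEq] at h
    obtain ⟨h1, h2⟩ := h
    subst h1
    have : i = j := Fin.ext h2
    rw [this]

theorem xe_symm (e f : Sym2 (Pw m)) (h : XE e f) : XE f e := by
  refine ⟨h.1.symm, ?_⟩
  rcases h.2 with h2 | h2
  · exact Or.inr h2
  · exact Or.inl h2

theorem xe_irr (e : Sym2 (Pw m)) : ¬ XE e e := by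
  intro h
  rcases h.2 with h2 | h2
  · exact lt_irrefl _ h2.1
  · exact lt_irrefl _ h2.1

private theorem comm_end3 (t u v : Fin 3) (i j k : ℕ) (hab : ¬ (t = u ∧ i = j))
    (hac : ¬ (t = v ∧ i = k)) :
    ¬ (sec (some (t, i)) (some (u, j)) = sec (some (t, i)) (some (v, k)) ∧
      Il (cod (some (t, i)) (some (u, j))) (cod (some (t, i)) (some (v, k)))) := by
  fin_cases t <;> fin_cases u <;> fin_cases v <;>
    simp [sec, cod, Il] at * <;> omega

private theorem comm_end (a b d : Lb) (hab : a ≠ b) (had : a ≠ d) :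
    ¬ (sec a b = sec a d ∧ Il (cod a b) (cod a d)) := by
  rcases a with _ | ⟨t, i⟩
  · rcases b with _ | ⟨u, j⟩
    · exact absurd rfl hab
    rcases d with _ | ⟨v, k⟩
    · exact absurd rfl had
    simp only [sec, cod, Il]
    omega
  rcases b with _ | ⟨u, j⟩
  · rcases d with _ | ⟨v, k⟩
    · simp only [sec, cod, Il]
      omega
    · fin_cases t <;> fin_cases v <;> simp [sec, cod, Il] at *
  rcases d with _ | ⟨v, k⟩
  · fin_cases t <;> fin_cases u <;> simp [sec, cod, Il] at *
  exact comm_end3 t u v i j k (by simpa using hab) (by simpa using had)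

private theorem xe_common {a b d : Pw m} (hab : a ≠ b) (had : a ≠ d) : ¬ XE s(a, b) s(a, d) :=
  comm_end (lab a) (lab b) (lab d) (fun h => hab (lab_inj h)) (fun h => had (lab_inj h))

theorem xe_iff {a b c d : Pw m} (hab : a ≠ b) (hcd : c ≠ d) :
    XE s(a, b) s(c, d) ↔ (a ≠ c ∧ a ≠ d ∧ b ≠ c ∧ b ≠ d ∧ Cross (oP m) a b c d) := by
  constructor
  · intro h
    have hac : a ≠ c := by
      rintro rfl
      exact xe_common hab hcd h
    have had : a ≠ d := by
      rintro rfl
      rw [Sym2.eq_swap (a := c)] at h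
      exact xe_common hab hcd.symm h
    have hbc : b ≠ c := by
      rintro rfl
      rw [Sym2.eq_swap (a := a)] at h
      exact xe_common hab.symm hcd h
    have hbd : b ≠ d := by
      rintro rfl
      rw [Sym2.eq_swap (a := a), Sym2.eq_swap (a := c)] at h
      exact xe_common hab.symm hcd.symm h
    refine ⟨hac, had, hbc, hbd, ?_⟩
    exact (cross_code (lab a) (lab b) (lab c) (lab d) (fun h => hab (lab_inj h))
      (fun h => hac (lab_inj h)) (fun h => had (lab_inj h)) (fun h => hbc (lab_inj h))
      (fun h => hbd (lab_inj h)) (fun h => hcd (lab_inj h))).2 h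
  · rintro ⟨hac, had, hbc, hbd, h⟩
    exact (cross_code (lab a) (lab b) (lab c) (lab d) (fun h => hab (lab_inj h))
      (fun h => hac (lab_inj h)) (fun h => had (lab_inj h)) (fun h => hbc (lab_inj h))
      (fun h => hbd (lab_inj h)) (fun h => hcd (lab_inj h))).1 h

private theorem ed_ne {E : Finset (Sym2 (Pw m))} (hE : E ⊆ Ed m) {a b : Pw m}
    (h : s(a, b) ∈ E) : a ≠ b := by
  intro e
  have h1 := hE h
  unfold Ed at h1
  rw [Finset.mem_filter] at h1
  exact h1.2 e

theorem nonCr_iff {E : Finset (Sym2 (Pw m))} (hE : E ⊆ Ed m) :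
    NonCr (oP m) E ↔ ∀ e ∈ E, ∀ f ∈ E, ¬ XE e f := by
  constructor
  · intro h e he f hf hx
    induction e using Sym2.ind with
    | _ a b =>
      induction f using Sym2.ind with
      | _ c d =>
        obtain ⟨h1, h2, h3, h4, h5⟩ := (xe_iff (ed_ne hE he) (ed_ne hE hf)).1 hx
        exact h a b c d he hf h1 h2 h3 h4 h5
  · intro h a b c d he hf h1 h2 h3 h4 h5
    exact h _ he _ hf ((xe_iff (ed_ne hE he) (ed_ne hE hf)).2 ⟨h1, h2, h3, h4, h5⟩)

private theorem mem_Ed (e : Sym2 (Pw m)) : e ∈ Ed m ↔ ¬ e.IsDiag := by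
  unfold Ed
  rw [Finset.mem_filter]
  exact ⟨fun h => h.2, fun h => ⟨Finset.mem_univ _, h⟩⟩

theorem max_iff {E : Finset (Sym2 (Pw m))} : Max (oP m) ∅ E ↔ IsM XE (Ed m) E := by
  constructor
  · rintro ⟨h1, h2⟩
    have hsub : E ⊆ Ed m := fun e he => (mem_Ed e).2 (h1.nd e he)
    have hind := (nonCr_iff hsub).1 h1.nc
    refine ⟨hsub, hind, fun e he heE => ?_⟩
    by_contra hno
    push Not at hno
    refine h2 e ((mem_Ed e).1 he) heE ⟨?_, ?_, ?_⟩
    · intro f hf
      rcases (@Finset.mem_insert _ (_) _ _ _).1 hf with rfl | hf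
      · exact (mem_Ed _).1 he
      · exact h1.nd f hf
    · refine (nonCr_iff ?_).2 ?_
      · intro f hf
        rcases (@Finset.mem_insert _ (_) _ _ _).1 hf with rfl | hf
        · exact he
        · exact hsub hf
      · intro f hf g hg
        rcases (@Finset.mem_insert _ (_) _ _ _).1 hf with hf1 | hf1
        · rcases (@Finset.mem_insert _ (_) _ _ _).1 hg with hg1 | hg1
          · rw [hf1, hg1]
            exact xe_irr _
          · rw [hf1]
            exact hno g hg1
        · rcases (@Finset.mem_insert _ (_) _ _ _).1 hg with hg1 | hg1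
          · rw [hg1]
            exact fun hx => hno f hf1 (xe_symm _ _ hx)
          · exact hind f hf1 g hg1
    · intro v hv
      exact absurd hv (Finset.notMem_empty v)
  · intro h
    refine ⟨⟨fun e he => (mem_Ed e).1 (h.sub he), (nonCr_iff h.sub).2 h.ind,
      fun v hv => absurd hv (Finset.notMem_empty v)⟩, ?_⟩
    intro e hd he hF
    obtain ⟨f, hf, hx⟩ := h.mx e ((mem_Ed e).2 hd) he
    refine (nonCr_iff ?_).1 hF.nc e ((@Finset.mem_insert _ (_) _ _ _).2 (Or.inl rfl)) f
      ((@Finset.mem_insert _ (_) _ _ _).2 (Or.inr hf)) hx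
    intro g hg
    exact (mem_Ed g).2 (hF.nd g hg)

theorem cnt_empty : cnt (oP m) ∅ = nM XE (Ed m) := by
  unfold cnt nM
  apply congrArg Finset.card
  ext E
  unfold MaxSet MS
  rw [Finset.mem_filter, Finset.mem_filter, Finset.mem_powerset, max_iff]
  exact ⟨fun h => ⟨h.2.sub, h.2⟩, fun h => ⟨Finset.mem_univ _, h.2⟩⟩

end Pool.Agent.Work.MP_02cc39_co.Pin
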