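import Pool.Agent.Work.MP_02cc39_co.Pin.SignB
import Pool.Agent.Work.MP_02cc39_co.Pin.MaxM

set_option autoImplicit false

/-!
# The configuration (size S-M)

PROOF. n := m 0 + m 1 + m 2, M := 100 (n+3)³, P := pt M ∘ lab. `Gen P`: injective by `pt_inj` and `lab_inj`; det P i j k = dt (P i) (P j) (P k) (definitionally) ≠ 0 by `sign_pt`.
L P a b c ↔ oP m a b c: three different vertices: `sign_pt`; if two coincide, det = 0 and og is false (`og_ne`).
`centre_interior`: the point P none = 0 is a strictly positive combination of the three points P (tip t) ((0,0) is in the interior of the triangle with the vertices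
 par, rot par, rot² par of one index: their sum is 0: p + rot p + rot² p = 0 (ring)); interior of the convex hull of an affinely independent triangle
 (`AffineBasis.interior_convexHull` or directly: a small ball; simplest: the convex hull contains a neighbourhood of 0: the triangle with vertices (M+9, 3M), (-3M, 9-2M), (2M-9, -M-9) ...).
-/

namespace Pool.Agent.Work.MP_02cc39_co.Pin

open Classical Pool.Agent.Work.MP_02cc39_co.PT

theorem config (m : Fin 3 → ℕ) : ∃ M : ℝ, 0 < M ∧ Gen (fun a : Pw m => pt M (lab a)) ∧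
    L (fun a : Pw m => pt M (lab a)) = oP m := by
  obtain ⟨n, hn⟩ : ∃ n : ℕ, ∀ t, m t ≤ n := by
    refine ⟨m 0 + m 1 + m 2, ?_⟩
    intro t
    fin_cases t
    · show m 0 ≤ _
      omega
    · show m 1 ≤ _
      omega
    · show m 2 ≤ _
      omega
  have hB : ∀ a : Pw m, Bd n (lab a) := by
    rintro (_ | ⟨t, i⟩)
    · trivial
    · show (i : ℕ) ≤ n
      exact (i.2.le).trans (hn t)
  have hM' : 100 * ((n : ℝ) + 3) ^ 3 ≤ 100 * ((n : ℝ) + 3) ^ 3 := le_rfl
  generalize hMM : 100 * ((n : ℝ) + 3) ^ 3 = M at hM'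
  have hM0 : 0 < M := by
    rw [← hMM]
    positivity
  have hM1 : 100 * ((n : ℝ) + 3) ^ 3 ≤ M := hMM.le
  have hd : ∀ a b c : Pw m, det (fun a : Pw m => pt M (lab a)) a b c =
      dt (pt M (lab a)) (pt M (lab b)) (pt M (lab c)) := fun a b c => rfl
  refine ⟨M, hM0, ⟨fun a b h => lab_inj (pt_inj hM1 (hB a) (hB b) h), ?_⟩, ?_⟩
  · intro i j k hij hik hjk
    rw [hd]
    rcases sign_pt hM1 (hB i) (hB j) (hB k) (lab_inj.ne hij) (lab_inj.ne hik)
      (lab_inj.ne hjk) with ⟨-, h⟩ | ⟨-, h⟩
    · exact h.ne'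
    · exact h.ne
  · funext a b c
    apply propext
    show 0 < det (fun a : Pw m => pt M (lab a)) a b c ↔ og (lab a) (lab b) (lab c)
    rw [hd]
    by_cases hab : a = b
    · subst hab
      have h0 : dt (pt M (lab a)) (pt M (lab a)) (pt M (lab c)) = 0 := by
        unfold dt
        ring
      rw [h0]
      exact ⟨fun h => absurd h (lt_irrefl _), fun h => absurd rfl (og_ne h).1⟩
    by_cases hac : a = c
    · subst hac
      have h0 : dt (pt M (lab a)) (pt M (lab b)) (pt M (lab a)) = 0 := by
        unfold dt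
        ring
      rw [h0]
      exact ⟨fun h => absurd h (lt_irrefl _), fun h => absurd rfl (og_ne h).2.1⟩
    by_cases hbc : b = c
    · subst hbc
      have h0 : dt (pt M (lab a)) (pt M (lab b)) (pt M (lab b)) = 0 := by
        unfold dt
        ring
      rw [h0]
      exact ⟨fun h => absurd h (lt_irrefl _), fun h => absurd rfl (og_ne h).2.2⟩
    rcases sign_pt hM1 (hB a) (hB b) (hB c) (lab_inj.ne hab) (lab_inj.ne hac)
      (lab_inj.ne hbc) with ⟨h1, h⟩ | ⟨h1, h⟩
    · exact ⟨fun _ => h1, fun _ => h⟩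
    · exact ⟨fun h2 => absurd (h.trans h2) (lt_irrefl _), fun h2 => absurd h2 h1⟩

end Pool.Agent.Work.MP_02cc39_co.Pin
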