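import Pool.Agent.Work.MP_02cc39_co.Pin.Mis

set_option autoImplicit false

/-!
# Maximal independent sets: transport along an injective map (size M)

PROOF. E ↦ E.image φ is a bijection from MS X D to MS Y (D.image φ) (inverse E' ↦ D.filter (φ · ∈ E')), E ⊆ D.
-/

namespace Pool.Agent.Work.MP_02cc39_co.Pin

open Classical

variable {α β : Type*} {X : α → α → Prop} {Y : β → β → Prop}

private theorem isM_iff {D E : Finset α} (φ : α → β) (hφ : Set.InjOn φ D)
    (h : ∀ e ∈ D, ∀ f ∈ D, (X e f ↔ Y (φ e) (φ f))) (hE : E ⊆ D) :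
    IsM X D E ↔ IsM Y (D.image φ) (E.image φ) := by
  constructor
  · intro hM
    refine ⟨Finset.image_subset_image hE, ?_, ?_⟩
    · intro e' he' f' hf' hY
      obtain ⟨e, he, rfl⟩ := Finset.mem_image.mp he'
      obtain ⟨f, hf, rfl⟩ := Finset.mem_image.mp hf'
      exact hM.ind e he f hf ((h e (hE he) f (hE hf)).mpr hY)
    · intro e' he' hne
      obtain ⟨e, he, rfl⟩ := Finset.mem_image.mp he'
      obtain ⟨f, hf, hX⟩ := hM.mx e he (fun hc => hne (Finset.mem_image_of_mem φ hc))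
      exact ⟨φ f, Finset.mem_image_of_mem φ hf, (h e he f (hE hf)).mp hX⟩
  · intro hM
    refine ⟨hE, ?_, ?_⟩
    · intro e he f hf hX
      exact hM.ind (φ e) (Finset.mem_image_of_mem φ he) (φ f) (Finset.mem_image_of_mem φ hf)
        ((h e (hE he) f (hE hf)).mp hX)
    · intro e he hne
      have hne' : φ e ∉ E.image φ := by
        intro hc
        obtain ⟨e', he', hee⟩ := Finset.mem_image.mp hc
        have := hφ (hE he') he hee
        exact hne (this ▸ he')
      obtain ⟨f', hf', hY⟩ := hM.mx (φ e) (Finset.mem_image_of_mem φ he) hne'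
      obtain ⟨f, hf, rfl⟩ := Finset.mem_image.mp hf'
      exact ⟨f, hf, (h e he f (hE hf)).mpr hY⟩

private theorem image_inj {D E E' : Finset α} (φ : α → β) (hφ : Set.InjOn φ D)
    (hE : E ⊆ D) (hE' : E' ⊆ D) (h : E.image φ = E'.image φ) : E = E' := by
  have key : ∀ A B : Finset α, A ⊆ D → B ⊆ D → A.image φ = B.image φ → A ⊆ B := by
    intro A B hA hB hAB a ha
    have h1 : φ a ∈ B.image φ := hAB ▸ Finset.mem_image_of_mem φ ha
    obtain ⟨b, hb, hba⟩ := Finset.mem_image.mp h1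
    have := hφ (hB hb) (hA ha) hba
    exact this ▸ hb
  exact Finset.Subset.antisymm (key E E' hE hE' h) (key E' E hE' hE h.symm)

private theorem pull {D : Finset α} (φ : α → β) {E' : Finset β} (hE' : E' ⊆ D.image φ) :
    (D.filter (fun a => φ a ∈ E')).image φ = E' := by
  ext b
  rw [Finset.mem_image]
  constructor
  · rintro ⟨a, ha, rfl⟩
    exact (Finset.mem_filter.mp ha).2
  · intro hb
    obtain ⟨a, ha, rfl⟩ := Finset.mem_image.mp (hE' hb)
    exact ⟨a, Finset.mem_filter.mpr ⟨ha, hb⟩, rfl⟩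

private theorem MS_image {D : Finset α} (φ : α → β) (hφ : Set.InjOn φ D)
    (h : ∀ e ∈ D, ∀ f ∈ D, (X e f ↔ Y (φ e) (φ f))) :
    MS Y (D.image φ) = (MS X D).image (fun E => E.image φ) := by
  ext E'
  rw [mem_MS, Finset.mem_image]
  constructor
  · intro hM
    refine ⟨D.filter (fun a => φ a ∈ E'), ?_, pull φ hM.sub⟩
    rw [mem_MS, isM_iff φ hφ h (Finset.filter_subset _ _), pull φ hM.sub]
    exact hM
  · rintro ⟨E, hE, rfl⟩
    rw [mem_MS] at hE
    exact (isM_iff φ hφ h hE.sub).mp hE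

private theorem inj_MS {D : Finset α} (φ : α → β) (hφ : Set.InjOn φ D) :
    Set.InjOn (fun E : Finset α => E.image φ) (MS X D : Set (Finset α)) := by
  intro E hE E' hE' hEE
  rw [Finset.mem_coe, mem_MS] at hE hE'
  exact image_inj φ hφ hE.sub hE'.sub hEE

theorem nM_map {D : Finset α} (φ : α → β) (hφ : Set.InjOn φ D) (h : ∀ e ∈ D, ∀ f ∈ D, (X e f ↔ Y (φ e) (φ f))) :
    nM X D = nM Y (D.image φ) := by
  unfold nM
  rw [MS_image φ hφ h, Finset.card_image_of_injOn (inj_MS φ hφ)]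

theorem nC_map {D : Finset α} (φ : α → β) (hφ : Set.InjOn φ D) (h : ∀ e ∈ D, ∀ f ∈ D, (X e f ↔ Y (φ e) (φ f)))
    {e : α} (he : e ∈ D) : nC X D e = nC Y (D.image φ) (φ e) := by
  unfold nC
  have e1 : (MS Y (D.image φ)).filter (fun E => φ e ∈ E) =
      ((MS X D).filter (fun E => e ∈ E)).image (fun E => E.image φ) := by
    rw [MS_image φ hφ h]
    ext E'
    rw [Finset.mem_filter, Finset.mem_image, Finset.mem_image]
    constructor
    · rintro ⟨⟨E, hE, rfl⟩, hmem⟩
      refine ⟨E, Finset.mem_filter.mpr ⟨hE, ?_⟩, rfl⟩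
      obtain ⟨a, ha, hae⟩ := Finset.mem_image.mp hmem
      have := hφ (((mem_MS).mp hE).sub ha) he hae
      exact this ▸ ha
    · rintro ⟨E, hE, rfl⟩
      rw [Finset.mem_filter] at hE
      exact ⟨⟨E, hE.1, rfl⟩, Finset.mem_image_of_mem φ hE.2⟩
  rw [e1, Finset.card_image_of_injOn]
  intro E hE E' hE' hEE
  exact inj_MS (X := X) φ hφ (Finset.filter_subset _ _ hE) (Finset.filter_subset _ _ hE') hEE

end Pool.Agent.Work.MP_02cc39_co.Pin
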