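import Pool.Agent.Work.MP_02cc39_co.Pin.Mis

set_option autoImplicit false

/-!
# Maximal independent sets: products (size M)

PROOFS. `nM_two`: E ↦ (E.filter p, E.filter ¬p) is a bijection from MS X D to MS X (D.filter p) ×ˢ MS X (D.filter ¬p), inverse (E1, E2) ↦ E1 ∪ E2
(no relations between the two parts). `nC_two`: the same with the condition e ∈ E (e ∈ E1).
`nM_three`, `nC_three`: twice `nM_two` / `nC_two`: first p = (c · = 0), then on the rest p = (c · = 1), where for a general t one uses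
t, t + 1, t + 2 (for nC: first p = (c · = t) with `nC_two`, then the rest with `nM_two`); `fin_cases t` and mul_comm.
-/

namespace Pool.Agent.Work.MP_02cc39_co.Pin

open Classical

variable {α : Type*} {X : α → α → Prop}

private theorem mp_left {D : Finset α} (p : α → Prop) [DecidablePred p] (h : ∀ e ∈ D, ∀ f ∈ D, X e f → (p e ↔ p f))
    {E : Finset α} (hE : IsM X D E) : IsM X (D.filter p) (E.filter p) := by
  refine ⟨Finset.filter_subset_filter p hE.sub, ?_, ?_⟩
  · intro f hf g hg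
    exact hE.ind f (Finset.mem_filter.1 hf).1 g (Finset.mem_filter.1 hg).1
  · intro f hf hfE
    rw [Finset.mem_filter] at hf
    have h1 : f ∉ E := fun h2 => hfE (Finset.mem_filter.2 ⟨h2, hf.2⟩)
    obtain ⟨g, hg, hX⟩ := hE.mx f hf.1 h1
    exact ⟨g, Finset.mem_filter.2 ⟨hg, (h f hf.1 g (hE.sub hg) hX).1 hf.2⟩, hX⟩

private theorem mp_join {D : Finset α} (p : α → Prop) [DecidablePred p] (h : ∀ e ∈ D, ∀ f ∈ D, X e f → (p e ↔ p f))
    {E F : Finset α} (hE : IsM X (D.filter p) E) (hF : IsM X (D.filter fun e => ¬ p e) F) :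
    IsM X D (E ∪ F) := by
  have hED : ∀ e ∈ E, e ∈ D ∧ p e := fun e he => Finset.mem_filter.1 (hE.sub he)
  have hFD : ∀ e ∈ F, e ∈ D ∧ ¬ p e := fun e he => Finset.mem_filter.1 (hF.sub he)
  refine ⟨?_, ?_, ?_⟩
  · intro e he
    rcases Finset.mem_union.1 he with h1 | h1
    · exact (hED e h1).1
    · exact (hFD e h1).1
  · intro e he f hf hX
    rcases Finset.mem_union.1 he with h1 | h1 <;> rcases Finset.mem_union.1 hf with h2 | h2
    · exact hE.ind e h1 f h2 hX
    · exact (hFD f h2).2 ((h e (hED e h1).1 f (hFD f h2).1 hX).1 (hED e h1).2)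
    · exact (hFD e h1).2 ((h e (hFD e h1).1 f (hED f h2).1 hX).2 (hED f h2).2)
    · exact hF.ind e h1 f h2 hX
  · intro e he heE
    have h1 : e ∉ E := fun h2 => heE (Finset.mem_union.2 (Or.inl h2))
    have h2 : e ∉ F := fun h2 => heE (Finset.mem_union.2 (Or.inr h2))
    by_cases hp : p e
    · obtain ⟨f, hf, hX⟩ := hE.mx e (Finset.mem_filter.2 ⟨he, hp⟩) h1
      exact ⟨f, Finset.mem_union.2 (Or.inl hf), hX⟩
    · obtain ⟨f, hf, hX⟩ := hF.mx e (Finset.mem_filter.2 ⟨he, hp⟩) h2
      exact ⟨f, Finset.mem_union.2 (Or.inr hf), hX⟩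

private theorem mp_not {D : Finset α} (p : α → Prop) (h : ∀ e ∈ D, ∀ f ∈ D, X e f → (p e ↔ p f)) :
    ∀ e ∈ D, ∀ f ∈ D, X e f → (¬ p e ↔ ¬ p f) :=
  fun e he f hf hX => not_congr (h e he f hf hX)

private theorem mp_filt {D : Finset α} (p : α → Prop) [DecidablePred p]
    {E F : Finset α} (hE : E ⊆ D.filter p) (hF : F ⊆ D.filter fun e => ¬ p e) :
    (E ∪ F).filter p = E ∧ (E ∪ F).filter (fun e => ¬ p e) = F := by
  constructor
  · ext e
    rw [Finset.mem_filter, Finset.mem_union]
    constructor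
    · rintro ⟨h1 | h1, h2⟩
      · exact h1
      · exact absurd h2 (Finset.mem_filter.1 (hF h1)).2
    · intro h1
      exact ⟨Or.inl h1, (Finset.mem_filter.1 (hE h1)).2⟩
  · ext e
    rw [Finset.mem_filter, Finset.mem_union]
    constructor
    · rintro ⟨h1 | h1, h2⟩
      · exact absurd (Finset.mem_filter.1 (hE h1)).2 h2
      · exact h1
    · intro h1
      exact ⟨Or.inr h1, (Finset.mem_filter.1 (hF h1)).2⟩

theorem nM_two {D : Finset α} (p : α → Prop) (h : ∀ e ∈ D, ∀ f ∈ D, X e f → (p e ↔ p f)) :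
    nM X D = nM X (D.filter p) * nM X (D.filter fun e => ¬ p e) := by
  unfold nM
  rw [← Finset.card_product]
  refine Finset.card_bij' (fun E _ => (E.filter p, E.filter fun e => ¬ p e)) (fun q _ => q.1 ∪ q.2)
    ?_ ?_ ?_ ?_
  · intro E hE
    rw [mem_MS] at hE
    rw [Finset.mem_product, mem_MS, mem_MS]
    exact ⟨mp_left p h hE, mp_left (fun e => ¬ p e) (mp_not p h) hE⟩
  · intro q hq
    rw [Finset.mem_product, mem_MS, mem_MS] at hq
    rw [mem_MS]
    exact mp_join p h hq.1 hq.2
  · intro E _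
    exact Finset.filter_union_filter_not_eq p E
  · intro q hq
    rw [Finset.mem_product, mem_MS, mem_MS] at hq
    have h1 := mp_filt p hq.1.sub hq.2.sub
    exact Prod.ext h1.1 h1.2

theorem nC_two {D : Finset α} (p : α → Prop) (h : ∀ e ∈ D, ∀ f ∈ D, X e f → (p e ↔ p f)) {e : α} (he : e ∈ D)
    (hpe : p e) : nC X D e = nC X (D.filter p) e * nM X (D.filter fun e => ¬ p e) := by
  unfold nC nM
  rw [← Finset.card_product]
  refine Finset.card_bij' (fun E _ => (E.filter p, E.filter fun e => ¬ p e)) (fun q _ => q.1 ∪ q.2)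
    ?_ ?_ ?_ ?_
  · intro E hE
    rw [Finset.mem_filter, mem_MS] at hE
    rw [Finset.mem_product, Finset.mem_filter, mem_MS, mem_MS]
    exact ⟨⟨mp_left p h hE.1, Finset.mem_filter.2 ⟨hE.2, hpe⟩⟩,
      mp_left (fun e => ¬ p e) (mp_not p h) hE.1⟩
  · intro q hq
    rw [Finset.mem_product, Finset.mem_filter, mem_MS, mem_MS] at hq
    rw [Finset.mem_filter, mem_MS]
    exact ⟨mp_join p h hq.1.1 hq.2, Finset.mem_union.2 (Or.inl hq.1.2)⟩
  · intro E _
    exact Finset.filter_union_filter_not_eq p E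
  · intro q hq
    rw [Finset.mem_product, Finset.mem_filter, mem_MS, mem_MS] at hq
    have h1 := mp_filt p hq.1.1.sub hq.2.sub
    exact Prod.ext h1.1 h1.2

private theorem mp_fin3 : ∀ x t : Fin 3, x ≠ t → (x = t + 1 ↔ x ≠ t + 2) := by decide

private theorem mp_fin3a : ∀ x t : Fin 3, (x ≠ t ∧ x = t + 1) ↔ x = t + 1 := by decide

private theorem mp_fin3b : ∀ x t : Fin 3, (x ≠ t ∧ x ≠ t + 1) ↔ x = t + 2 := by decide

private theorem mp_two {D : Finset α} (p : α → Prop) [i : DecidablePred p]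
    (h : ∀ e ∈ D, ∀ f ∈ D, X e f → (p e ↔ p f)) :
    nM X D = nM X (D.filter p) * nM X (D.filter fun e => ¬ p e) := by
  have h1 := nM_two p h
  have h2 : i = fun a => propDecidable (p a) := Subsingleton.elim _ _
  rw [h2]
  exact h1

private theorem mp_twoC {D : Finset α} (p : α → Prop) [i : DecidablePred p]
    (h : ∀ e ∈ D, ∀ f ∈ D, X e f → (p e ↔ p f)) {e : α} (he : e ∈ D)
    (hpe : p e) : nC X D e = nC X (D.filter p) e * nM X (D.filter fun e => ¬ p e) := by
  have h1 := nC_two p h he hpe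
  have h2 : i = fun a => propDecidable (p a) := Subsingleton.elim _ _
  rw [h2]
  exact h1

private theorem mp_rest {D : Finset α} (c : α → Fin 3) (h : ∀ e ∈ D, ∀ f ∈ D, X e f → c e = c f) (t : Fin 3) :
    nM X (D.filter fun e => ¬ c e = t) = nM X (D.filter fun e => c e = t + 1) *
      nM X (D.filter fun e => c e = t + 2) := by
  rw [mp_two (fun e => c e = t + 1) (fun e he f hf hX => by
    rw [h e (Finset.mem_filter.1 he).1 f (Finset.mem_filter.1 hf).1 hX])]
  congr 2
  · rw [Finset.filter_filter]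
    exact Finset.filter_congr fun e _ => mp_fin3a (c e) t
  · rw [Finset.filter_filter]
    exact Finset.filter_congr fun e _ => mp_fin3b (c e) t

theorem nM_three {D : Finset α} (c : α → Fin 3) (h : ∀ e ∈ D, ∀ f ∈ D, X e f → c e = c f) :
    nM X D = nM X (D.filter fun e => c e = 0) * nM X (D.filter fun e => c e = 1) *
      nM X (D.filter fun e => c e = 2) := by
  rw [mp_two (fun e => c e = 0) (fun e he f hf hX => by rw [h e he f hf hX]), mp_rest c h 0, mul_assoc]
  rfl

theorem nC_three {D : Finset α} (c : α → Fin 3) (h : ∀ e ∈ D, ∀ f ∈ D, X e f → c e = c f) {t : Fin 3} {e : α}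
    (he : e ∈ D) (het : c e = t) :
    nC X D e = nC X (D.filter fun e => c e = t) e * nM X (D.filter fun e => c e = t + 1) *
      nM X (D.filter fun e => c e = t + 2) := by
  rw [mp_twoC (fun e => c e = t) (fun e he f hf hX => by rw [h e he f hf hX]) he het, mp_rest c h t,
    mul_assoc]

end Pool.Agent.Work.MP_02cc39_co.Pin
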