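import Pool.Agent.Work.MP_02cc39_co.Pin.StripBase
import Pool.Agent.Work.MP_02cc39_co.Pin.MisMap

set_option autoImplicit false

/-!
# Sectors: the maximal sets which do not contain (-1, 1) (size M)

PROOFS. D = Sec (a+1) b, g = (-1, 1), s = (-2, 0) ∈ D (a ≥ 1).
`Sec_without`: (1) for E ∈ MS D: g ∉ E ↔ s ∈ E. (s interlaces with g; if g ∉ E, mx gives f ∈ E with Il g f, i.e. f = (x, 0), x ≤ -2 (no pair starts at 0);
 if s ∉ E, mx gives f' ∈ E with Il s f', i.e. f' = (-1, y), y ≥ 1 (a pair with f'.1 < -2 < f'.2 < 0 does not exist); but then x < -1 < 0 < y: Il f f', contradiction.)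
 So nM D = nC D g + nC D s.
(2) nC D s = nM (Sec a b): `nC_eq`: D1 = {f ∈ D | f ≠ s, ¬ Il s f} = {(-1,0)} ∪ {f ∈ D | f.1 ≠ -1, f ≠ s}; (-1, 0) interlaces with nothing in D1: `nM_erase`;
 φ(x, y) = (if x < 0 then x + 1 else x, y) maps {f ∈ D | f.1 ≠ -1, f ≠ s} injectively onto (Sec a b).erase (-1, 0), keeps Il; (-1, 0) interlaces with nothing in Sec a b: `nM_erase`.
`Sec_one`: in Sec 1 b the pair (-1, 1) interlaces with nothing: `nC_of_iso`.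
-/

namespace Pool.Agent.Work.MP_02cc39_co.Pin

open Classical

section generic
variable {α β : Type*} {X : α → α → Prop} {Y : β → β → Prop}

private theorem nM_split {D : Finset α} (e s : α)
    (h : ∀ E, IsM X D E → (¬ e ∈ E ↔ s ∈ E)) : nM X D = nC X D e + nC X D s := by
  unfold nM nC
  rw [← Finset.card_filter_add_card_filter_not (s := MS X D) (fun E => e ∈ E)]
  congr 2
  apply Finset.filter_congr
  intro E hE
  exact h E ((mem_MS).mp hE)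

private theorem nC_ex (hs : ∀ e f, X e f → X f e) {D : Finset α} {e : α} (he : e ∈ D)
    (hee : ¬ X e e) : ∃ D1 : Finset α, (∀ f, f ∈ D1 ↔ f ∈ D ∧ f ≠ e ∧ ¬ X e f) ∧
      nC X D e = nM X D1 :=
  ⟨_, fun _ => Finset.mem_filter, nC_eq hs he hee⟩

private theorem nM_ex (hs : ∀ e f, X e f → X f e) {D : Finset α} {e : α} (he : e ∈ D)
    (h : ∀ f ∈ D, ¬ X e f) : ∃ D1 : Finset α, (∀ f, f ∈ D1 ↔ f ≠ e ∧ f ∈ D) ∧
      nM X D = nM X D1 :=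
  ⟨_, fun _ => Finset.mem_erase, nM_erase hs he h⟩

private theorem nM_map' {D : Finset α} {D' : Finset β} (φ : α → β) (hφ : Set.InjOn φ D)
    (h : ∀ e ∈ D, ∀ f ∈ D, (X e f ↔ Y (φ e) (φ f)))
    (hD' : ∀ b, b ∈ D' ↔ ∃ a ∈ D, φ a = b) : nM X D = nM Y D' := by
  have : D' = D.image φ := by
    ext b
    rw [hD', Finset.mem_image]
  rw [this]
  exact nM_map φ hφ h

end generic

private theorem g_iff {a b : ℕ} (ha : 1 ≤ a) (hb : 1 ≤ b) {E : Finset (ℤ × ℤ)}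
    (hE : IsM Il (Sec (a + 1) b) E) : ¬ ((-1, 1) : ℤ × ℤ) ∈ E ↔ ((-2, 0) : ℤ × ℤ) ∈ E := by
  have hg : ((-1, 1) : ℤ × ℤ) ∈ Sec (a + 1) b := by
    rw [mem_Sec]; push_cast; refine ⟨?_, ?_, ?_, ?_, ?_⟩ <;> (try simp only) <;> omega
  have hs : ((-2, 0) : ℤ × ℤ) ∈ Sec (a + 1) b := by
    rw [mem_Sec]; push_cast; refine ⟨?_, ?_, ?_, ?_, ?_⟩ <;> (try simp only) <;> omega
  constructor
  · intro hgE
    by_contra hsE
    obtain ⟨f, hf, hIl⟩ := hE.mx _ hg hgE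
    obtain ⟨f', hf', hIl'⟩ := hE.mx _ hs hsE
    have h1 := (mem_Sec).mp (hE.sub hf)
    have h2 := (mem_Sec).mp (hE.sub hf')
    apply hE.ind f hf f' hf'
    unfold Il at hIl hIl' ⊢
    simp only at hIl hIl'
    omega
  · intro hsE hgE
    apply hE.ind _ hsE _ hgE
    unfold Il
    simp only
    omega

theorem Sec_without {a b : ℕ} (ha : 1 ≤ a) (hb : 1 ≤ b) :
    nM Il (Sec (a + 1) b) = nC Il (Sec (a + 1) b) (-1, 1) + nM Il (Sec a b) := by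
  have hs : ((-2, 0) : ℤ × ℤ) ∈ Sec (a + 1) b := by
    rw [mem_Sec]; push_cast; refine ⟨?_, ?_, ?_, ?_, ?_⟩ <;> (try simp only) <;> omega
  rw [nM_split (X := Il) ((-1, 1) : ℤ × ℤ) ((-2, 0) : ℤ × ℤ) (fun E hE => g_iff ha hb hE)]
  congr 1
  obtain ⟨D1, hD1, e1⟩ := nC_ex (X := Il) il_symm hs (il_irr _)
  rw [e1]
  have m1 : ∀ f : ℤ × ℤ, f ∈ D1 ↔ (-((a : ℤ) + 1) ≤ f.1 ∧ f.1 < f.2 ∧ f.2 ≤ (b : ℤ) ∧ 0 ≤ f.2 ∧
      f.1 ≠ 0) ∧ ¬ (f.1 = -2 ∧ f.2 = 0) ∧ ¬ (f.1 = -1 ∧ 1 ≤ f.2) := by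
    intro f
    rw [hD1, mem_Sec]
    push_cast
    have hne : f ≠ ((-2, 0) : ℤ × ℤ) ↔ ¬ (f.1 = -2 ∧ f.2 = 0) := by
      rw [Ne, Prod.ext_iff]
    rw [hne]
    unfold Il
    simp only
    constructor
    · rintro ⟨h1, h2, h3⟩
      refine ⟨h1, h2, ?_⟩
      omega
    · rintro ⟨h1, h2, h3⟩
      refine ⟨h1, h2, ?_⟩
      omega
  have h10 : ((-1, 0) : ℤ × ℤ) ∈ D1 := by
    rw [m1]
    simp only
    omega
  have iso1 : ∀ f ∈ D1, ¬ Il (-1, 0) f := by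
    intro f hf
    rw [m1] at hf
    unfold Il
    simp only
    omega
  obtain ⟨D2, hD2, e2⟩ := nM_ex (X := Il) il_symm h10 iso1
  rw [e2]
  have h10' : ((-1, 0) : ℤ × ℤ) ∈ Sec a b := by
    rw [mem_Sec]; refine ⟨?_, ?_, ?_, ?_, ?_⟩ <;> (try simp only) <;> omega
  have iso2 : ∀ f ∈ Sec a b, ¬ Il (-1, 0) f := by
    intro f hf
    rw [mem_Sec] at hf
    unfold Il
    simp only
    omega
  obtain ⟨D3, hD3, e3⟩ := nM_ex (X := Il) il_symm h10' iso2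
  rw [e3]
  let φ : ℤ × ℤ → ℤ × ℤ := fun f => (if f.1 < 0 then f.1 + 1 else f.1, f.2)
  have m2 : ∀ f : ℤ × ℤ, f ∈ D2 ↔ (-((a : ℤ) + 1) ≤ f.1 ∧ f.1 < f.2 ∧ f.2 ≤ (b : ℤ) ∧
      0 ≤ f.2 ∧ f.1 ≠ 0) ∧ ¬ (f.1 = -2 ∧ f.2 = 0) ∧ f.1 ≠ -1 := by
    intro f
    rw [hD2, m1]
    have hne : f ≠ ((-1, 0) : ℤ × ℤ) ↔ ¬ (f.1 = -1 ∧ f.2 = 0) := by
      rw [Ne, Prod.ext_iff]
    rw [hne]
    omega
  have m3 : ∀ f : ℤ × ℤ, f ∈ D3 ↔ (-(a : ℤ) ≤ f.1 ∧ f.1 < f.2 ∧ f.2 ≤ (b : ℤ) ∧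
      0 ≤ f.2 ∧ f.1 ≠ 0) ∧ ¬ (f.1 = -1 ∧ f.2 = 0) := by
    intro f
    rw [hD3, mem_Sec]
    have hne : f ≠ ((-1, 0) : ℤ × ℤ) ↔ ¬ (f.1 = -1 ∧ f.2 = 0) := by
      rw [Ne, Prod.ext_iff]
    rw [hne]
    tauto
  apply nM_map' φ
  · intro e he f hf hef
    rw [Finset.mem_coe, m2] at he hf
    have h1 : (φ e).1 = (φ f).1 := congrArg Prod.fst hef
    have h2 : (φ e).2 = (φ f).2 := congrArg Prod.snd hef
    change (if e.1 < 0 then e.1 + 1 else e.1) = (if f.1 < 0 then f.1 + 1 else f.1) at h1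
    change e.2 = f.2 at h2
    ext
    · split_ifs at h1 <;> omega
    · exact h2
  · intro e he f hf
    rw [m2] at he hf
    show Il e f ↔ Il ((if e.1 < 0 then e.1 + 1 else e.1), e.2) ((if f.1 < 0 then f.1 + 1 else f.1), f.2)
    unfold Il
    simp only
    split_ifs <;> omega
  · intro f
    rw [m3]
    constructor
    · intro hf
      refine ⟨(if f.1 < 0 then f.1 - 1 else f.1, f.2), ?_, ?_⟩
      · rw [m2]
        simp only
        split_ifs <;> omega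
      · show ((if (if f.1 < 0 then f.1 - 1 else f.1) < 0 then (if f.1 < 0 then f.1 - 1 else f.1) + 1
          else (if f.1 < 0 then f.1 - 1 else f.1)), f.2) = f
        ext
        · simp only
          split_ifs <;> omega
        · rfl
    · rintro ⟨e, he, rfl⟩
      rw [m2] at he
      show (-(a : ℤ) ≤ (if e.1 < 0 then e.1 + 1 else e.1) ∧
        (if e.1 < 0 then e.1 + 1 else e.1) < e.2 ∧ e.2 ≤ (b : ℤ) ∧
        0 ≤ e.2 ∧ (if e.1 < 0 then e.1 + 1 else e.1) ≠ 0) ∧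
        ¬ ((if e.1 < 0 then e.1 + 1 else e.1) = -1 ∧ e.2 = 0)
      split_ifs <;> omega

theorem Sec_one {b : ℕ} (hb : 1 ≤ b) : nM Il (Sec 1 b) = nC Il (Sec 1 b) (-1, 1) := by
  symm
  apply nC_of_iso
  · rw [mem_Sec]; refine ⟨?_, ?_, ?_, ?_, ?_⟩ <;> (try simp only) <;> omega
  · intro f hf
    rw [mem_Sec] at hf
    unfold Il
    simp only
    omega

end Pool.Agent.Work.MP_02cc39_co.Pin
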