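import Pool.Agent.Work.MP_02cc39_co.Pin.SecWith
import Pool.Agent.Work.MP_02cc39_co.Pin.SecWithout

set_option autoImplicit false

/-!
# The number of triangulations of a sector (size S)

PROOF. Induction on a: a = 1: `Sec_one`, `Sec_with` and ball 0 b = 0. Step: `Sec_without`, `Sec_with`, ball a b = ball (a-1) b + ball (a+1) (b-1) (a, b ≥ 1).
-/

namespace Pool.Agent.Work.MP_02cc39_co.Pin

open Classical

/-- the number of triangulations of a sector -/
def tt (a b : ℕ) : ℕ := ball (a - 1) b + ball 1 (b - 1)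

theorem Sec_eq {a b : ℕ} (ha : 1 ≤ a) (hb : 1 ≤ b) : nM Il (Sec a b) = tt a b := by
  obtain ⟨b, rfl⟩ : ∃ b', b = b' + 1 := ⟨b - 1, by omega⟩
  induction a with
  | zero => omega
  | succ a ih =>
    rcases Nat.eq_zero_or_pos a with rfl | h0
    · rw [Sec_one (by omega), Sec_with (by omega) (by omega)]
      simp [tt, ball]
    · rw [Sec_without h0 (by omega), Sec_with (by omega) (by omega), ih h0]
      obtain ⟨a, rfl⟩ : ∃ a', a = a' + 1 := ⟨a - 1, by omega⟩
      have h1 : ball (a + 1) (b + 1) = ball a (b + 1) + ball (a + 1 + 1) b := by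
        rw [ball]
      have h2 : tt (a + 1) (b + 1) = ball a (b + 1) + ball 1 b := rfl
      have h3 : tt (a + 1 + 1) (b + 1) = ball (a + 1) (b + 1) + ball 1 b := rfl
      have h4 : b + 1 - 1 = b := rfl
      rw [h2, h3, h1, h4]
      omega

end Pool.Agent.Work.MP_02cc39_co.Pin
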