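import Pool.Agent.Work.MP_02cc39_co.Pin.StripBase

set_option autoImplicit false

/-!
# The edges of one sector and their positions (size M)

PROOFS. `code_inj`: e = s(a,b), f = s(c,d) ∈ Ed with the same sector and the same code: case distinction on the arms of the labels (`fin_cases`), simp [sec, cod], then omega gives
equal indices (min and max of i, j determine {i, j}); equality of the vertices from equality of the labels (lab is injective, see MaxM.lean).
`code_image`: ⊆: e = s(a,b) ∈ Ed, sector t: the code is (-1-i, 0), (-1-i, 1+j) or (1+min, 1+max) with i < m t etc.: omega. ⊇: (x, y) ∈ Sec: y = 0: s(none, (t, -1-x)); x < 0 < y: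
s((t, -1-x), (t+1, y-1)); 0 < x: s((t+1, x-1), (t+1, y-1)).
`code_gE`: fin_cases t, rfl / simp.
-/

namespace Pool.Agent.Work.MP_02cc39_co.Pin

open Classical

variable {m : Fin 3 → ℕ}

private theorem lab_inj' : Function.Injective (lab : Pw m → Lb) := by
  intro a b h
  rcases a with _ | ⟨t, i⟩ <;> rcases b with _ | ⟨u, j⟩
  · rfl
  · simp [lab] at h
  · simp [lab] at h
  · simp only [lab, Option.some.injEq, Prod.mk.injEq] at h
    obtain ⟨h1, h2⟩ := h
    subst h1
    have : i = j := Fin.ext h2
    rw [this]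

private theorem k4 (t u v x : Fin 3) (i j k l : ℕ) (hab : ¬ (t = u ∧ i = j)) (hcd : ¬ (v = x ∧ k = l))
    (h1 : sec (some (t, i)) (some (u, j)) = sec (some (v, k)) (some (x, l)))
    (h2 : cod (some (t, i)) (some (u, j)) = cod (some (v, k)) (some (x, l))) :
    ((t = v ∧ i = k) ∧ (u = x ∧ j = l)) ∨ ((t = x ∧ i = l) ∧ (u = v ∧ j = k)) := by
  fin_cases t <;> fin_cases u <;> fin_cases v <;> fin_cases x <;>
    simp [sec, cod] at * <;> omega

private theorem k3 (u v x : Fin 3) (j k l : ℕ) 
    (h1 : sec none (some (u, j)) = sec (some (v, k)) (some (x, l)))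
    (h2 : cod none (some (u, j)) = cod (some (v, k)) (some (x, l))) : False := by
  fin_cases u <;> fin_cases v <;> fin_cases x <;>
    simp [sec, cod] at * <;> omega

private theorem k2 (u x : Fin 3) (j l : ℕ) 
    (h1 : sec none (some (u, j)) = sec none (some (x, l)))
    (h2 : cod none (some (u, j)) = cod none (some (x, l))) : u = x ∧ j = l := by
  simp only [sec, cod, Prod.mk.injEq] at *
  exact ⟨h1, by omega⟩

private theorem kk (a b c d : Lb) (hab : a ≠ b) (hcd : c ≠ d) (h1 : sec a b = sec c d) (h2 : cod a b = cod c d) :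
    (a = c ∧ b = d) ∨ (a = d ∧ b = c) := by
  have key : ∀ a b c d : Lb, a = none → a ≠ b → c ≠ d → sec a b = sec c d → cod a b = cod c d →
      (a = c ∧ b = d) ∨ (a = d ∧ b = c) := by
    intro a b c d ha hab hcd h1 h2
    subst ha
    rcases b with _ | ⟨u, j⟩
    · exact absurd rfl hab
    rcases c with _ | ⟨v, k⟩
    · rcases d with _ | ⟨x, l⟩
      · exact absurd rfl hcd
      obtain ⟨h3, h4⟩ := k2 u x j l h1 h2
      left
      exact ⟨rfl, by rw [h3, h4]⟩
    · rcases d with _ | ⟨x, l⟩
      · rw [sec_comm (some (v, k)) none] at h1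
        rw [cod_comm (some (v, k)) none] at h2
        obtain ⟨h3, h4⟩ := k2 u v j k h1 h2
        right
        exact ⟨rfl, by rw [h3, h4]⟩
      · exact (k3 u v x j k l h1 h2).elim
  rcases a with _ | ⟨t, i⟩
  · exact key none b c d rfl hab hcd h1 h2
  rcases b with _ | ⟨u, j⟩
  · have := key none (some (t, i)) c d rfl hab.symm hcd (by rw [← h1, sec_comm]) (by rw [← h2, cod_comm])
    tauto
  rcases c with _ | ⟨v, k⟩
  · have := key none d (some (t, i)) (some (u, j)) rfl hcd hab h1.symm h2.symm
    rcases this with ⟨h3, -⟩ | ⟨h3, -⟩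
    · exact absurd h3 (by simp)
    · exact absurd h3 (by simp)
  rcases d with _ | ⟨x, l⟩
  · have := key none (some (v, k)) (some (t, i)) (some (u, j)) rfl hcd.symm hab (by rw [h1, sec_comm])
      (by rw [h2, cod_comm])
    rcases this with ⟨h3, -⟩ | ⟨h3, -⟩
    · exact absurd h3 (by simp)
    · exact absurd h3 (by simp)
  have h5 := k4 t u v x i j k l (by simpa using hab) (by simpa using hcd) h1 h2
  rcases h5 with ⟨⟨h6, h7⟩, h8, h9⟩ | ⟨⟨h6, h7⟩, h8, h9⟩
  · left
    rw [h6, h7, h8, h9]
    exact ⟨rfl, rfl⟩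
  · right
    rw [h6, h7, h8, h9]
    exact ⟨rfl, rfl⟩

theorem code_inj {e f : Sym2 (Pw m)} (he : ¬ e.IsDiag) (hf : ¬ f.IsDiag) (h1 : secE e = secE f)
    (h2 : codE e = codE f) : e = f := by
  induction e using Sym2.ind with
  | _ a b =>
    induction f using Sym2.ind with
    | _ c d =>
      rw [Sym2.mk_isDiag_iff] at he hf
      have h3 := kk (lab a) (lab b) (lab c) (lab d) (fun h => he (lab_inj' h)) (fun h => hf (lab_inj' h)) h1 h2
      rw [Sym2.eq_iff]
      rcases h3 with ⟨h4, h5⟩ | ⟨h4, h5⟩
      · exact Or.inl ⟨lab_inj' h4, lab_inj' h5⟩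
      · exact Or.inr ⟨lab_inj' h4, lab_inj' h5⟩

theorem code_gE (hm : ∀ t, 0 < m t) (t : Fin 3) :
    ¬ (gE hm t).IsDiag ∧ secE (gE hm t) = t ∧ codE (gE hm t) = (-1, 1) := by
  refine ⟨?_, ?_, ?_⟩
  · unfold gE tip
    rw [Sym2.mk_isDiag_iff]
    intro h
    have h1 := congrArg lab h
    simp [lab] at h1
  · have : secE (gE hm t) = sec (some (t, 0)) (some (t + 1, 0)) := rfl
    rw [this]
    fin_cases t <;> simp [sec]
  · have : codE (gE hm t) = cod (some (t, 0)) (some (t + 1, 0)) := rfl
    rw [this]
    fin_cases t <;> simp [cod]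

private theorem im1 (t : Fin 3) (a b : Pw m) (hab : a ≠ b) (ht : sec (lab a) (lab b) = t) :
    cod (lab a) (lab b) ∈ Sec (m t) (m (t + 1)) := by
  have key : ∀ (u : Fin 3) (i : Fin (m u)), sec none (some (u, (i : ℕ))) = t →
      cod none (some (u, (i : ℕ))) ∈ Sec (m t) (m (t + 1)) := by
    intro u i h
    simp only [sec] at h
    subst h
    rw [mem_Sec]
    simp only [cod]
    have := i.2
    omega
  have hne : lab a ≠ lab b := fun h => hab (lab_inj' h)
  rcases a with _ | ⟨u, i⟩
  · rcases b with _ | ⟨v, j⟩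
    · exact absurd rfl hab
    exact key v j ht
  rcases b with _ | ⟨v, j⟩
  · have h1 := key u i (by rw [← ht]; exact sec_comm _ _)
    rw [cod_comm]
    exact h1
  simp only [lab] at ht hne ⊢
  have hi := i.2
  have hj := j.2
  rw [mem_Sec]
  by_cases h1 : v = u
  · subst h1
    have h2 : sec (some (v, (i : ℕ))) (some (v, (j : ℕ))) = v + 2 := by simp [sec]
    rw [h2] at ht
    have h3 : t + 1 = v := by
      rw [← ht]
      fin_cases v <;> rfl
    rw [h3]
    have h4 : (i : ℕ) ≠ (j : ℕ) := by
      intro h5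
      apply hne
      rw [h5]
    simp only [cod, if_true]
    omega
  · by_cases h2 : v = u + 1
    · subst h2
      have h3 : sec (some (u, (i : ℕ))) (some (u + 1, (j : ℕ))) = u := by
        simp [sec]
      rw [h3] at ht
      subst ht
      simp only [cod, if_neg h1, if_true]
      omega
    · have h3 : sec (some (u, (i : ℕ))) (some (v, (j : ℕ))) = v := by
        simp only [sec, if_neg h1, if_neg h2]
      rw [h3] at ht
      subst ht
      have h4 : u = v + 1 := by
        fin_cases u <;> fin_cases v <;> simp at h1 h2 ⊢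
      subst h4
      simp only [cod, if_neg h1, if_neg h2]
      omega

theorem code_image (t : Fin 3) :
    ((Ed m).filter fun e => secE e = t).image codE = Sec (m t) (m (t + 1)) := by
  ext ⟨x, y⟩
  constructor
  · intro h
    obtain ⟨e, he, h2⟩ := Finset.mem_image.1 h
    rw [Finset.mem_filter] at he
    obtain ⟨he1, he2⟩ := he
    unfold Ed at he1
    rw [Finset.mem_filter] at he1
    rw [← h2]
    induction e using Sym2.ind with
    | _ a b =>
      have h3 : a ≠ b := by
        have := he1.2
        rwa [Sym2.mk_isDiag_iff] at this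
      exact im1 t a b h3 he2
  · intro h
    rw [mem_Sec] at h
    simp only at h
    rw [Finset.mem_image]
    have hmem : ∀ a b : Pw m, a ≠ b → sec (lab a) (lab b) = t → cod (lab a) (lab b) = (x, y) →
        ∃ e ∈ (Ed m).filter fun e => secE e = t, codE e = (x, y) := by
      intro a b hab h1 h2
      refine ⟨s(a, b), ?_, h2⟩
      rw [Finset.mem_filter]
      refine ⟨?_, h1⟩
      unfold Ed
      rw [Finset.mem_filter]
      refine ⟨Finset.mem_univ _, ?_⟩
      rw [Sym2.mk_isDiag_iff]
      exact hab
    rcases lt_trichotomy y 0 with hy | hy | hy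
    · omega
    · -- spoke
      have hx : x < 0 := by omega
      have hb : (-1 - x).toNat < m t := by omega
      refine hmem none (some ⟨t, ⟨(-1 - x).toNat, hb⟩⟩) (by simp) rfl ?_
      simp only [lab, cod, Prod.mk.injEq]
      omega
    · by_cases hx : x < 0
      · have hb : (-1 - x).toNat < m t := by omega
        have hb2 : (y - 1).toNat < m (t + 1) := by omega
        have hne : (t + 1 : Fin 3) ≠ t := by fin_cases t <;> simp
        refine hmem (some ⟨t, ⟨(-1 - x).toNat, hb⟩⟩) (some ⟨t + 1, ⟨(y - 1).toNat, hb2⟩⟩) ?_ ?_ ?_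
        · intro h5
          have h6 := congrArg lab h5
          simp only [lab, Option.some.injEq, Prod.mk.injEq] at h6
          exact hne h6.1.symm
        · simp only [lab, sec, if_neg hne, if_true]
        · simp only [lab, cod, if_neg hne, if_true, Prod.mk.injEq]
          omega
      · have hb : (x - 1).toNat < m (t + 1) := by omega
        have hb2 : (y - 1).toNat < m (t + 1) := by omega
        refine hmem (some ⟨t + 1, ⟨(x - 1).toNat, hb⟩⟩) (some ⟨t + 1, ⟨(y - 1).toNat, hb2⟩⟩) ?_ ?_ ?_
        · intro h5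
          have h6 := congrArg lab h5
          simp only [lab, Option.some.injEq, Prod.mk.injEq] at h6
          omega
        · simp only [lab, sec, if_true]
          fin_cases t <;> rfl
        · simp only [lab, cod, if_true, Prod.mk.injEq]
          omega

end Pool.Agent.Work.MP_02cc39_co.Pin
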