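import Pool.Agent.Work.MP_02cc39_co.Pin.Upper
import Pool.Agent.Work.MP_02cc39_co.Pin.SplitS
import Pool.Agent.Work.MP_02cc39_co.Pin.MisMap
import Pool.Agent.Work.MP_02cc39_co.Pin.MisProd
import Pool.Agent.Work.MP_02cc39_co.Pin.Sector

set_option autoImplicit false

/-!
# The two numbers for the pinwheel (size S-M)

PROOFS. `nM_sec`, `nC_sec`: `nM_map`, `nC_map` with φ = codE (`code_inj`, `code_image`, `code_gE`); inside the sector XE e f ↔ Il (codE e) (codE f).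
`cnt0`: `cnt_empty`, `nM_three` with c = secE, `nM_sec`, `Sec_eq`; (2 : Fin 3) + 1 = 0. `cnt1`: `cnt_w`, `nC_three`, `nC_sec`, `nM_sec`, `Sec_with`, `Sec_eq`, Fin.sum_univ_three.
-/

namespace Pool.Agent.Work.MP_02cc39_co.Pin

open Classical Pool.Agent.Work.MP_02cc39_co.PT

variable {m : Fin 3 → ℕ}

private theorem mem_sec {t : Fin 3} {e : Sym2 (Pw m)}
    (he : e ∈ ((Ed m).filter fun e => secE e = t : Finset (Sym2 (Pw m)))) :
    ¬ e.IsDiag ∧ secE e = t := by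
  obtain ⟨h1, h2⟩ := Finset.mem_filter.1 he
  exact ⟨(Finset.mem_filter.1 h1).2, h2⟩

private theorem inj_sec (t : Fin 3) :
    Set.InjOn (codE (m := m)) (((Ed m).filter fun e => secE e = t : Finset (Sym2 (Pw m))) :
      Set (Sym2 (Pw m))) := by
  intro e he f hf h
  obtain ⟨h1, h2⟩ := mem_sec (Finset.mem_coe.1 he)
  obtain ⟨h3, h4⟩ := mem_sec (Finset.mem_coe.1 hf)
  exact code_inj h1 h3 (h2.trans h4.symm) h

private theorem iff_sec (t : Fin 3) :
    ∀ e ∈ ((Ed m).filter fun e => secE e = t : Finset (Sym2 (Pw m))),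
      ∀ f ∈ ((Ed m).filter fun e => secE e = t : Finset (Sym2 (Pw m))),
        (XE e f ↔ Il (codE e) (codE f)) := by
  intro e he f hf
  have h2 := (mem_sec he).2
  have h4 := (mem_sec hf).2
  exact ⟨fun h => h.2, fun h => ⟨h2.trans h4.symm, h⟩⟩

private theorem img (t : Fin 3) (inst : DecidableEq (ℤ × ℤ)) :
    @Finset.image _ _ inst codE ((Ed m).filter fun e => secE e = t) = Sec (m t) (m (t + 1)) := by
  have h : inst = (fun a b => instDecidableEqProd a b) := Subsingleton.elim _ _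
  rw [h]
  exact code_image t

theorem nM_sec (t : Fin 3) :
    nM XE ((Ed m).filter fun e => secE e = t) = nM Il (Sec (m t) (m (t + 1))) := by
  rw [nM_map (Y := Il) codE (inj_sec t) (iff_sec t), img]

private theorem gE_mem (hm : ∀ t, 0 < m t) (t : Fin 3) :
    gE hm t ∈ ((Ed m).filter fun e => secE e = t : Finset (Sym2 (Pw m))) := by
  obtain ⟨h1, h2, -⟩ := code_gE hm t
  refine Finset.mem_filter.2 ⟨Finset.mem_filter.2 ⟨Finset.mem_univ _, h1⟩, h2⟩

theorem nC_sec (hm : ∀ t, 0 < m t) (t : Fin 3) :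
    nC XE ((Ed m).filter fun e => secE e = t) (gE hm t) = nC Il (Sec (m t) (m (t + 1))) (-1, 1) := by
  rw [nC_map (Y := Il) codE (inj_sec t) (iff_sec t) (gE_mem hm t), img, (code_gE hm t).2.2]

theorem cnt0 (hm : ∀ t, 0 < m t) :
    cnt (oP m) ∅ = tt (m 0) (m 1) * tt (m 1) (m 2) * tt (m 2) (m 0) := by
  rw [cnt_empty, nM_three (c := secE) (fun e _ f _ h => h.1), nM_sec, nM_sec, nM_sec,
    Sec_eq (hm _) (hm _), Sec_eq (hm _) (hm _), Sec_eq (hm _) (hm _)]
  rfl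

theorem cnt1 (hm : ∀ t, 0 < m t) :
    cnt (oP m) {none} = ball (m 0) (m 1 - 1) * tt (m 1) (m 2) * tt (m 2) (m 0) +
      ball (m 1) (m 2 - 1) * tt (m 2) (m 0) * tt (m 0) (m 1) +
      ball (m 2) (m 0 - 1) * tt (m 0) (m 1) * tt (m 1) (m 2) := by
  have h : ∀ t : Fin 3, nC XE (Ed m) (gE hm t) = ball (m t) (m (t + 1) - 1) *
      tt (m (t + 1)) (m (t + 1 + 1)) * tt (m (t + 2)) (m (t + 2 + 1)) := by
    intro t
    rw [nC_three (c := secE) (fun e _ f _ h => h.1) (Finset.mem_filter.1 (gE_mem hm t)).1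
      (code_gE hm t).2.1, nM_sec, nM_sec, nC_sec, Sec_with (hm _) (hm _),
      Sec_eq (hm _) (hm _), Sec_eq (hm _) (hm _)]
  rw [cnt_w hm, Fin.sum_univ_three, h, h, h]
  rfl

end Pool.Agent.Work.MP_02cc39_co.Pin
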