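import Pool.Agent.Work.MP_02cc39_co.Pin.Defs

set_option autoImplicit false

/-!
# Crossing of segments in terms of sectors and positions (finite case distinction)
-/

namespace Pool.Agent.Work.MP_02cc39_co.Pin

open Classical Pool.Agent.Work.MP_02cc39_co.PT

private theorem c4 (t u v x : Fin 3) (i j k l : ℕ) (hab : ¬ (t = u ∧ i = j)) (hac : ¬ (t = v ∧ i = k))
    (had : ¬ (t = x ∧ i = l)) (hbc : ¬ (u = v ∧ j = k)) (hbd : ¬ (u = x ∧ j = l)) (hcd : ¬ (v = x ∧ k = l)) :
    Cross og (some (t, i)) (some (u, j)) (some (v, k)) (some (x, l)) ↔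
      (sec (some (t, i)) (some (u, j)) = sec (some (v, k)) (some (x, l)) ∧
        Il (cod (some (t, i)) (some (u, j))) (cod (some (v, k)) (some (x, l)))) := by
  fin_cases t <;> fin_cases u <;> fin_cases v <;> fin_cases x <;>
    simp [Cross, og, sec, cod, Il] at * <;> omega

private theorem c3a (u v x : Fin 3) (j k l : ℕ)
    (hbc : ¬ (u = v ∧ j = k)) (hbd : ¬ (u = x ∧ j = l)) (hcd : ¬ (v = x ∧ k = l)) :
    Cross og none (some (u, j)) (some (v, k)) (some (x, l)) ↔
      (sec none (some (u, j)) = sec (some (v, k)) (some (x, l)) ∧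
        Il (cod none (some (u, j))) (cod (some (v, k)) (some (x, l)))) := by
  fin_cases u <;> fin_cases v <;> fin_cases x <;>
    simp [Cross, og, sec, cod, Il] at * <;> omega

private theorem c3b (u v x : Fin 3) (j k l : ℕ)
    (hbc : ¬ (u = v ∧ j = k)) (hbd : ¬ (u = x ∧ j = l)) (hcd : ¬ (v = x ∧ k = l)) :
    Cross og (some (u, j)) none (some (v, k)) (some (x, l)) ↔
      (sec (some (u, j)) none = sec (some (v, k)) (some (x, l)) ∧
        Il (cod (some (u, j)) none) (cod (some (v, k)) (some (x, l)))) := by
  fin_cases u <;> fin_cases v <;> fin_cases x <;>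
    simp [Cross, og, sec, cod, Il] at * <;> omega

/-- two segments without a common end cross iff they are in the same sector and their positions interlace -/
theorem cross_code (a b c d : Lb) (hab : a ≠ b) (hac : a ≠ c) (had : a ≠ d) (hbc : b ≠ c) (hbd : b ≠ d)
    (hcd : c ≠ d) : Cross og a b c d ↔ (sec a b = sec c d ∧ Il (cod a b) (cod c d)) := by
  have sy : ∀ e f : ℤ × ℤ, Il e f ↔ Il f e := fun e f => by unfold Il; omega
  rcases a with _ | ⟨t, i⟩
  · rcases b with _ | ⟨u, j⟩
    · exact absurd rfl hab
    rcases c with _ | ⟨v, k⟩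
    · exact absurd rfl hac
    rcases d with _ | ⟨x, l⟩
    · exact absurd rfl had
    exact c3a u v x j k l (by simpa using hbc) (by simpa using hbd) (by simpa using hcd)
  rcases b with _ | ⟨u, j⟩
  · rcases c with _ | ⟨v, k⟩
    · exact absurd rfl hbc
    rcases d with _ | ⟨x, l⟩
    · exact absurd rfl hbd
    exact c3b t v x i k l (by simpa using hac) (by simpa using had) (by simpa using hcd)
  have hcom : ∀ a b c d : Lb, Cross og a b c d ↔ Cross og c d a b := fun a b c d => by
    unfold Cross
    exact and_comm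
  rcases c with _ | ⟨v, k⟩
  · rcases d with _ | ⟨x, l⟩
    · exact absurd rfl hcd
    rw [hcom, sy, eq_comm]
    exact c3a x t u l i j (by simpa [eq_comm] using had) (by simpa [eq_comm] using hbd) (by simpa using hab)
  rcases d with _ | ⟨x, l⟩
  · rw [hcom, sy, eq_comm]
    exact c3b v t u k i j (by simpa [eq_comm] using hac) (by simpa [eq_comm] using hbc) (by simpa using hab)
  exact c4 t u v x i j k l (by simpa using hab) (by simpa using hac) (by simpa using had) (by simpa using hbc)
    (by simpa using hbd) (by simpa using hcd)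

end Pool.Agent.Work.MP_02cc39_co.Pin
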