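import Pool.Agent.Work.MP_02cc39_co.PT.Defs

set_option autoImplicit false

/-!
# The unbalanced pinwheel: definitions (fixed file, do not change)

HAND-IN B of MP_02cc39: disproof of the monotonicity conjecture of Aichholzer, Orden, Santos, Speckmann.

`w` is the centre, the three arms `t : Fin 3` have the points `(t, i)`, `i = 0, ..., m t - 1`; `i = 0` is the tip (next to `w`),
the last one is a vertex of the convex hull. The arm `t + 1` is the next arm counterclockwise.
Every segment belongs to exactly one *sector* `t`: the segments `w (t,i)`, `(t,i) (t+1,j)` and `(t+1,i) (t+1,j)`; in the sector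
the point `(t,i)` gets the position `-1-i`, `w` the position `0`, `(t+1,j)` the position `1+j`; two segments cross iff they are in
the same sector and their positions interlace.
-/

namespace Pool.Agent.Work.MP_02cc39_co.Pin

open Classical

/-! ### maximal independent sets -/

/-- `E` is a maximal subset of `D` without `X`-related elements (X means: crosses) -/
structure IsM {α : Type*} (X : α → α → Prop) (D E : Finset α) : Prop where
  sub : E ⊆ D
  ind : ∀ e ∈ E, ∀ f ∈ E, ¬ X e f
  mx : ∀ e ∈ D, e ∉ E → ∃ f ∈ E, X e f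

/-- all of them -/
noncomputable def MS {α : Type*} (X : α → α → Prop) (D : Finset α) : Finset (Finset α) :=
  D.powerset.filter fun E => IsM X D E

/-- their number -/
noncomputable def nM {α : Type*} (X : α → α → Prop) (D : Finset α) : ℕ := (MS X D).card

/-- the number of those which contain `e` -/
noncomputable def nC {α : Type*} (X : α → α → Prop) (D : Finset α) (e : α) : ℕ :=
  ((MS X D).filter fun E => e ∈ E).card

/-! ### interlacing pairs of integers -/

/-- the pairs `e.1 < e.2` and `f.1 < f.2` interlace -/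
def Il (e f : ℤ × ℤ) : Prop :=
  (e.1 < f.1 ∧ f.1 < e.2 ∧ e.2 < f.2) ∨ (f.1 < e.1 ∧ e.1 < f.2 ∧ f.2 < e.2)

/-- the pairs `l ≤ x < y < r` with `d ≤ y` -/
noncomputable def St (l d r : ℤ) : Finset (ℤ × ℤ) :=
  ((Finset.Ico l r) ×ˢ (Finset.Ico l r)).filter fun e => e.1 < e.2 ∧ d ≤ e.2

/-- the segments of a sector with `a` points on the first arm and `b` points on the next arm, in terms of positions:
`-a ≤ x < y ≤ b`, `0 ≤ y`, `x ≠ 0` -/
noncomputable def Sec (a b : ℕ) : Finset (ℤ × ℤ) :=
  ((Finset.Icc (-(a : ℤ)) (b : ℤ)) ×ˢ (Finset.Icc (-(a : ℤ)) (b : ℤ))).filter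
    fun e => e.1 < e.2 ∧ 0 ≤ e.2 ∧ e.1 ≠ 0

/-- ballot numbers: `ball p k` is the coefficient of `x^k` in the `p`-th power of the Catalan series -/
def ball : ℕ → ℕ → ℕ
  | _, 0 => 1
  | 0, _ + 1 => 0
  | p + 1, k + 1 => ball p (k + 1) + ball (p + 2) k
termination_by p k => (k, p)

/-! ### labels, orientations, sectors, positions -/

/-- labels of points: `none` is the centre `w`, `some (t, i)` the point number `i` of the arm `t` (`i = 0` is the tip) -/
abbrev Lb := Option (Fin 3 × ℕ)

/-- counterclockwise triples of labels -/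
def og : Lb → Lb → Lb → Prop
  | none, some (t, i), some (u, j) => (u = t ∧ i < j) ∨ u = t + 1
  | some (t, i), some (u, j), none => (u = t ∧ i < j) ∨ u = t + 1
  | some (u, j), none, some (t, i) => (u = t ∧ i < j) ∨ u = t + 1
  | some (t, i), some (u, j), some (v, k) =>
      (t = u ∧ u = v ∧ ((k < j ∧ j < i) ∨ (j < i ∧ i < k) ∨ (i < k ∧ k < j))) ∨
      (t = u ∧ v = t + 1 ∧ i < j) ∨ (t = u ∧ v = t + 2 ∧ j < i) ∨
      (u = v ∧ t = u + 1 ∧ j < k) ∨ (u = v ∧ t = u + 2 ∧ k < j) ∨
      (v = t ∧ u = v + 1 ∧ k < i) ∨ (v = t ∧ u = v + 2 ∧ i < k) ∨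
      (u = t + 1 ∧ v = t + 2)
  | _, _, _ => False

/-- the sector of a segment -/
def sec : Lb → Lb → Fin 3
  | none, some (t, _) => t
  | some (t, _), none => t
  | some (t, _), some (u, _) => if u = t then t + 2 else if u = t + 1 then t else u
  | none, none => 0

/-- the two positions of a segment, the smaller one first -/
def cod : Lb → Lb → ℤ × ℤ
  | none, some (_, i) => (-1 - (i : ℤ), 0)
  | some (_, i), none => (-1 - (i : ℤ), 0)
  | some (t, i), some (u, j) =>
      if u = t then (1 + ((min i j : ℕ) : ℤ), 1 + ((max i j : ℕ) : ℤ))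
      else if u = t + 1 then (-1 - (i : ℤ), 1 + (j : ℤ)) else (-1 - (j : ℤ), 1 + (i : ℤ))
  | none, none => (0, 0)

/-! ### the index type of the pinwheel -/

/-- the vertices: `none` is `w`, `some ⟨t, i⟩` the point `i` of the arm `t` -/
abbrev Pw (m : Fin 3 → ℕ) := Option (Σ t : Fin 3, Fin (m t))

/-- the label of a vertex -/
def lab {m : Fin 3 → ℕ} : Pw m → Lb
  | none => none
  | some s => some (s.1, (s.2 : ℕ))

theorem sec_comm (a b : Lb) : sec a b = sec b a := by
  rcases a with _ | ⟨t, i⟩ <;> rcases b with _ | ⟨u, j⟩ <;> try rfl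
  fin_cases t <;> fin_cases u <;> simp [sec]

theorem cod_comm (a b : Lb) : cod a b = cod b a := by
  rcases a with _ | ⟨t, i⟩ <;> rcases b with _ | ⟨u, j⟩ <;> try rfl
  fin_cases t <;> fin_cases u <;> simp [cod, min_comm i j, max_comm i j]

/-- the sector of an edge -/
def secE {m : Fin 3 → ℕ} : Sym2 (Pw m) → Fin 3 :=
  Sym2.lift ⟨fun a b => sec (lab a) (lab b), fun a b => sec_comm (lab a) (lab b)⟩

/-- the positions of an edge -/
def codE {m : Fin 3 → ℕ} : Sym2 (Pw m) → ℤ × ℤ :=
  Sym2.lift ⟨fun a b => cod (lab a) (lab b), fun a b => cod_comm (lab a) (lab b)⟩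

/-- crossing of two edges, in terms of sectors and positions -/
def XE {m : Fin 3 → ℕ} (e f : Sym2 (Pw m)) : Prop := secE e = secE f ∧ Il (codE e) (codE f)

/-- all edges -/
noncomputable def Ed (m : Fin 3 → ℕ) : Finset (Sym2 (Pw m)) := Finset.univ.filter fun e => ¬ e.IsDiag

/-- the tip of the arm `t` -/
def tip {m : Fin 3 → ℕ} (hm : ∀ t, 0 < m t) (t : Fin 3) : Pw m := some ⟨t, ⟨0, hm t⟩⟩

/-- the edge between the tips of the arms `t` and `t + 1` -/
def gE {m : Fin 3 → ℕ} (hm : ∀ t, 0 < m t) (t : Fin 3) : Sym2 (Pw m) := s(tip hm t, tip hm (t + 1))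

/-- the orientation predicate of the pinwheel -/
def oP (m : Fin 3 → ℕ) : Pw m → Pw m → Pw m → Prop := fun a b c => og (lab a) (lab b) (lab c)

/-! ### the points -/

/-- the map `(x, y) ↦ (-y, x - y)` of order three -/
def rot (p : ℝ × ℝ) : ℝ × ℝ := (-p.2, p.1 - p.2)

/-- the points of the arm `0` -/
def par (M Y : ℝ) : ℝ × ℝ := (M + Y ^ 2, M * Y)

/-- the points -/
noncomputable def pt (M : ℝ) : Lb → ℝ × ℝ
  | none => (0, 0)
  | some (t, i) => rot^[t.val] (par M ((i : ℝ) + 3))

end Pool.Agent.Work.MP_02cc39_co.Pin
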