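import Pool.Agent.Work.MP_02cc39_co.Pin.Main

set_option autoImplicit false

/-!
# The monotonicity conjecture fails (assembly)
-/

namespace Pool.Agent.Work.MP_02cc39_co.Pin

open Classical Pool.Agent.Work.MP_02cc39_co Pool.Agent.Work.MP_02cc39_co.PT

theorem mono_fails_86 : ∃ S : Finset (ℝ × ℝ), GenPos S ∧ S.card = 86 ∧ ∃ w ∈ S,
    w ∈ interior (convexHull ℝ (S : Set (ℝ × ℝ))) ∧ (PTV S {w}).ncard < (PTV S ∅).ncard := by
  obtain ⟨S, h1, h2, h3, h4, h5, h6⟩ := pinwheel 60 19 6 (by norm_num) (by norm_num) (by norm_num)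
  refine ⟨S, h1, by rw [h2], 0, h3, h4, ?_⟩
  rw [h5, h6]
  have := small
  norm_num at this ⊢
  exact this

theorem mono_half (ε : ℝ) (hε : 0 < ε) : ∃ S : Finset (ℝ × ℝ), GenPos S ∧ ∃ w ∈ S,
    w ∈ interior (convexHull ℝ (S : Set (ℝ × ℝ))) ∧
      ((PTV S {w}).ncard : ℝ) < (1 / 2 + ε) * ((PTV S ∅).ncard : ℝ) := by
  obtain ⟨N, hN⟩ := exists_nat_gt (max 2 (5 / ε))
  have hN2 : (2 : ℝ) < N := lt_of_le_of_lt (le_max_left _ _) hN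
  have hNe : 5 / ε < N := lt_of_le_of_lt (le_max_right _ _) hN
  have hN' : 2 ≤ N := by
    have : (2 : ℝ) < (N : ℝ) := hN2
    have h2 : 2 < N := by exact_mod_cast this
    omega
  obtain ⟨S, h1, -, h3, h4, h5, h6⟩ := pinwheel (N ^ 3 + N + 1) (N ^ 2 + 1) N (by omega) (by omega) (by omega)
  refine ⟨S, h1, 0, h3, h4, ?_⟩
  have hb := big N hN' (N ^ 3 + N + 1) (N ^ 2 + 1) N rfl rfl rfl
  have hpos : 0 < (((PTV S ∅).ncard : ℕ) : ℝ) := by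
    rw [h5]
    have ha := tt_pos (N ^ 3 + N + 1) (N ^ 2 + 1)
    have hb := tt_pos (N ^ 2 + 1) N
    have hc := tt_pos N (N ^ 3 + N + 1)
    have : 0 < tt (N ^ 3 + N + 1) (N ^ 2 + 1) * tt (N ^ 2 + 1) N * tt N (N ^ 3 + N + 1) := by positivity
    exact_mod_cast this
  have hle : (((PTV S {(0 : ℝ × ℝ)}).ncard : ℕ) : ℝ) ≤
      (1 / 2 + 1 / (2 * ((N : ℝ) - 1)) + 2 / (N : ℝ)) * (((PTV S ∅).ncard : ℕ) : ℝ) := by
    rw [h5, h6]
    exact hb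
  have hlt : (1 / 2 + 1 / (2 * ((N : ℝ) - 1)) + 2 / (N : ℝ)) < 1 / 2 + ε := by
    have hNpos : (0 : ℝ) < N := by linarith
    have h7 : 1 / (2 * ((N : ℝ) - 1)) ≤ 1 / (N : ℝ) := by
      apply one_div_le_one_div_of_le hNpos
      linarith
    have h8 : 3 / (N : ℝ) < ε := by
      rw [div_lt_iff₀ hNpos]
      rw [div_lt_iff₀ hε] at hNe
      nlinarith
    have h9 : 1 / (N : ℝ) + 2 / (N : ℝ) = 3 / (N : ℝ) := by ring
    linarith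
  calc (((PTV S {(0 : ℝ × ℝ)}).ncard : ℕ) : ℝ)
      ≤ (1 / 2 + 1 / (2 * ((N : ℝ) - 1)) + 2 / (N : ℝ)) * (((PTV S ∅).ncard : ℕ) : ℝ) := hle
    _ < (1 / 2 + ε) * (((PTV S ∅).ncard : ℕ) : ℝ) := mul_lt_mul_of_pos_right hlt hpos

end Pool.Agent.Work.MP_02cc39_co.Pin
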