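import Pool.Agent.Work.MP_02cc39_co.Pin.Defs

set_option autoImplicit false

/-!
# The centre is an interior point (size M)

PROOF. p := par M 3 = (M+9, 3M), q := rot p, r := rot (rot p), p + q + r = 0. Show that 0 is in the interior of convexHull {p, q, r} ⊆ convexHull S (`interior_mono`, `convexHull_mono`).
For z with small coordinates z = α p + β q + γ r with α + β + γ = 1: α = 1/3 + det-expressions; all positive if |z| is small: with D := dt 0 p q = dt 0 q r = dt 0 r p > 0:
 α = dt z q r / (3 D) etc. (dt z q r + dt z r p + dt z p q = 3 D, and z (3D) = dt z q r p + dt z r p q + dt z p q r: ring identities). The three functions z ↦ dt z q r are continuous and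
 positive at 0, so {z | all three > 0} is an open set containing 0 and contained in the convex hull (`mem_interior`, convexity: combination of three points, e.g. `convexHull_insert` or
 `Convex.sum_mem`/ two times `Convex` definition).
-/

namespace Pool.Agent.Work.MP_02cc39_co.Pin

theorem centre_interior {M : ℝ} (hM : 0 < M) {S : Set (ℝ × ℝ)} (h0 : par M 3 ∈ S) (h1 : rot (par M 3) ∈ S)
    (h2 : rot (rot (par M 3)) ∈ S) : (0 : ℝ × ℝ) ∈ interior (convexHull ℝ S) := by
  have hD : (0 : ℝ) < 7 * M ^ 2 - 9 * M + 81 := by nlinarith [sq_nonneg (M - 1)]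
  have hc := convex_convexHull ℝ S
  have m0 : par M 3 ∈ convexHull ℝ S := subset_convexHull ℝ S h0
  have m1 : rot (par M 3) ∈ convexHull ℝ S := subset_convexHull ℝ S h1
  have m2 : rot (rot (par M 3)) ∈ convexHull ℝ S := subset_convexHull ℝ S h2
  rw [mem_interior]
  let fa : ℝ × ℝ → ℝ := fun z =>
    (-(3 * M) - z.1) * (-M - 9 - z.2) - (9 - 2 * M - z.2) * (2 * M - 9 - z.1)
  let fb : ℝ × ℝ → ℝ := fun z =>
    (2 * M - 9 - z.1) * (3 * M - z.2) - (-M - 9 - z.2) * (M + 9 - z.1)
  let fc : ℝ × ℝ → ℝ := fun z =>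
    (M + 9 - z.1) * (9 - 2 * M - z.2) - (3 * M - z.2) * (-(3 * M) - z.1)
  have ca : Continuous fa := by fun_prop
  have cb : Continuous fb := by fun_prop
  have cc : Continuous fc := by fun_prop
  refine ⟨{z | 0 < fa z} ∩ ({z | 0 < fb z} ∩ {z | 0 < fc z}), ?_, ?_, ?_⟩
  · rintro z ⟨ha, hb, hc'⟩
    have ha : 0 < fa z := ha
    have hb : 0 < fb z := hb
    have hc' : 0 < fc z := hc'
    have hsum : fa z + fb z + fc z = 3 * (7 * M ^ 2 - 9 * M + 81) := by
      simp only [fa, fb, fc]
      ring
    have h3D : (0 : ℝ) < 3 * (7 * M ^ 2 - 9 * M + 81) := by linarith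
    have key := hc.sum_mem (t := Finset.univ)
      (w := ![fa z / (3 * (7 * M ^ 2 - 9 * M + 81)), fb z / (3 * (7 * M ^ 2 - 9 * M + 81)),
        fc z / (3 * (7 * M ^ 2 - 9 * M + 81))])
      (z := ![par M 3, rot (par M 3), rot (rot (par M 3))])
      (by
        intro i _
        fin_cases i
        · exact le_of_lt (div_pos ha h3D)
        · exact le_of_lt (div_pos hb h3D)
        · exact le_of_lt (div_pos hc' h3D))
      (by
        rw [Fin.sum_univ_three]
        show fa z / (3 * (7 * M ^ 2 - 9 * M + 81)) + fb z / (3 * (7 * M ^ 2 - 9 * M + 81)) +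
          fc z / (3 * (7 * M ^ 2 - 9 * M + 81)) = 1
        rw [← add_div, ← add_div, hsum, div_self (ne_of_gt h3D)])
      (by
        intro i _
        fin_cases i
        · exact m0
        · exact m1
        · exact m2)
    rw [Fin.sum_univ_three] at key
    have hne : (7 * M ^ 2 - 9 * M + 81) ≠ 0 := ne_of_gt hD
    have heq : z = (fa z / (3 * (7 * M ^ 2 - 9 * M + 81))) • par M 3 +
        (fb z / (3 * (7 * M ^ 2 - 9 * M + 81))) • rot (par M 3) +
        (fc z / (3 * (7 * M ^ 2 - 9 * M + 81))) • rot (rot (par M 3)) := by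
      have h3ne : 3 * (7 * M ^ 2 - 9 * M + 81) ≠ 0 := ne_of_gt h3D
      ext
      · have e1 : z.1 * (3 * (7 * M ^ 2 - 9 * M + 81)) = fa z * (M + 3 ^ 2) + fb z * (-(M * 3)) +
            fc z * (-(M + 3 ^ 2 - M * 3)) := by
          simp only [fa, fb, fc]
          ring
        simp only [par, rot, Prod.fst_add, Prod.smul_fst, smul_eq_mul]
        rw [div_mul_eq_mul_div, div_mul_eq_mul_div, div_mul_eq_mul_div, ← add_div, ← add_div,
          ← e1, mul_div_assoc, div_self h3ne, mul_one]
      · have e2 : z.2 * (3 * (7 * M ^ 2 - 9 * M + 81)) = fa z * (M * 3) +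
            fb z * (M + 3 ^ 2 - M * 3) + fc z * (-(M * 3) - (M + 3 ^ 2 - M * 3)) := by
          simp only [fa, fb, fc]
          ring
        simp only [par, rot, Prod.snd_add, Prod.smul_snd, smul_eq_mul]
        rw [div_mul_eq_mul_div, div_mul_eq_mul_div, div_mul_eq_mul_div, ← add_div, ← add_div,
          ← e2, mul_div_assoc, div_self h3ne, mul_one]
    rw [heq]
    exact key
  · exact (isOpen_lt continuous_const ca).inter
      ((isOpen_lt continuous_const cb).inter (isOpen_lt continuous_const cc))
  · refine ⟨?_, ?_, ?_⟩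
    · show 0 < fa (0, 0)
      simp only [fa]
      nlinarith
    · show 0 < fb (0, 0)
      simp only [fb]
      nlinarith
    · show 0 < fc (0, 0)
      simp only [fc]
      nlinarith

end Pool.Agent.Work.MP_02cc39_co.Pin
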