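import Pool.Agent.Work.MP_02cc39_co.Pin.Ballot

set_option autoImplicit false

/-!
# The final inequalities (size S-M)

ρ(a,b) = ball a (b-1) / tt a b ≤ a b / ((a-1)(a+2b-2)) (`rho`).
PROOFS. `small`: (60,19,6): ρ(60,19) ≤ 1140/5664, ρ(19,6) ≤ 114/522, and for (6,60): tt 6 60 = ball 5 60 + ball 1 59, 360 ball 5 60 = 620 ball 6 59 (`ball_next`), 192 ball 1 59 ≥ ball 6 59 (`six`):
 tt 6 60 ≥ (620/360 + 1/192) ball 6 59, ρ(6,60) ≤ 1/(31/18 + 1/192) = 0.5789; the sum is 0.99855 < 1. Multiply by the product of the three tt (all positive; work in ℚ or ℝ).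
`big`: m = ![N^3+N+1, N^2+1, N] (a, b, c), N ≥ 2: ρ(a,b) ≤ b/(a-1) = 1/N (a ≤ a+2b-2), ρ(b,c) ≤ c/(b-1) = 1/N, ρ(c,a) ≤ c/(2(c-1)) (c+2a-2 ≥ 2a) = 1/2 + 1/(2(N-1)).
-/

namespace Pool.Agent.Work.MP_02cc39_co.Pin

theorem small :
    ball 60 18 * tt 19 6 * tt 6 60 + ball 19 5 * tt 6 60 * tt 60 19 + ball 6 59 * tt 60 19 * tt 19 6 <
      tt 60 19 * tt 19 6 * tt 6 60 := by
  have h1 : 5664 * ball 60 18 ≤ 1140 * tt 60 19 := rho 60 19 (by norm_num) (by norm_num)
  have h2 : 522 * ball 19 5 ≤ 114 * tt 19 6 := rho 19 6 (by norm_num) (by norm_num)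
  have h3 : 360 * ball 5 60 = 620 * ball 6 59 := ball_next 6 60 (by norm_num) (by norm_num)
  have h4 : ball 6 59 ≤ 192 * ball 1 59 := six 59
  have h5 : tt 6 60 = ball 5 60 + ball 1 59 := rfl
  have h6 : 995 * ball 6 59 ≤ 576 * tt 6 60 := by
    rw [h5]
    omega
  have hA := tt_pos 60 19
  have hB := tt_pos 19 6
  have hC := tt_pos 6 60
  generalize ball 60 18 = x at *
  generalize ball 19 5 = y at *
  generalize ball 6 59 = z at *
  generalize tt 60 19 = A at *
  generalize tt 19 6 = B at *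
  generalize tt 6 60 = C at *
  have g1 : (x : ℚ) ≤ 1140 / 5664 * A := by
    have : (5664 : ℚ) * x ≤ 1140 * A := by exact_mod_cast h1
    linarith
  have g2 : (y : ℚ) ≤ 114 / 522 * B := by
    have : (522 : ℚ) * y ≤ 114 * B := by exact_mod_cast h2
    linarith
  have g3 : (z : ℚ) ≤ 576 / 995 * C := by
    have : (995 : ℚ) * z ≤ 576 * C := by exact_mod_cast h6
    linarith
  have kA : (0 : ℚ) < A := by exact_mod_cast hA
  have kB : (0 : ℚ) < B := by exact_mod_cast hB
  have kC : (0 : ℚ) < C := by exact_mod_cast hC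
  have e1 : (x : ℚ) * B * C ≤ 1140 / 5664 * (A * B * C) := by
    have := mul_le_mul_of_nonneg_right g1 (mul_pos kB kC).le
    linarith
  have e2 : (y : ℚ) * C * A ≤ 114 / 522 * (A * B * C) := by
    have := mul_le_mul_of_nonneg_right g2 (mul_pos kC kA).le
    linarith
  have e3 : (z : ℚ) * A * B ≤ 576 / 995 * (A * B * C) := by
    have := mul_le_mul_of_nonneg_right g3 (mul_pos kA kB).le
    linarith
  have e4 : (0 : ℚ) < A * B * C := mul_pos (mul_pos kA kB) kC
  have : (x : ℚ) * B * C + y * C * A + z * A * B < A * B * C := by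
    linarith
  exact_mod_cast this

theorem big (N : ℕ) (hN : 2 ≤ N) (a b c : ℕ) (ha : a = N ^ 3 + N + 1) (hb : b = N ^ 2 + 1) (hc : c = N) :
    ((ball a (b - 1) * tt b c * tt c a + ball b (c - 1) * tt c a * tt a b + ball c (a - 1) * tt a b * tt b c : ℕ) : ℝ) ≤
      (1 / 2 + 1 / (2 * ((N : ℝ) - 1)) + 2 / (N : ℝ)) * ((tt a b * tt b c * tt c a : ℕ) : ℝ) := by
  have hN3 : 1 ≤ N ^ 3 := Nat.one_le_pow _ _ (by omega)
  have hN2 : 1 ≤ N ^ 2 := Nat.one_le_pow _ _ (by omega)
  have h1 := rho a b (by omega) (by omega)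
  have h2 := rho b c (by omega) (by omega)
  have h3 := rho c a (by omega) (by omega)
  have k1 : N * ball a (b - 1) ≤ tt a b := by
    have e1 : a - 1 = N * b := by
      rw [ha, hb]
      have : N * (N ^ 2 + 1) = N ^ 3 + N := by ring
      omega
    rw [e1] at h1
    have e2 : a ≤ a + 2 * b - 2 := by omega
    have e3 : (a * b) * (N * ball a (b - 1)) ≤ (a * b) * tt a b := by
      calc (a * b) * (N * ball a (b - 1)) = N * b * a * ball a (b - 1) := by ring
        _ ≤ N * b * (a + 2 * b - 2) * ball a (b - 1) :=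
          Nat.mul_le_mul_right _ (Nat.mul_le_mul_left _ e2)
        _ ≤ a * b * tt a b := h1
    exact Nat.le_of_mul_le_mul_left e3 (Nat.mul_pos (by omega) (by omega))
  have k2 : N * ball b (c - 1) ≤ tt b c := by
    have e1 : b - 1 = N * N := by
      rw [hb]
      have : N * N = N ^ 2 := by ring
      omega
    rw [e1] at h2
    have e2 : b ≤ b + 2 * c - 2 := by omega
    have e3 : (b * N) * (N * ball b (c - 1)) ≤ (b * N) * tt b c := by
      calc (b * N) * (N * ball b (c - 1)) = N * N * b * ball b (c - 1) := by ring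
        _ ≤ N * N * (b + 2 * c - 2) * ball b (c - 1) :=
          Nat.mul_le_mul_right _ (Nat.mul_le_mul_left _ e2)
        _ ≤ b * c * tt b c := h2
        _ = (b * N) * tt b c := by rw [hc]
    exact Nat.le_of_mul_le_mul_left e3 (Nat.mul_pos (by omega) (by omega))
  have k3 : 2 * (N - 1) * ball c (a - 1) ≤ N * tt c a := by
    have e1 : c - 1 = N - 1 := by rw [hc]
    rw [e1] at h3
    have e2 : 2 * a ≤ c + 2 * a - 2 := by omega
    have e3 : a * (2 * (N - 1) * ball c (a - 1)) ≤ a * (N * tt c a) := by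
      calc a * (2 * (N - 1) * ball c (a - 1)) = (N - 1) * (2 * a) * ball c (a - 1) := by ring
        _ ≤ (N - 1) * (c + 2 * a - 2) * ball c (a - 1) :=
          Nat.mul_le_mul_right _ (Nat.mul_le_mul_left _ e2)
        _ ≤ c * a * tt c a := h3
        _ = a * (N * tt c a) := by rw [hc]; ring
    exact Nat.le_of_mul_le_mul_left e3 (by omega)
  clear h1 h2 h3 ha hb hc hN3 hN2
  generalize ball a (b - 1) = x at *
  generalize ball b (c - 1) = y at *
  generalize ball c (a - 1) = z at *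
  generalize tt a b = A at *
  generalize tt b c = B at *
  generalize tt c a = C at *
  have hN0 : (2 : ℝ) ≤ N := by exact_mod_cast hN
  have hNp : (0 : ℝ) < N := by linarith
  have hN1 : (0 : ℝ) < (N : ℝ) - 1 := by linarith
  have g1 : (x : ℝ) ≤ 1 / N * A := by
    have : (N : ℝ) * x ≤ A := by exact_mod_cast k1
    rw [div_mul_eq_mul_div, one_mul, le_div_iff₀ hNp, mul_comm]
    exact this
  have g2 : (y : ℝ) ≤ 1 / N * B := by
    have : (N : ℝ) * y ≤ B := by exact_mod_cast k2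
    rw [div_mul_eq_mul_div, one_mul, le_div_iff₀ hNp, mul_comm]
    exact this
  have g3 : (z : ℝ) ≤ (1 / 2 + 1 / (2 * ((N : ℝ) - 1))) * C := by
    have h : ((2 * (N - 1) * z : ℕ) : ℝ) ≤ ((N * C : ℕ) : ℝ) := by exact_mod_cast k3
    push_cast [Nat.cast_sub (show 1 ≤ N by omega)] at h
    have e : (1 / 2 + 1 / (2 * ((N : ℝ) - 1))) = (N : ℝ) / (2 * ((N : ℝ) - 1)) := by
      field_simp
      ring
    rw [e, div_mul_eq_mul_div, le_div_iff₀ (by positivity), mul_comm]
    exact h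
  have kA : (0 : ℝ) ≤ A := Nat.cast_nonneg A
  have kB : (0 : ℝ) ≤ B := Nat.cast_nonneg B
  have kC : (0 : ℝ) ≤ C := Nat.cast_nonneg C
  have e1 : (x : ℝ) * B * C ≤ 1 / N * (A * B * C) := by
    have := mul_le_mul_of_nonneg_right g1 (mul_nonneg kB kC)
    linarith
  have e2 : (y : ℝ) * C * A ≤ 1 / N * (A * B * C) := by
    have := mul_le_mul_of_nonneg_right g2 (mul_nonneg kC kA)
    linarith
  have e3 : (z : ℝ) * A * B ≤ (1 / 2 + 1 / (2 * ((N : ℝ) - 1))) * (A * B * C) := by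
    have := mul_le_mul_of_nonneg_right g3 (mul_nonneg kA kB)
    linarith
  push_cast
  have e5 : (1 / 2 + 1 / (2 * ((N : ℝ) - 1)) + 2 / (N : ℝ)) * ((A : ℝ) * B * C) =
      1 / N * (A * B * C) + 1 / N * (A * B * C) +
        (1 / 2 + 1 / (2 * ((N : ℝ) - 1))) * (A * B * C) := by
    ring
  rw [e5]
  linarith

end Pool.Agent.Work.MP_02cc39_co.Pin
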