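import Pool.Agent.Work.MP_02cc39_co.Pin.Counts
import Pool.Agent.Work.MP_02cc39_co.Pin.Numbers
import Pool.Agent.Work.MP_02cc39_co.Pin.Config
import Pool.Agent.Work.MP_02cc39_co.Pin.Interior
import Pool.Agent.Work.MP_02cc39_co.Pin.Bridge

set_option autoImplicit false

/-!
# The disproof of the monotonicity conjecture (assembly)
-/

namespace Pool.Agent.Work.MP_02cc39_co.Pin

open Classical Pool.Agent.Work.MP_02cc39_co Pool.Agent.Work.MP_02cc39_co.PT

/-- the pinwheel with given numbers of points on the three arms, with both exact numbers -/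
theorem pinwheel (a b c : ℕ) (ha : 0 < a) (hb : 0 < b) (hc : 0 < c) :
    ∃ S : Finset (ℝ × ℝ), GenPos S ∧ S.card = a + b + c + 1 ∧ (0 : ℝ × ℝ) ∈ S ∧
      (0 : ℝ × ℝ) ∈ interior (convexHull ℝ (S : Set (ℝ × ℝ))) ∧
      (PTV S ∅).ncard = tt a b * tt b c * tt c a ∧
      (PTV S {(0 : ℝ × ℝ)}).ncard = ball a (b - 1) * tt b c * tt c a + ball b (c - 1) * tt c a * tt a b +
        ball c (a - 1) * tt a b * tt b c := by
  set m : Fin 3 → ℕ := ![a, b, c] with hmdef
  have hm : ∀ t, 0 < m t := by
    intro t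
    fin_cases t
    · exact ha
    · exact hb
    · exact hc
  obtain ⟨M, hM, hG, hL⟩ := config m
  set P : Pw m → ℝ × ℝ := fun x => pt M (lab x) with hP
  have h0 : P none = (0 : ℝ × ℝ) := rfl
  refine ⟨Finset.univ.image P, tr_gen hG, ?_, ?_, ?_, ?_, ?_⟩
  · rw [tr_card hG, Fintype.card_option, Fintype.card_sigma, Fin.sum_univ_three]
    simp [hmdef]
  · rw [← h0]
    exact Finset.mem_image_of_mem P (Finset.mem_univ _)
  · have hmem : ∀ t : Fin 3, pt M (some (t, 0)) ∈ ((Finset.univ.image P : Finset (ℝ × ℝ)) : Set (ℝ × ℝ)) := by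
      intro t
      rw [Finset.mem_coe]
      exact Finset.mem_image.2 ⟨tip hm t, Finset.mem_univ _, rfl⟩
    refine centre_interior hM ?_ ?_ ?_
    · have := hmem 0
      simpa [pt] using this
    · have := hmem 1
      simpa [pt] using this
    · have := hmem 2
      simpa [pt] using this
  · have h1 := ncard_image hG ∅
    rw [Finset.image_empty] at h1
    rw [h1, hL, cnt0 hm]
    rfl
  · have h1 := ncard_image hG {none}
    rw [Finset.image_singleton] at h1
    rw [h0] at h1
    rw [h1, hL, cnt1 hm]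
    rfl

end Pool.Agent.Work.MP_02cc39_co.Pin
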