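import Pool.Agent.Work.MP_02cc39_co.Pin.Defs

set_option autoImplicit false

/-!
# When is the centre pointed (size S-M)

PROOF. (→) no edge at none: any r. Otherwise the witness is a = some ⟨t, i⟩; for every other neighbour b: oP none a b, i.e. b = (t, j), i < j, or b = (t+1, j). So no
neighbour is in the arm r = t + 2. (←) all neighbours are in the arms r+1 and r+2 (fin_cases r). If there is a neighbour in r+1, take the one with the smallest index i
as witness: oP none (r+1,i) (r+1,j) for i < j and oP none (r+1,i) (r+2,j). Otherwise, if there is a neighbour in r+2, take the smallest one there; otherwise there is no neighbour.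
(none itself is no neighbour: hE.)
-/

namespace Pool.Agent.Work.MP_02cc39_co.Pin

open Classical Pool.Agent.Work.MP_02cc39_co.PT

variable {m : Fin 3 → ℕ}

private theorem pd_cases : ∀ r u : Fin 3, u = r ∨ u = r + 1 ∨ u = r + 2 := by decide

private theorem pd_two : ∀ r : Fin 3, r + 1 + 1 = r + 2 := by decide

private theorem pd_ne : ∀ t : Fin 3, t + 2 ≠ t ∧ t + 2 ≠ t + 1 := by decide

theorem ptd_iff {E : Finset (Sym2 (Pw m))} (hE : ∀ e ∈ E, ¬ e.IsDiag) :
    Ptd (oP m) E none ↔ ∃ r : Fin 3, ∀ i : Fin (m r), s((none : Pw m), some ⟨r, i⟩) ∉ E := by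
  have hno : s((none : Pw m), none) ∉ E := fun h => hE _ h rfl
  constructor
  · rintro (h | ⟨a, ha, hb⟩)
    · exact ⟨0, fun i => h _⟩
    · rcases a with _ | ⟨t, i0⟩
      · exact absurd ha hno
      · refine ⟨t + 2, fun i hi => ?_⟩
        have hne : (some ⟨t + 2, i⟩ : Pw m) ≠ some ⟨t, i0⟩ := by
          intro h
          have h1 := Option.some.inj h
          exact (pd_ne t).1 (congrArg Sigma.fst h1)
        have h2 := hb _ hi hne
        change (t + 2 = t ∧ (i0 : ℕ) < (i : ℕ)) ∨ t + 2 = t + 1 at h2
        rcases h2 with h2 | h2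
        · exact (pd_ne t).1 h2.1
        · exact (pd_ne t).2 h2
  · rintro ⟨r, hr⟩
    by_cases h1 : (Finset.univ.filter (fun i : Fin (m (r + 1)) =>
        s((none : Pw m), some ⟨r + 1, i⟩) ∈ E)).Nonempty
    · obtain ⟨i, hi, hmin⟩ := Finset.exists_min_image _ (fun i : Fin (m (r + 1)) => (i : ℕ)) h1
      rw [Finset.mem_filter] at hi
      refine Or.inr ⟨some ⟨r + 1, i⟩, hi.2, fun b hb hne => ?_⟩
      rcases b with _ | ⟨u, j⟩
      · exact absurd hb hno
      · rcases pd_cases r u with rfl | rfl | rfl
        · exact absurd hb (hr j)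
        · change (r + 1 = r + 1 ∧ (i : ℕ) < (j : ℕ)) ∨ r + 1 = r + 1 + 1
          left
          refine ⟨rfl, ?_⟩
          have h3 := hmin j (Finset.mem_filter.2 ⟨Finset.mem_univ _, hb⟩)
          have h4 : (i : ℕ) ≠ (j : ℕ) := by
            intro h
            apply hne
            rw [Fin.ext h]
          omega
        · change (r + 2 = r + 1 ∧ (i : ℕ) < (j : ℕ)) ∨ r + 2 = r + 1 + 1
          right
          exact (pd_two r).symm
    · by_cases h2 : (Finset.univ.filter (fun i : Fin (m (r + 2)) =>
          s((none : Pw m), some ⟨r + 2, i⟩) ∈ E)).Nonempty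
      · obtain ⟨i, hi, hmin⟩ := Finset.exists_min_image _ (fun i : Fin (m (r + 2)) => (i : ℕ)) h2
        rw [Finset.mem_filter] at hi
        refine Or.inr ⟨some ⟨r + 2, i⟩, hi.2, fun b hb hne => ?_⟩
        rcases b with _ | ⟨u, j⟩
        · exact absurd hb hno
        · rcases pd_cases r u with rfl | rfl | rfl
          · exact absurd hb (hr j)
          · exact absurd ⟨j, Finset.mem_filter.2 ⟨Finset.mem_univ _, hb⟩⟩ h1
          · change (r + 2 = r + 2 ∧ (i : ℕ) < (j : ℕ)) ∨ r + 2 = r + 2 + 1
            left
            refine ⟨rfl, ?_⟩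
            have h3 := hmin j (Finset.mem_filter.2 ⟨Finset.mem_univ _, hb⟩)
            have h4 : (i : ℕ) ≠ (j : ℕ) := by
              intro h
              apply hne
              rw [Fin.ext h]
            omega
      · left
        intro b hb
        rcases b with _ | ⟨u, j⟩
        · exact hno hb
        · rcases pd_cases r u with rfl | rfl | rfl
          · exact hr j hb
          · exact h1 ⟨j, Finset.mem_filter.2 ⟨Finset.mem_univ _, hb⟩⟩
          · exact h2 ⟨j, Finset.mem_filter.2 ⟨Finset.mem_univ _, hb⟩⟩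

end Pool.Agent.Work.MP_02cc39_co.Pin
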