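import Pool.Agent.Work.MP_02cc39_co.Pin.Strip

set_option autoImplicit false

/-!
# Sectors: the maximal sets which contain (-1, 1), the segment between the two tips (size M)

PROOF. e = (-1, 1). In Sec a b (no pair starts at 0) Il e f ↔ f.2 = 0 ∧ f.1 < -1. By `nC_eq`: nC = nM Il D1, D1 = {f ∈ Sec | f ≠ e, not (f.2 = 0 ∧ f.1 < -1)} =
{(-1, 0)} ∪ {f ∈ Sec | f.2 ≥ 1, f ≠ e}. (-1, 0) interlaces with nothing: `nM_erase`. And e interlaces with nothing in D3 = {f ∈ Sec | f.2 ≥ 1}, so nM (D3.erase e) = nM D3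
(`nM_erase`). φ(x, y) = (if x < 0 then x + 1 else x, y) is injective on D3 (x ≠ 0), keeps Il (x < 0 < y or 0 < x < y), with image St (1-a) 1 (b+1) (x' ≤ 0 comes from x'-1,
x' ≥ 1 from x'). `nM_map`, and `St_eq` (b-1) a with l = 1-a: l + a = 1, l + a + (b-1) + 1 = b + 1.
-/

namespace Pool.Agent.Work.MP_02cc39_co.Pin

open Classical

section generic
variable {α β : Type*} {X : α → α → Prop} {Y : β → β → Prop}

private theorem nC_ex (hs : ∀ e f, X e f → X f e) {D : Finset α} {e : α} (he : e ∈ D)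
    (hee : ¬ X e e) : ∃ D1 : Finset α, (∀ f, f ∈ D1 ↔ f ∈ D ∧ f ≠ e ∧ ¬ X e f) ∧
      nC X D e = nM X D1 :=
  ⟨_, fun _ => Finset.mem_filter, nC_eq hs he hee⟩

private theorem nM_ex (hs : ∀ e f, X e f → X f e) {D : Finset α} {e : α} (he : e ∈ D)
    (h : ∀ f ∈ D, ¬ X e f) : ∃ D1 : Finset α, (∀ f, f ∈ D1 ↔ f ≠ e ∧ f ∈ D) ∧
      nM X D = nM X D1 :=
  ⟨_, fun _ => Finset.mem_erase, nM_erase hs he h⟩

private theorem nM_map' {D : Finset α} {D' : Finset β} (φ : α → β) (hφ : Set.InjOn φ D)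
    (h : ∀ e ∈ D, ∀ f ∈ D, (X e f ↔ Y (φ e) (φ f)))
    (hD' : ∀ b, b ∈ D' ↔ ∃ a ∈ D, φ a = b) : nM X D = nM Y D' := by
  have : D' = D.image φ := by
    ext b
    rw [hD', Finset.mem_image]
  rw [this]
  exact nM_map φ hφ h

end generic

theorem Sec_with {a b : ℕ} (ha : 1 ≤ a) (hb : 1 ≤ b) : nC Il (Sec a b) (-1, 1) = ball a (b - 1) := by
  have hg : ((-1, 1) : ℤ × ℤ) ∈ Sec a b := by
    rw [mem_Sec]; refine ⟨?_, ?_, ?_, ?_, ?_⟩ <;> (try simp only) <;> omega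
  obtain ⟨D1, hD1, e1⟩ := nC_ex (X := Il) il_symm hg (il_irr _)
  have m1 : ∀ f : ℤ × ℤ, f ∈ D1 ↔ (-(a : ℤ) ≤ f.1 ∧ f.1 < f.2 ∧ f.2 ≤ (b : ℤ) ∧ 0 ≤ f.2 ∧
      f.1 ≠ 0) ∧ ¬ (f.1 = -1 ∧ f.2 = 1) ∧ ¬ (f.1 < -1 ∧ f.2 = 0) := by
    intro f
    rw [hD1, mem_Sec]
    have hne : f ≠ ((-1, 1) : ℤ × ℤ) ↔ ¬ (f.1 = -1 ∧ f.2 = 1) := by
      rw [Ne, Prod.ext_iff]
    rw [hne]
    unfold Il
    simp only
    constructor
    · rintro ⟨h1, h2, h3⟩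
      refine ⟨h1, h2, ?_⟩
      omega
    · rintro ⟨h1, h2, h3⟩
      refine ⟨h1, h2, ?_⟩
      omega
  have h10 : ((-1, 0) : ℤ × ℤ) ∈ D1 := by
    rw [m1]
    simp only
    omega
  have iso1 : ∀ f ∈ D1, ¬ Il (-1, 0) f := by
    intro f hf
    rw [m1] at hf
    unfold Il
    simp only
    omega
  obtain ⟨D2, hD2, e2⟩ := nM_ex (X := Il) il_symm h10 iso1
  have m2 : ∀ f : ℤ × ℤ, f ∈ D2 ↔ (-(a : ℤ) ≤ f.1 ∧ f.1 < f.2 ∧ f.2 ≤ (b : ℤ) ∧ 1 ≤ f.2 ∧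
      f.1 ≠ 0) ∧ ¬ (f.1 = -1 ∧ f.2 = 1) := by
    intro f
    rw [hD2, m1]
    have hne : f ≠ ((-1, 0) : ℤ × ℤ) ↔ ¬ (f.1 = -1 ∧ f.2 = 0) := by
      rw [Ne, Prod.ext_iff]
    rw [hne]
    omega
  obtain ⟨D3, hD3⟩ : ∃ D3 : Finset (ℤ × ℤ), D3 = (Sec a b).filter fun f => 1 ≤ f.2 := ⟨_, rfl⟩
  have m3 : ∀ f : ℤ × ℤ, f ∈ D3 ↔ (-(a : ℤ) ≤ f.1 ∧ f.1 < f.2 ∧ f.2 ≤ (b : ℤ) ∧ 1 ≤ f.2 ∧
      f.1 ≠ 0) := by
    intro f
    rw [hD3, Finset.mem_filter, mem_Sec]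
    omega
  have h11 : ((-1, 1) : ℤ × ℤ) ∈ D3 := by
    rw [m3]
    simp only
    omega
  have iso3 : ∀ f ∈ D3, ¬ Il (-1, 1) f := by
    intro f hf
    rw [m3] at hf
    unfold Il
    simp only
    omega
  obtain ⟨D4, hD4, e3⟩ := nM_ex (X := Il) il_symm h11 iso3
  have hD24 : D2 = D4 := by
    ext f
    rw [hD4, m2, m3]
    have hne : f ≠ ((-1, 1) : ℤ × ℤ) ↔ ¬ (f.1 = -1 ∧ f.2 = 1) := by
      rw [Ne, Prod.ext_iff]
    rw [hne]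
    omega
  have hst := St_eq (b - 1) a ha (1 - (a : ℤ))
  have c1 : 1 - (a : ℤ) + (a : ℤ) = 1 := by ring
  have c2 : (1 : ℤ) + ((b - 1 : ℕ) : ℤ) + 1 = (b : ℤ) + 1 := by omega
  rw [c1, c2] at hst
  rw [e1, e2, hD24, ← e3, ← hst]
  let φ : ℤ × ℤ → ℤ × ℤ := fun f => (if f.1 < 0 then f.1 + 1 else f.1, f.2)
  apply nM_map' φ
  · intro e he f hf hef
    rw [Finset.mem_coe, m3] at he hf
    have h1 : (φ e).1 = (φ f).1 := congrArg Prod.fst hef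
    have h2 : (φ e).2 = (φ f).2 := congrArg Prod.snd hef
    change (if e.1 < 0 then e.1 + 1 else e.1) = (if f.1 < 0 then f.1 + 1 else f.1) at h1
    change e.2 = f.2 at h2
    ext
    · split_ifs at h1 <;> omega
    · exact h2
  · intro e he f hf
    rw [m3] at he hf
    show Il e f ↔ Il ((if e.1 < 0 then e.1 + 1 else e.1), e.2) ((if f.1 < 0 then f.1 + 1 else f.1), f.2)
    unfold Il
    simp only
    split_ifs <;> omega
  · intro f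
    rw [mem_St]
    constructor
    · intro hf
      refine ⟨(if f.1 ≤ 0 then f.1 - 1 else f.1, f.2), ?_, ?_⟩
      · rw [m3]
        simp only
        split_ifs <;> omega
      · show ((if (if f.1 ≤ 0 then f.1 - 1 else f.1) < 0 then (if f.1 ≤ 0 then f.1 - 1 else f.1) + 1
          else (if f.1 ≤ 0 then f.1 - 1 else f.1)), f.2) = f
        ext
        · simp only
          split_ifs <;> omega
        · rfl
    · rintro ⟨e, he, rfl⟩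
      rw [m3] at he
      show (1 - (a : ℤ) ≤ (if e.1 < 0 then e.1 + 1 else e.1) ∧
        (if e.1 < 0 then e.1 + 1 else e.1) < e.2 ∧ e.2 < (b : ℤ) + 1 ∧ 1 ≤ e.2)
      split_ifs <;> omega

end Pool.Agent.Work.MP_02cc39_co.Pin
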