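import Pool.Agent.Work.MP_02cc39_co.Pin.Defs

set_option autoImplicit false

/-!
# The sign rules for the points on the three parabolas (size M)

`dt p q r` = twice the signed area. `rot` has determinant 1 and order 3, so dt (rot p) (rot q) (rot r) = dt p q r (ring).
par M Y = (M + Y², M Y), rot (par M Z) = (-M Z, M + Z² - M Z), rot (rot (par M Z)) = (M Z - M - Z², - M - Z²).
All statements for 3 ≤ Y's ≤ K and M ≥ 100 K³ (K ≥ 3), Y < Y':
 s1  dt (par Y) (par Y') (par Y'') = M (Y'-Y) (Y''-Y) (Y'-Y'')   (exact)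
 s2  dt 0 (par Y) (par Y') = M (Y'-Y) (M - Y Y') > 0
 s3  dt 0 (par Y) (rot (par Z)) = M²(1-Z+YZ) + M(Y²+Z²-Y²Z) + Y²Z² > 0
 s4  dt (par Y) (par Y') (rot (par Z)) = (Y'-Y) [ M²(Z+1) + M Y² - (Y+Y')(M Z + M Y - M - Z²) ] > 0
 s5  dt (par Y) (par Y') (rot (rot (par Z))) = (Y'-Y) [ -M²(Z-2) + M(Z²+Y²) - (Y+Y')(M + Z² + M Y) ] < 0
 s6  dt (par Y) (rot (par Z)) (rot (rot (par T))) = dt 0 (par Y) (rot (par Z)) + dt 0 (rot (par Z)) (rot (rot (par T))) + dt 0 (rot (rot (par T))) (par Y) > 0: each summand is s3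
     after rotation.
(expand with ring; then M² ≥ 100 K³ M and Y, Z ≤ K: nlinarith or explicit estimates.)
-/

namespace Pool.Agent.Work.MP_02cc39_co.Pin

/-- twice the signed area of the triangle `p q r` -/
def dt (p q r : ℝ × ℝ) : ℝ := (q.1 - p.1) * (r.2 - p.2) - (q.2 - p.2) * (r.1 - p.1)

theorem dt_rot (p q r : ℝ × ℝ) : dt (rot p) (rot q) (rot r) = dt p q r := by
  unfold dt rot
  ring

theorem rot3 (p : ℝ × ℝ) : rot (rot (rot p)) = p := by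
  unfold rot
  ext
  · simp
  · simp only
    ring

theorem rot0 : rot (0, 0) = (0, 0) := by
  unfold rot
  simp

variable {M K Y Y' Y'' Z T : ℝ}

theorem s1 : dt (par M Y) (par M Y') (par M Y'') = M * (Y' - Y) * (Y'' - Y) * (Y' - Y'') := by
  unfold dt par
  ring

private theorem k23 (hK : 3 ≤ K) : K ^ 2 * 3 ≤ K ^ 3 := by
  have : 0 ≤ K ^ 2 * (K - 3) := mul_nonneg (sq_nonneg K) (by linarith)
  nlinarith

private theorem mpos (hK : 3 ≤ K) (hM : 100 * K ^ 3 ≤ M) : 0 < M := by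
  have : 0 < K ^ 3 := by positivity
  linarith

private theorem mm (hK : 3 ≤ K) (hM : 100 * K ^ 3 ≤ M) : 100 * (K ^ 3 * M) ≤ M ^ 2 := by
  have h0 := mpos hK hM
  nlinarith

theorem s2 (hK : 3 ≤ K) (hM : 100 * K ^ 3 ≤ M) (hY : 3 ≤ Y) (h : Y < Y') (hY' : Y' ≤ K) :
    0 < dt (0, 0) (par M Y) (par M Y') := by
  have e : dt (0, 0) (par M Y) (par M Y') = M * (Y' - Y) * (M - Y * Y') := by
    unfold dt par
    ring
  rw [e]
  have h0 := mpos hK hM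
  have h1 := k23 hK
  have h2 : Y * Y' ≤ K * K := mul_le_mul (by linarith) hY' (by linarith) (by linarith)
  have h3 : 0 < M - Y * Y' := by nlinarith [sq_nonneg K]
  have h4 : 0 < Y' - Y := by linarith
  positivity

theorem s3 (hK : 3 ≤ K) (hM : 100 * K ^ 3 ≤ M) (hY : 3 ≤ Y) (hY' : Y ≤ K) (hZ : 3 ≤ Z) (hZ' : Z ≤ K) :
    0 < dt (0, 0) (par M Y) (rot (par M Z)) := by
  have e : dt (0, 0) (par M Y) (rot (par M Z)) =
      M ^ 2 + M ^ 2 * (Z * (Y - 1)) + M * Y ^ 2 + M * Z ^ 2 - M * (Y ^ 2 * Z) + Y ^ 2 * Z ^ 2 := by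
    unfold dt par rot
    ring
  rw [e]
  have h0 := mpos hK hM
  have h1 := mm hK hM
  have h2 : Y ^ 2 * Z ≤ K ^ 3 := by
    have h3 : Y ^ 2 ≤ K ^ 2 := pow_le_pow_left₀ (by linarith) hY' 2
    calc Y ^ 2 * Z ≤ K ^ 2 * K := mul_le_mul h3 hZ' (by linarith) (sq_nonneg K)
      _ = K ^ 3 := by ring
  have h3 : M * (Y ^ 2 * Z) ≤ M * K ^ 3 := mul_le_mul_of_nonneg_left h2 h0.le
  have h4 : 0 ≤ M ^ 2 * (Z * (Y - 1)) :=
    mul_nonneg (sq_nonneg M) (mul_nonneg (by linarith) (by linarith))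
  have h5 : 0 ≤ M * Y ^ 2 := by positivity
  have h6 : 0 ≤ M * Z ^ 2 := by positivity
  have h7 : 0 ≤ Y ^ 2 * Z ^ 2 := by positivity
  have h8 : 0 < M ^ 2 := by positivity
  have h9 : 0 < K ^ 3 * M := by positivity
  linarith

theorem s4 (hK : 3 ≤ K) (hM : 100 * K ^ 3 ≤ M) (hY : 3 ≤ Y) (h : Y < Y') (hY' : Y' ≤ K) (hZ : 3 ≤ Z) (hZ' : Z ≤ K) :
    0 < dt (par M Y) (par M Y') (rot (par M Z)) := by
  have e : dt (par M Y) (par M Y') (rot (par M Z)) =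
      (Y' - Y) * (M ^ 2 * (Z + 1) + M * Y ^ 2 - (Y + Y') * (M * Z + M * Y - M - Z ^ 2)) := by
    unfold dt par rot
    ring
  rw [e]
  have h0 := mpos hK hM
  have h1 := mm hK hM
  have hk := k23 hK
  have h2 : (Y + Y') * (M * Z + M * Y - M - Z ^ 2) ≤ (2 * K) * (2 * K * M) := by
    have a1 : M * Z + M * Y - M - Z ^ 2 ≤ 2 * K * M := by
      have b1 : M * Z ≤ M * K := mul_le_mul_of_nonneg_left hZ' h0.le
      have b2 : M * Y ≤ M * K := mul_le_mul_of_nonneg_left (by linarith) h0.le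
      nlinarith [sq_nonneg Z]
    calc (Y + Y') * (M * Z + M * Y - M - Z ^ 2) ≤ (Y + Y') * (2 * K * M) :=
          mul_le_mul_of_nonneg_left a1 (by linarith)
      _ ≤ (2 * K) * (2 * K * M) :=
          mul_le_mul_of_nonneg_right (by linarith) (by positivity)
  have h3 : 0 ≤ M ^ 2 * Z := mul_nonneg (sq_nonneg M) (by linarith)
  have h4 : 0 ≤ M * Y ^ 2 := by positivity
  have h5 : K ^ 2 * M * 3 ≤ K ^ 3 * M := by nlinarith
  have h6 : 0 < K ^ 2 * M := by positivity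
  have h7 : 0 < M ^ 2 * (Z + 1) + M * Y ^ 2 - (Y + Y') * (M * Z + M * Y - M - Z ^ 2) := by
    have a : (2 * K) * (2 * K * M) = 4 * (K ^ 2 * M) := by ring
    rw [a] at h2
    have b : M ^ 2 * (Z + 1) = M ^ 2 * Z + M ^ 2 := by ring
    rw [b]
    linarith
  exact mul_pos (by linarith) h7

theorem s5 (hK : 3 ≤ K) (hM : 100 * K ^ 3 ≤ M) (hY : 3 ≤ Y) (h : Y < Y') (hY' : Y' ≤ K) (hZ : 3 ≤ Z) (hZ' : Z ≤ K) :
    dt (par M Y) (par M Y') (rot (rot (par M Z))) < 0 := by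
  have e : dt (par M Y) (par M Y') (rot (rot (par M Z))) =
      (Y' - Y) * (-(M ^ 2 * (Z - 2)) + M * (Z ^ 2 + Y ^ 2) - (Y + Y') * (M + Z ^ 2 + M * Y)) := by
    unfold dt par rot
    ring
  rw [e]
  have h0 := mpos hK hM
  have h1 := mm hK hM
  have hk := k23 hK
  have h2 : M * (Z ^ 2 + Y ^ 2) ≤ M * (2 * K ^ 2) := by
    have a1 : Z ^ 2 ≤ K ^ 2 := pow_le_pow_left₀ (by linarith) hZ' 2
    have a2 : Y ^ 2 ≤ K ^ 2 := pow_le_pow_left₀ (by linarith) (by linarith) 2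
    exact mul_le_mul_of_nonneg_left (by linarith) h0.le
  have h3 : 0 ≤ (Y + Y') * (M + Z ^ 2 + M * Y) := by
    apply mul_nonneg (by linarith)
    have : 0 ≤ M * Y := mul_nonneg h0.le (by linarith)
    positivity
  have h4 : M ^ 2 ≤ M ^ 2 * (Z - 2) := by
    have : 0 ≤ M ^ 2 * (Z - 3) := mul_nonneg (sq_nonneg M) (by linarith)
    nlinarith
  have h5 : K ^ 2 * M * 3 ≤ K ^ 3 * M := by nlinarith
  have h6 : 0 < K ^ 2 * M := by positivity
  have h7 : -(M ^ 2 * (Z - 2)) + M * (Z ^ 2 + Y ^ 2) - (Y + Y') * (M + Z ^ 2 + M * Y) < 0 := by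
    have a : M * (2 * K ^ 2) = 2 * (K ^ 2 * M) := by ring
    rw [a] at h2
    linarith
  exact mul_neg_of_pos_of_neg (by linarith) h7

theorem s6 (hK : 3 ≤ K) (hM : 100 * K ^ 3 ≤ M) (hY : 3 ≤ Y) (hY' : Y ≤ K) (hZ : 3 ≤ Z) (hZ' : Z ≤ K) (hT : 3 ≤ T)
    (hT' : T ≤ K) : 0 < dt (par M Y) (rot (par M Z)) (rot (rot (par M T))) := by
  have e : ∀ p q r : ℝ × ℝ, dt p q r = dt (0, 0) p q + dt (0, 0) q r + dt (0, 0) r p := by
    intro p q r
    unfold dt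
    ring
  rw [e]
  have a1 : 0 < dt (0, 0) (par M Y) (rot (par M Z)) := s3 hK hM hY hY' hZ hZ'
  have a2 : 0 < dt (0, 0) (rot (par M Z)) (rot (rot (par M T))) := by
    have h := s3 hK hM hZ hZ' hT hT'
    rw [← dt_rot, rot0] at h
    exact h
  have a3 : 0 < dt (0, 0) (rot (rot (par M T))) (par M Y) := by
    have h := s3 hK hM hT hT' hY hY'
    rw [← dt_rot, rot0, ← dt_rot, rot0, rot3] at h
    exact h
  linarith

end Pool.Agent.Work.MP_02cc39_co.Pin
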