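import Pool.Agent.Work.MP_02cc39_co.Pin.SignA

set_option autoImplicit false

/-!
# The orientations of the points are given by `og` (size M-L, case distinctions)

Labels with all indices ≤ n: K := n + 3, M ≥ 100 K³.
PROOF of `sign_pt`. Case distinction on the three labels. Two equal labels: dt = 0. Otherwise bring the triple into the form of one of s1, ..., s6 by the rules
 dt q r p = dt p q r, dt p r q = - dt p q r, dt (rot p) (rot q) (rot r) = dt p q r, rot³ = id (for the arms 1, 2: rotate back). Suggestion: first prove the statement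
 (dt (pt M a) (pt M b) (pt M c) has sign +1 / -1 according to og a b c / og a c b) for a, b, c in the six normal forms with the FIRST arm equal to 0 (or none first), then
 use that both sides are invariant under the rotation of labels (t ↦ t + 1: pt M (t+1, i) = rot (pt M (t, i)), og is invariant) and under cyclic permutations,
 and antisymmetric. The conclusion contains both signs, so that general position (dt ≠ 0) is included.
-/

namespace Pool.Agent.Work.MP_02cc39_co.Pin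

/-- the index of a label is at most `n` -/
def Bd (n : ℕ) : Lb → Prop
  | none => True
  | some (_, i) => i ≤ n

/-- rotation of labels -/
private def rl : Lb → Lb
  | none => none
  | some (t, i) => some (t + 1, i)

private theorem pt_rl (M : ℝ) (a : Lb) : pt M (rl a) = rot (pt M a) := by
  rcases a with _ | ⟨t, i⟩
  · show pt M none = rot (pt M none)
    show ((0 : ℝ), (0 : ℝ)) = rot (0, 0)
    rw [rot0]
  · fin_cases t
    · rfl
    · rfl
    · show par M ((i : ℝ) + 3) = rot (rot (rot (par M ((i : ℝ) + 3))))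
      rw [rot3]

private theorem og_rl (a b c : Lb) : og (rl a) (rl b) (rl c) ↔ og a b c := by
  rcases a with _ | ⟨t, i⟩ <;> rcases b with _ | ⟨u, j⟩ <;> rcases c with _ | ⟨v, k⟩ <;>
    simp only [rl, og] <;> (try fin_cases t) <;> (try fin_cases u) <;> (try fin_cases v) <;> simp

private theorem og_cyc (a b c : Lb) : og a b c ↔ og b c a := by
  rcases a with _ | ⟨t, i⟩ <;> rcases b with _ | ⟨u, j⟩ <;> rcases c with _ | ⟨v, k⟩ <;>
    simp only [og] <;> (try fin_cases t) <;> (try fin_cases u) <;> (try fin_cases v) <;>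
    simp <;> omega

private theorem og_anti (a b c : Lb) (hab : a ≠ b) (hac : a ≠ c) (hbc : b ≠ c) :
    og a b c ↔ ¬ og a c b := by
  rcases a with _ | ⟨t, i⟩ <;> rcases b with _ | ⟨u, j⟩ <;> rcases c with _ | ⟨v, k⟩ <;>
    simp only [og] <;> (try fin_cases t) <;> (try fin_cases u) <;> (try fin_cases v) <;>
    simp at hab hac hbc ⊢ <;> omega

/-- the statement -/
private def P (M : ℝ) (a b c : Lb) : Prop :=
  (og a b c ∧ 0 < dt (pt M a) (pt M b) (pt M c)) ∨ (¬ og a b c ∧ dt (pt M a) (pt M b) (pt M c) < 0)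

private theorem P_rl {M : ℝ} {a b c : Lb} (h : P M (rl a) (rl b) (rl c)) : P M a b c := by
  unfold P at h ⊢
  rwa [og_rl, pt_rl, pt_rl, pt_rl, dt_rot] at h

private theorem P_cyc {M : ℝ} {a b c : Lb} (h : P M b c a) : P M a b c := by
  unfold P at h ⊢
  have e : dt (pt M b) (pt M c) (pt M a) = dt (pt M a) (pt M b) (pt M c) := by
    unfold dt; ring
  rwa [← og_cyc, e] at h

private theorem P_anti {M : ℝ} {a b c : Lb} (hab : a ≠ b) (hac : a ≠ c) (hbc : b ≠ c)
    (h : P M a c b) : P M a b c := by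
  unfold P at h ⊢
  have e : dt (pt M a) (pt M c) (pt M b) = - dt (pt M a) (pt M b) (pt M c) := by
    unfold dt; ring
  rw [e, og_anti a c b hac hab hbc.symm] at h
  rcases h with ⟨h1, h2⟩ | ⟨h1, h2⟩
  · exact Or.inr ⟨h1, by linarith⟩
  · exact Or.inl ⟨not_not.mp h1, by linarith⟩

private theorem kb {n : ℕ} : (3 : ℝ) ≤ (n : ℝ) + 3 := by
  have : (0 : ℝ) ≤ n := Nat.cast_nonneg n
  linarith

private theorem ib (i : ℕ) : (3 : ℝ) ≤ (i : ℝ) + 3 := kb

private theorem iu {i n : ℕ} (h : i ≤ n) : (i : ℝ) + 3 ≤ (n : ℝ) + 3 := by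
  have : (i : ℝ) ≤ n := Nat.cast_le.mpr h
  linarith

private theorem il {i j : ℕ} (h : i < j) : (i : ℝ) + 3 < (j : ℝ) + 3 := by
  have : (i : ℝ) < j := Nat.cast_lt.mpr h
  linarith

section
variable {n : ℕ} {M : ℝ} {i j k : ℕ}

private theorem n1 (hM : 100 * ((n : ℝ) + 3) ^ 3 ≤ M) (hij : i ≠ j) (hik : i ≠ k) (hjk : j ≠ k) :
    P M (some (0, i)) (some (0, j)) (some (0, k)) := by
  have hM0 : 0 < M := by
    have : 0 < ((n : ℝ) + 3) ^ 3 := by positivity
    linarith
  have e : dt (pt M (some (0, i))) (pt M (some (0, j))) (pt M (some (0, k))) =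
      M * ((((j : ℝ) + 3) - ((i : ℝ) + 3)) * (((k : ℝ) + 3) - ((i : ℝ) + 3)) *
        (((j : ℝ) + 3) - ((k : ℝ) + 3))) := by
    show dt (par M ((i : ℝ) + 3)) (par M ((j : ℝ) + 3)) (par M ((k : ℝ) + 3)) = _
    rw [s1]; ring
  have e2 : ((((j : ℝ) + 3) - ((i : ℝ) + 3)) * (((k : ℝ) + 3) - ((i : ℝ) + 3)) *
        (((j : ℝ) + 3) - ((k : ℝ) + 3))) = ((j : ℝ) - i) * ((k : ℝ) - i) * ((j : ℝ) - k) := by ring
  rw [e2] at e
  have ogI : og (some (0, i)) (some (0, j)) (some (0, k)) ↔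
      ((k < j ∧ j < i) ∨ (j < i ∧ i < k) ∨ (i < k ∧ k < j)) := by
    simp [og]
  unfold P
  rw [e, ogI]
  have c1 : ∀ {x y : ℕ}, x < y → (0 : ℝ) < (y : ℝ) - x := fun h => sub_pos.mpr (Nat.cast_lt.mpr h)
  have c2 : ∀ {x y : ℕ}, x < y → (x : ℝ) - y < 0 := fun h => sub_neg.mpr (Nat.cast_lt.mpr h)
  rcases lt_or_gt_of_ne hij with h1 | h1 <;> rcases lt_or_gt_of_ne hik with h2 | h2 <;>
    rcases lt_or_gt_of_ne hjk with h3 | h3
  · -- i<j, i<k, j<k : negative
    exact Or.inr ⟨by omega, mul_neg_of_pos_of_neg hM0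
      (mul_neg_of_pos_of_neg (mul_pos (c1 h1) (c1 h2)) (c2 h3))⟩
  · exact Or.inl ⟨by omega, mul_pos hM0 (mul_pos (mul_pos (c1 h1) (c1 h2)) (c1 h3))⟩
  · omega
  · -- i<j, k<i, k<j
    exact Or.inr ⟨by omega, mul_neg_of_pos_of_neg hM0
      (mul_neg_of_neg_of_pos (mul_neg_of_pos_of_neg (c1 h1) (c2 h2)) (c1 h3))⟩
  · -- j<i, i<k, j<k
    exact Or.inl ⟨by omega, mul_pos hM0
      (mul_pos_of_neg_of_neg (mul_neg_of_neg_of_pos (c2 h1) (c1 h2)) (c2 h3))⟩
  · omega
  · -- j<i, k<i, j<k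
    exact Or.inr ⟨by omega, mul_neg_of_pos_of_neg hM0
      (mul_neg_of_pos_of_neg (mul_pos_of_neg_of_neg (c2 h1) (c2 h2)) (c2 h3))⟩
  · exact Or.inl ⟨by omega, mul_pos hM0
      (mul_pos (mul_pos_of_neg_of_neg (c2 h1) (c2 h2)) (c1 h3))⟩

private theorem n2 (hM : 100 * ((n : ℝ) + 3) ^ 3 ≤ M) (hj : j ≤ n) (hij : i < j) :
    P M none (some (0, i)) (some (0, j)) := by
  refine Or.inl ⟨?_, ?_⟩
  · simp [og, hij]
  · exact s2 kb hM (ib i) (il hij) (iu hj)

private theorem n3 (hM : 100 * ((n : ℝ) + 3) ^ 3 ≤ M) (hi : i ≤ n) (hj : j ≤ n) :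
    P M none (some (0, i)) (some (1, j)) := by
  refine Or.inl ⟨?_, ?_⟩
  · simp [og]
  · exact s3 kb hM (ib i) (iu hi) (ib j) (iu hj)

private theorem n4 (hM : 100 * ((n : ℝ) + 3) ^ 3 ≤ M) (hj : j ≤ n) (hk : k ≤ n) (hij : i < j) :
    P M (some (0, i)) (some (0, j)) (some (1, k)) := by
  refine Or.inl ⟨?_, ?_⟩
  · simp [og, hij]
  · exact s4 kb hM (ib i) (il hij) (iu hj) (ib k) (iu hk)

private theorem n5 (hM : 100 * ((n : ℝ) + 3) ^ 3 ≤ M) (hj : j ≤ n) (hk : k ≤ n) (hij : i < j) :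
    P M (some (0, i)) (some (0, j)) (some (2, k)) := by
  refine Or.inr ⟨?_, ?_⟩
  · simp [og]; omega
  · exact s5 kb hM (ib i) (il hij) (iu hj) (ib k) (iu hk)

private theorem n6 (hM : 100 * ((n : ℝ) + 3) ^ 3 ≤ M) (hi : i ≤ n) (hj : j ≤ n) (hk : k ≤ n) :
    P M (some (0, i)) (some (1, j)) (some (2, k)) := by
  refine Or.inl ⟨?_, ?_⟩
  · simp [og]
  · exact s6 kb hM (ib i) (iu hi) (ib j) (iu hj) (ib k) (iu hk)

private theorem n4' (hM : 100 * ((n : ℝ) + 3) ^ 3 ≤ M) (hi : i ≤ n) (hj : j ≤ n) (hk : k ≤ n)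
    (hij : i ≠ j) : P M (some (0, i)) (some (0, j)) (some (1, k)) := by
  rcases lt_or_gt_of_ne hij with h | h
  · exact n4 hM hj hk h
  · apply P_anti (by simpa using hij) (by simp) (by simp)
    apply P_cyc
    apply P_cyc
    exact n4 hM hi hk h

private theorem n5' (hM : 100 * ((n : ℝ) + 3) ^ 3 ≤ M) (hi : i ≤ n) (hj : j ≤ n) (hk : k ≤ n)
    (hij : i ≠ j) : P M (some (0, i)) (some (0, j)) (some (2, k)) := by
  rcases lt_or_gt_of_ne hij with h | h
  · exact n5 hM hj hk h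
  · apply P_anti (by simpa using hij) (by simp) (by simp)
    apply P_cyc
    apply P_cyc
    exact n5 hM hi hk h

/-- first arm equal to zero -/
private theorem z3 (hM : 100 * ((n : ℝ) + 3) ^ 3 ≤ M) (u v : Fin 3) (hi : i ≤ n) (hj : j ≤ n)
    (hk : k ≤ n)
    (hab : (some (0, i) : Lb) ≠ some (u, j)) (hac : (some (0, i) : Lb) ≠ some (v, k))
    (hbc : (some (u, j) : Lb) ≠ some (v, k)) :
    P M (some (0, i)) (some (u, j)) (some (v, k)) := by
  fin_cases u <;> fin_cases v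
  · exact n1 hM (by simpa using hab) (by simpa using hac) (by simpa using hbc)
  · exact n4' hM hi hj hk (by simpa using hab)
  · exact n5' hM hi hj hk (by simpa using hab)
  · apply P_cyc
    apply P_cyc
    exact n4' hM hk hi hj (by simpa using hac.symm)
  · -- (0,i),(1,j),(1,k): rotate twice
    apply P_rl
    apply P_rl
    apply P_cyc
    exact n5' hM hj hk hi (by simpa using hbc)
  · exact n6 hM hi hj hk
  · apply P_cyc
    apply P_cyc
    exact n5' hM hk hi hj (by simpa using hac.symm)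
  · apply P_anti (by simp) (by simp) (by simp)
    exact n6 hM hi hk hj
  · apply P_rl
    apply P_cyc
    exact n4' hM hj hk hi (by simpa using hbc)

private theorem z2 (hM : 100 * ((n : ℝ) + 3) ^ 3 ≤ M) (u : Fin 3) (hi : i ≤ n) (hj : j ≤ n)
    (hab : (some (0, i) : Lb) ≠ some (u, j)) :
    P M none (some (0, i)) (some (u, j)) := by
  fin_cases u
  · have hij : i ≠ j := by simpa using hab
    rcases lt_or_gt_of_ne hij with h | h
    · exact n2 hM hj h
    · apply P_anti (by simp) (by simp) hab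
      exact n2 hM hi h
  · exact n3 hM hi hj
  · apply P_anti (by simp) (by simp) hab
    apply P_rl
    exact n3 hM hj hi

private theorem rl_ne {a b : Lb} (h : a ≠ b) : rl a ≠ rl b := by
  rcases a with _ | ⟨t, i⟩ <;> rcases b with _ | ⟨u, j⟩ <;> simp [rl] at h ⊢
  exact h

private theorem z3' (hM : 100 * ((n : ℝ) + 3) ^ 3 ≤ M) (t u v : Fin 3) (hi : i ≤ n) (hj : j ≤ n)
    (hk : k ≤ n)
    (hab : (some (t, i) : Lb) ≠ some (u, j)) (hac : (some (t, i) : Lb) ≠ some (v, k))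
    (hbc : (some (u, j) : Lb) ≠ some (v, k)) :
    P M (some (t, i)) (some (u, j)) (some (v, k)) := by
  fin_cases t
  · exact z3 hM u v hi hj hk hab hac hbc
  · apply P_rl
    apply P_rl
    exact z3 hM (u + 1 + 1) (v + 1 + 1) hi hj hk (rl_ne (rl_ne hab)) (rl_ne (rl_ne hac))
      (rl_ne (rl_ne hbc))
  · apply P_rl
    exact z3 hM (u + 1) (v + 1) hi hj hk (rl_ne hab) (rl_ne hac) (rl_ne hbc)

private theorem z2' (hM : 100 * ((n : ℝ) + 3) ^ 3 ≤ M) (t u : Fin 3) (hi : i ≤ n) (hj : j ≤ n)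
    (hab : (some (t, i) : Lb) ≠ some (u, j)) :
    P M none (some (t, i)) (some (u, j)) := by
  fin_cases t
  · exact z2 hM u hi hj hab
  · apply P_rl
    apply P_rl
    exact z2 hM (u + 1 + 1) hi hj (rl_ne (rl_ne hab))
  · apply P_rl
    exact z2 hM (u + 1) hi hj (rl_ne hab)

end

theorem sign_pt {n : ℕ} {M : ℝ} (hM : 100 * ((n : ℝ) + 3) ^ 3 ≤ M) {a b c : Lb} (ha : Bd n a) (hb : Bd n b) (hc : Bd n c)
    (hab : a ≠ b) (hac : a ≠ c) (hbc : b ≠ c) :
    (og a b c ∧ 0 < dt (pt M a) (pt M b) (pt M c)) ∨ (¬ og a b c ∧ dt (pt M a) (pt M b) (pt M c) < 0) := by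
  show P M a b c
  rcases a with _ | ⟨t, i⟩
  · rcases b with _ | ⟨u, j⟩
    · exact absurd rfl hab
    · rcases c with _ | ⟨v, k⟩
      · exact absurd rfl hac
      · exact z2' hM u v hb hc hbc
  · rcases b with _ | ⟨u, j⟩
    · rcases c with _ | ⟨v, k⟩
      · exact absurd rfl hbc
      · apply P_cyc
        exact z2' hM v t hc ha hac.symm
    · rcases c with _ | ⟨v, k⟩
      · apply P_cyc
        apply P_cyc
        exact z2' hM t u ha hb hab
      · exact z3' hM t u v ha hb hc hab hac hbc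

theorem og_ne {a b c : Lb} (h : og a b c) : a ≠ b ∧ a ≠ c ∧ b ≠ c := by
  rcases a with _ | ⟨t, i⟩ <;> rcases b with _ | ⟨u, j⟩ <;> rcases c with _ | ⟨v, k⟩ <;>
    simp only [og] at h <;> (try fin_cases t) <;> (try fin_cases u) <;> (try fin_cases v) <;>
    simp at h ⊢ <;> omega

theorem pt_inj {n : ℕ} {M : ℝ} (hM : 100 * ((n : ℝ) + 3) ^ 3 ≤ M) {a b : Lb} (ha : Bd n a) (hb : Bd n b)
    (h : pt M a = pt M b) : a = b := by
  by_contra hne
  have key : ∀ c : Lb, Bd n c → a ≠ c → b ≠ c → False := by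
    intro c hc hac hbc
    have h0 : dt (pt M a) (pt M b) (pt M c) = 0 := by
      rw [h]; unfold dt; ring
    rcases sign_pt hM ha hb hc hne hac hbc with ⟨_, h1⟩ | ⟨_, h1⟩ <;> linarith
  have b0 : Bd n none := trivial
  have b1 : Bd n (some (0, 0)) := Nat.zero_le n
  have b2 : Bd n (some (1, 0)) := Nat.zero_le n
  by_cases h1 : a = none
  · by_cases h2 : b = some (0, 0)
    · exact key _ b2 (by rw [h1]; simp) (by rw [h2]; simp)
    · exact key _ b1 (by rw [h1]; simp) h2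
  · by_cases h2 : b = none
    · by_cases h3 : a = some (0, 0)
      · exact key _ b2 (by rw [h3]; simp) (by rw [h2]; simp)
      · exact key _ b1 h3 (by rw [h2]; simp)
    · exact key _ b0 h1 h2

end Pool.Agent.Work.MP_02cc39_co.Pin
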