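import Pool.Agent.Work.MP_02cc39_co.Pin.StripBase

set_option autoImplicit false

/-!
# Strips: the maximal sets which do not contain (d-2, d) (size M)

PROOF of `St_without`. D = St l d r, e = (d-2, d), D' = {f ∈ D | ¬ (f.2 = d ∧ f.1 ≤ d-2)}.
(1) {E ∈ MS D | e ∉ E} = MS D' (equality of finite sets of finite sets).
 ⊆: let E be maximal in D, e ∉ E. Then no (x, d) with x ≤ d-2 is in E: by mx for e there is f ∈ E with Il e f, i.e. f = (d-1, y), y > d (all f.2 ≥ d);
  if (x, d) ∈ E, x < d-2, then x < d-1 < d < y: Il, contradiction to ind. So E ⊆ D'; mx restricts.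
 ⊇: let E be maximal in D'. (d, d+1) ∈ D' interlaces with nothing in D' (d < f.1 < d+1 impossible; f.1 < d < f.2 < d+1 impossible), so (d, d+1) ∈ E (`mem_of_iso`).
  Let y be the largest integer with (d, y) ∈ E (finite, nonempty). Claim (d-1, y) ∈ E: otherwise mx gives f ∈ E with Il (d-1, y) f: either f.1 > d-1, f.1 < y < f.2:
  f.1 = d contradicts the maximality of y, f.1 > d gives Il (d, y) f; or f.1 < d-1 < f.2 < y: f.2 = d is excluded by D' (f.1 ≤ d-2), f.2 > d gives Il f (d, y). So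
  (d-1, y) ∈ E, y > d, and it interlaces with every (x, d), x ≤ d-2 (x < d-1 < d < y). Hence E is maximal in D, and e ∉ E since e ∉ D'.
(2) so nM D = nC D e + nM D' (split MS D by e ∈ E: `Finset.card_filter_add_card_filter_not` or similar).
(3) (d-1, d) ∈ D' interlaces with nothing in D' (f.1 < d-1 < f.2 < d no; d-1 < f.1 < d no): `nM_erase`, and D'.erase (d-1, d) = St l (d+1) r (ext, omega).
-/

namespace Pool.Agent.Work.MP_02cc39_co.Pin

open Classical

private theorem ne_of_pair {a b c d : ℤ} : ((a, b) : ℤ × ℤ) ≠ (c, d) ↔ (a ≠ c ∨ b ≠ d) := by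
  constructor
  · intro h
    by_contra h'
    push Not at h'
    exact h (by rw [h'.1, h'.2])
  · intro h h'
    rw [Prod.mk.injEq] at h'
    omega

private theorem nM_erase' {α : Type*} {X : α → α → Prop} (hs : ∀ e f, X e f → X f e) {D D' : Finset α} {e : α}
    (he : e ∈ D) (h : ∀ f ∈ D, ¬ X e f) (h' : ∀ f, f ∈ D' ↔ f ∈ D ∧ f ≠ e) : nM X D = nM X D' := by
  rw [nM_erase hs he h]
  congr 1
  ext f
  rw [Finset.mem_erase, h' f]
  tauto

private theorem split' {α : Type*} {X : α → α → Prop} {D D' : Finset α} {e : α}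
    (h : ∀ E, E ∈ MS X D' ↔ E ∈ MS X D ∧ e ∉ E) : nM X D = nC X D e + nM X D' := by
  have h' : MS X D' = (MS X D).filter fun E => ¬ e ∈ E := by
    ext E
    rw [Finset.mem_filter, h E]
  unfold nM nC
  rw [h']
  exact (Finset.card_filter_add_card_filter_not _).symm

private noncomputable def Dp (l d r : ℤ) : Finset (ℤ × ℤ) :=
  (St l d r).filter fun f => ¬ (f.2 = d ∧ f.1 ≤ d - 2)

private theorem mem_Dp {l d r x y : ℤ} :
    (x, y) ∈ Dp l d r ↔ l ≤ x ∧ x < y ∧ y < r ∧ d ≤ y ∧ (y = d → x = d - 1) := by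
  unfold Dp
  rw [Finset.mem_filter, mem_St]
  dsimp only
  omega

private theorem down {l d r : ℤ} (h1 : l + 2 ≤ d) (h2 : d + 1 < r) {E : Finset (ℤ × ℤ)}
    (hE : IsM Il (St l d r) E) (he : ((d - 2, d) : ℤ × ℤ) ∉ E) : IsM Il (Dp l d r) E := by
  have heD : ((d - 2, d) : ℤ × ℤ) ∈ St l d r := by
    rw [mem_St]
    dsimp only
    omega
  obtain ⟨⟨a, b⟩, hf, hfe⟩ := hE.mx _ heD he
  have hfD := hE.sub hf
  rw [mem_St] at hfD
  unfold Il at hfe
  dsimp only at hfe hfD
  refine ⟨?_, hE.ind, ?_⟩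
  · rintro ⟨x, y⟩ hxy
    have hD := hE.sub hxy
    have hi := hE.ind _ hxy _ hf
    rw [mem_St] at hD
    rw [mem_Dp]
    unfold Il at hi
    dsimp only at hi hD
    have hne : ¬ (x = d - 2 ∧ y = d) := by
      rintro ⟨rfl, rfl⟩
      exact he hxy
    omega
  · intro e heD' heE
    exact hE.mx e (Finset.mem_filter.1 heD').1 heE

private theorem up {l d r : ℤ} (h1 : l + 2 ≤ d) (h2 : d + 1 < r) {E : Finset (ℤ × ℤ)}
    (hE : IsM Il (Dp l d r) E) : IsM Il (St l d r) E ∧ ((d - 2, d) : ℤ × ℤ) ∉ E := by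
  have h3 : ((d, d + 1) : ℤ × ℤ) ∈ E := by
    refine mem_of_iso (X := Il) (D := Dp l d r) ?_ ?_ hE
    · rw [mem_Dp]
      omega
    · rintro ⟨x, y⟩ hxy
      rw [mem_Dp] at hxy
      unfold Il
      dsimp only
      omega
  obtain ⟨⟨d', y⟩, hy, hmax⟩ := Finset.exists_max_image (E.filter fun f => f.1 = d) (fun f => f.2)
    ⟨(d, d + 1), by rw [Finset.mem_filter]; exact ⟨h3, rfl⟩⟩
  rw [Finset.mem_filter] at hy
  obtain ⟨hyE, hd⟩ := hy
  dsimp only at hd
  subst hd
  have hyD := hE.sub hyE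
  rw [mem_Dp] at hyD
  have h4 : ((d' - 1, y) : ℤ × ℤ) ∈ E := by
    by_contra hne
    have hD : ((d' - 1, y) : ℤ × ℤ) ∈ Dp l d' r := by
      rw [mem_Dp]
      omega
    obtain ⟨⟨a, b⟩, hf, hfe⟩ := hE.mx _ hD hne
    have hfD := hE.sub hf
    have hi := hE.ind _ hf _ hyE
    have hm : a = d' → b ≤ y := by
      rintro rfl
      exact hmax (a, b) (by rw [Finset.mem_filter]; exact ⟨hf, rfl⟩)
    rw [mem_Dp] at hfD
    unfold Il at hfe hi
    dsimp only at hfe hi
    omega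
  refine ⟨⟨fun f hf => (Finset.mem_filter.1 (hE.sub hf)).1, hE.ind, ?_⟩, ?_⟩
  · rintro ⟨x, z⟩ hf hfE
    by_cases hc : z = d' ∧ x ≤ d' - 2
    · refine ⟨(d' - 1, y), h4, ?_⟩
      unfold Il
      dsimp only
      omega
    · exact hE.mx _ (Finset.mem_filter.2 ⟨hf, hc⟩) hfE
  · intro h
    have := hE.sub h
    rw [mem_Dp] at this
    omega

theorem St_without {l d r : ℤ} (h1 : l + 2 ≤ d) (h2 : d + 1 < r) :
    nM Il (St l d r) = nC Il (St l d r) (d - 2, d) + nM Il (St l (d + 1) r) := by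
  have hA : ∀ E, E ∈ MS Il (Dp l d r) ↔ E ∈ MS Il (St l d r) ∧ ((d - 2, d) : ℤ × ℤ) ∉ E := by
    intro E
    rw [mem_MS, mem_MS]
    constructor
    · intro h
      exact up h1 h2 h
    · rintro ⟨h, h'⟩
      exact down h1 h2 h h'
  have hB : nM Il (Dp l d r) = nM Il (St l (d + 1) r) := by
    have he : ((d - 1, d) : ℤ × ℤ) ∈ Dp l d r := by
      rw [mem_Dp]
      omega
    refine nM_erase' il_symm he ?_ ?_
    · rintro ⟨x, y⟩ hxy
      rw [mem_Dp] at hxy
      unfold Il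
      dsimp only
      omega
    · rintro ⟨x, y⟩
      rw [mem_Dp, mem_St, ne_of_pair]
      dsimp only
      omega
  rw [← hB]
  exact split' hA

end Pool.Agent.Work.MP_02cc39_co.Pin
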