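import Pool.Agent.Work.MP_02cc39_co.Pin.StripWith
import Pool.Agent.Work.MP_02cc39_co.Pin.StripWithout

set_option autoImplicit false

/-!
# The number of maximal sets of a strip is a ballot number (size S)

PROOF. Induction on k, inside on p. k = 0: `St_base`. k+1, p = 1: `St_one` with d = l+1, and the case (2, k); ball 1 (k+1) = ball 0 (k+1) + ball 2 k = ball 2 k.
k+1, p+2: `St_without` (d = l + (p+2)) and `St_with`: ball (p+1) (k+1) [for l+1] + ball (p+3) k = ball (p+2) (k+1).
-/

namespace Pool.Agent.Work.MP_02cc39_co.Pin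

open Classical

private theorem ball_s (p k : ℕ) : ball (p + 1) (k + 1) = ball p (k + 1) + ball (p + 2) k := by
  rw [ball]

private theorem ball_z (p : ℕ) : ball p 0 = 1 := by
  unfold ball
  rfl

private theorem ball_zs (k : ℕ) : ball 0 (k + 1) = 0 := by
  rw [ball]

theorem St_eq (k p : ℕ) (hp : 1 ≤ p) (l : ℤ) :
    nM Il (St l (l + (p : ℤ)) (l + (p : ℤ) + (k : ℤ) + 1)) = ball p k := by
  induction k generalizing p l with
  | zero =>
    rw [ball_z]
    have := St_base l (l + (p : ℤ))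
    simpa using this
  | succ k ih =>
    induction p generalizing l with
    | zero => omega
    | succ p ihp =>
      rcases Nat.eq_zero_or_pos p with h0 | h0
      · subst h0
        rw [ball_s, ball_zs, ← ih 2 (by norm_num) l]
        have h1 := St_one (d := l + 1) (r := l + 1 + ((k + 1 : ℕ) : ℤ) + 1) (by push_cast; omega)
        rw [show l + 1 - 1 = l by ring, show l + 1 + 1 = l + 2 by ring] at h1
        have e1 : l + ((0 + 1 : ℕ) : ℤ) = l + 1 := by push_cast; ring
        have e2 : l + 1 + ((k + 1 : ℕ) : ℤ) + 1 = l + ((2 : ℕ) : ℤ) + (k : ℤ) + 1 := by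
          push_cast; ring
        have e3 : l + ((2 : ℕ) : ℤ) = l + 2 := by push_cast; ring
        rw [e1, h1, e2, e3, zero_add]
      · obtain ⟨p, rfl⟩ : ∃ p', p = p' + 1 := ⟨p - 1, by omega⟩
        have g1 := ihp (by omega) (l + 1)
        have g2 := ih (p + 3) (by omega) l
        have h1 : l + 2 ≤ l + ((p + 1 + 1 : ℕ) : ℤ) := by push_cast; omega
        have h2 : l + ((p + 1 + 1 : ℕ) : ℤ) + 1 < l + ((p + 1 + 1 : ℕ) : ℤ) + ((k + 1 : ℕ) : ℤ) + 1 := by
          push_cast; omega
        rw [St_without h1 h2, St_with h1 h2, ball_s, ← g1, ← g2]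
        have e1 : l + 1 + ((p + 1 : ℕ) : ℤ) = l + ((p + 1 + 1 : ℕ) : ℤ) := by push_cast; ring
        have e2 : l + ((p + 1 + 1 : ℕ) : ℤ) + 1 = l + ((p + 3 : ℕ) : ℤ) := by push_cast; ring
        have e3 : l + ((p + 1 + 1 : ℕ) : ℤ) + ((k + 1 : ℕ) : ℤ) + 1 =
            l + ((p + 3 : ℕ) : ℤ) + (k : ℤ) + 1 := by push_cast; ring
        rw [e1, e2, e3]


end Pool.Agent.Work.MP_02cc39_co.Pin
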