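import Pool.Agent.Work.MP_02cc39_co.Pin.Mis

set_option autoImplicit false

/-!
# Strips: trivial cases (size S)

`St l d r` = pairs l ≤ x < y < r with d ≤ y, crossing = `Il` (interlacing).
PROOFS. `St_base`: all pairs of St l d (d+1) have y = d, so nothing interlaces: `nM_free`.
`St_one`: (d-1, d) ∈ St (d-1) d r interlaces with nothing (a pair f with f.1 < d-1 does not exist, and d-1 < f.1 < d is impossible), `nM_erase`, and
(St (d-1) d r).erase (d-1, d) = St (d-1) (d+1) r (ext, omega).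
-/

namespace Pool.Agent.Work.MP_02cc39_co.Pin

open Classical

theorem il_symm : ∀ e f, Il e f → Il f e := by
  intro e f h
  unfold Il at *
  omega

theorem il_irr (e : ℤ × ℤ) : ¬ Il e e := by
  unfold Il
  omega

theorem mem_St {l d r : ℤ} {e : ℤ × ℤ} : e ∈ St l d r ↔ l ≤ e.1 ∧ e.1 < e.2 ∧ e.2 < r ∧ d ≤ e.2 := by
  unfold St
  rw [Finset.mem_filter, Finset.mem_product, Finset.mem_Ico, Finset.mem_Ico]
  omega

theorem mem_Sec {a b : ℕ} {e : ℤ × ℤ} :
    e ∈ Sec a b ↔ -(a : ℤ) ≤ e.1 ∧ e.1 < e.2 ∧ e.2 ≤ (b : ℤ) ∧ 0 ≤ e.2 ∧ e.1 ≠ 0 := by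
  unfold Sec
  rw [Finset.mem_filter, Finset.mem_product, Finset.mem_Icc, Finset.mem_Icc]
  omega

theorem St_base (l d : ℤ) : nM Il (St l d (d + 1)) = 1 := by
  apply nM_free
  intro e he f hf h
  rw [mem_St] at he hf
  unfold Il at h
  omega

theorem St_one {d r : ℤ} (h : d + 1 < r) : nM Il (St (d - 1) d r) = nM Il (St (d - 1) (d + 1) r) := by
  have h1 : (d - 1, d) ∈ St (d - 1) d r := by
    rw [mem_St]
    omega
  rw [nM_erase il_symm h1 (by
    intro f hf h2
    rw [mem_St] at hf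
    unfold Il at h2
    simp only at h2
    omega)]
  congr 1
  ext f
  simp only [Finset.mem_erase, mem_St]
  rcases f with ⟨x, y⟩
  simp only [ne_eq, Prod.mk.injEq]
  omega

end Pool.Agent.Work.MP_02cc39_co.Pin
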