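import Pool.Agent.Work.MP_02cc39_co.Pin.StripBase
import Pool.Agent.Work.MP_02cc39_co.Pin.MisMap

set_option autoImplicit false

/-!
# Strips: the maximal sets which contain (d-2, d) (size M)

PROOF of `St_with`. e = (d-2, d). `nC_eq`: nC = nM Il D1, D1 = {f ∈ St l d r | f ≠ e, ¬ Il e f}. As d ≤ f.2 for f ∈ St, Il e f ↔ f.1 = d-1 ∧ d < f.2. So
D1 = {f ∈ St | f.1 ≠ d-1, f ≠ e} ∪ {(d-1,d)}. In D1 the pair (d-1, d) interlaces with nothing: `nM_erase`: nM D1 = nM D2, D2 = {f ∈ St l d r | f.1 ≠ d-1, f ≠ e}.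
φ(x, y) = (if x < d then x + 1 else x, y) is injective on D2 (x = d-1 does not occur... x + 1 = d only for x = d-1), keeps Il (all first coordinates ≠ d-1, all
second ≥ d), with image (St (l+1) d r).erase (d-1, d) (ext: (x', y), x' ≤ d-1 comes from x'-1, x' ≥ d from x'). And (d-1, d) interlaces with nothing in
St (l+1) d r? careful: f with f.1 < d-1 < f.2 < d does not exist as f.2 ≥ d, d-1 < f.1 < d impossible: yes, nothing. `nM_erase` again.
-/

namespace Pool.Agent.Work.MP_02cc39_co.Pin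

open Classical

private theorem ne_of_pair {a b c d : ℤ} : ((a, b) : ℤ × ℤ) ≠ (c, d) ↔ (a ≠ c ∨ b ≠ d) := by
  constructor
  · intro h
    by_contra h'
    push Not at h'
    exact h (by rw [h'.1, h'.2])
  · intro h h'
    rw [Prod.mk.injEq] at h'
    omega

private theorem isol {l d r : ℤ} {f : ℤ × ℤ} (hf : f ∈ St l d r) : ¬ Il (d - 1, d) f := by
  rw [mem_St] at hf
  unfold Il
  dsimp only
  omega

private theorem nC_eq' {α : Type*} {X : α → α → Prop} (hs : ∀ e f, X e f → X f e) {D D' : Finset α} {e : α}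
    (he : e ∈ D) (hee : ¬ X e e) (h : ∀ f, f ∈ D' ↔ f ∈ D ∧ f ≠ e ∧ ¬ X e f) : nC X D e = nM X D' := by
  rw [nC_eq hs he hee]
  congr 1
  ext f
  rw [Finset.mem_filter, h f]

private theorem nM_erase' {α : Type*} {X : α → α → Prop} (hs : ∀ e f, X e f → X f e) {D D' : Finset α} {e : α}
    (he : e ∈ D) (h : ∀ f ∈ D, ¬ X e f) (h' : ∀ f, f ∈ D' ↔ f ∈ D ∧ f ≠ e) : nM X D = nM X D' := by
  rw [nM_erase hs he h]
  congr 1
  ext f
  rw [Finset.mem_erase, h' f]
  tauto

private theorem nM_map' {α β : Type*} {X : α → α → Prop} {Y : β → β → Prop} {D : Finset α} {D' : Finset β}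
    (φ : α → β) (hφ : Set.InjOn φ D) (h : ∀ e ∈ D, ∀ f ∈ D, (X e f ↔ Y (φ e) (φ f)))
    (h' : ∀ f, f ∈ D' ↔ ∃ e ∈ D, φ e = f) : nM X D = nM Y D' := by
  rw [nM_map φ hφ h]
  congr 1
  ext f
  rw [Finset.mem_image, h' f]

private def sh (d : ℤ) (e : ℤ × ℤ) : ℤ × ℤ := (if e.1 < d - 1 then e.1 + 1 else e.1, e.2)

private noncomputable def D1 (l d r : ℤ) : Finset (ℤ × ℤ) :=
  (St l d r).filter fun f => ¬ (f.1 = d - 1 ∧ d < f.2) ∧ ¬ (f.1 = d - 2 ∧ f.2 = d)

private noncomputable def D2 (l d r : ℤ) : Finset (ℤ × ℤ) :=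
  (St l d r).filter fun f => f.1 ≠ d - 1 ∧ ¬ (f.1 = d - 2 ∧ f.2 = d)

private noncomputable def D3 (l d r : ℤ) : Finset (ℤ × ℤ) :=
  (St l d r).filter fun f => ¬ (f.1 = d - 1 ∧ f.2 = d)

private theorem mem_D1 {l d r x y : ℤ} : (x, y) ∈ D1 l d r ↔
      l ≤ x ∧ x < y ∧ y < r ∧ d ≤ y ∧ ¬ (x = d - 1 ∧ d < y) ∧ (x ≠ d - 2 ∨ y ≠ d) := by
  unfold D1
  rw [Finset.mem_filter, mem_St]
  dsimp only
  omega

private theorem mem_D2 {l d r x y : ℤ} : (x, y) ∈ D2 l d r ↔
      l ≤ x ∧ x < y ∧ y < r ∧ d ≤ y ∧ x ≠ d - 1 ∧ (x ≠ d - 2 ∨ y ≠ d) := by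
  unfold D2
  rw [Finset.mem_filter, mem_St]
  dsimp only
  omega

private theorem mem_D3 {l d r x y : ℤ} : (x, y) ∈ D3 l d r ↔
      l ≤ x ∧ x < y ∧ y < r ∧ d ≤ y ∧ (x ≠ d - 1 ∨ y ≠ d) := by
  unfold D3
  rw [Finset.mem_filter, mem_St]
  dsimp only
  omega

theorem St_with {l d r : ℤ} (h1 : l + 2 ≤ d) (h2 : d + 1 < r) :
    nC Il (St l d r) (d - 2, d) = nM Il (St (l + 1) d r) := by
  have he : ((d - 2, d) : ℤ × ℤ) ∈ St l d r := by
    rw [mem_St]
    dsimp only
    omega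
  have he1 : ((d - 1, d) : ℤ × ℤ) ∈ D1 l d r := by
    rw [mem_D1]
    omega
  have he2 : ((d - 1, d) : ℤ × ℤ) ∈ St (l + 1) d r := by
    rw [mem_St]
    dsimp only
    omega
  have e1 : nC Il (St l d r) (d - 2, d) = nM Il (D1 l d r) := by
    refine nC_eq' il_symm he (il_irr _) ?_
    rintro ⟨x, y⟩
    rw [mem_D1, mem_St, ne_of_pair]
    unfold Il
    dsimp only
    omega
  have e2 : nM Il (D1 l d r) = nM Il (D2 l d r) := by
    refine nM_erase' il_symm he1 (fun f hf => isol (Finset.mem_filter.1 hf).1) ?_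
    rintro ⟨x, y⟩
    rw [mem_D1, mem_D2, ne_of_pair]
    omega
  have e3 : nM Il (St (l + 1) d r) = nM Il (D3 (l + 1) d r) := by
    refine nM_erase' il_symm he2 (fun f hf => isol hf) ?_
    rintro ⟨x, y⟩
    rw [mem_D3, mem_St, ne_of_pair]
    dsimp only
    omega
  have e4 : nM Il (D2 l d r) = nM Il (D3 (l + 1) d r) := by
    refine nM_map' (sh d) ?_ ?_ ?_
    · rintro ⟨x, y⟩ hxy ⟨u, v⟩ huv h
      rw [Finset.mem_coe, mem_D2] at hxy huv
      unfold sh at h
      dsimp only at h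
      rw [Prod.mk.injEq] at h ⊢
      obtain ⟨h3, h4⟩ := h
      split_ifs at h3 <;> omega
    · rintro ⟨x, y⟩ hxy ⟨u, v⟩ huv
      rw [mem_D2] at hxy huv
      unfold sh Il
      dsimp only
      split_ifs <;> omega
    · rintro ⟨x', y⟩
      constructor
      · intro h
        rw [mem_D3] at h
        by_cases hx : x' ≤ d - 1
        · refine ⟨(x' - 1, y), ?_, ?_⟩
          · rw [mem_D2]
            omega
          · unfold sh
            dsimp only
            rw [Prod.mk.injEq]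
            split_ifs <;> omega
        · refine ⟨(x', y), ?_, ?_⟩
          · rw [mem_D2]
            omega
          · unfold sh
            dsimp only
            rw [Prod.mk.injEq]
            split_ifs <;> omega
      · rintro ⟨⟨x, y0⟩, h, h'⟩
        rw [mem_D2] at h
        unfold sh at h'
        dsimp only at h'
        rw [Prod.mk.injEq] at h'
        obtain ⟨h3, h4⟩ := h'
        rw [mem_D3]
        split_ifs at h3 <;> omega
  rw [e1, e2, e4, e3]

end Pool.Agent.Work.MP_02cc39_co.Pin
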