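import Pool.Agent.Work.MP_02cc39_co.Pin.MaxM
import Pool.Agent.Work.MP_02cc39_co.Pin.PtdW

set_option autoImplicit false

/-!
# Graphs pointed at the centre and triangulations with the edge between two tips (size M)

s_t := s(none, tip t) (position (-1, 0) in the sector t: interlaces with nothing), g_t := gE hm t = (tip t)(tip (t+1)) (position (-1, 1) in the sector t: interlaces exactly
with the positions (x, 0), x < -1, i.e. with the edges s(none, some ⟨t, i⟩), 0 < i).
PROOFS.
`up_to`: G ∈ Max {none}, arm r without neighbour of none (`ptd_iff`). Then T := insert s_r G: (1) g_r ∈ G: otherwise insert g_r G would be Fam: noncrossing since g_r crosses only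
 s(none, some ⟨r, i⟩), none of which is in G, pointed at none since the neighbours of none are the same. (2) T is independent (s_r crosses nothing). (3) T is maximal: let e ∈ Ed, e ∉ T, and
 suppose e crosses nothing in T. If e = s(none, some ⟨r, i⟩): i ≠ 0 as e ≠ s_r, and e crosses g_r ∈ T. Otherwise insert e G is noncrossing and no neighbour of none in it is in the
 arm r, so it is Fam {none} (`ptd_iff`), contradiction to the maximality of G.
`down`: T ∈ Max ∅, g_r ∈ T. G := T.erase s_r: no s(none, some ⟨r, i⟩) in T for i > 0 (crosses g_r), so none is pointed in G. Maximal: e ∉ G, e ∈ Ed, insert e G in Fam {none}: if e = s_r: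
 then insert e G = T contains the spokes s_0, s_1, s_2 (they cross nothing, so they are in T: `mem_of_iso`), so every arm has a neighbour of none: not pointed. Otherwise e ∉ T, so
 e crosses some f ∈ T, f ≠ s_r, f ∈ G.
`cnt_w`: MaxSet (oP m) {none} is the DISJOINT union over r of the images of {T ∈ MS, g_r ∈ T} under erase s_r (`Finset.card_biUnion` / card of a sigma type; the arm r is determined by G:
 it is the only arm without a neighbour of none, because s_t ∈ G for t ≠ r; erase s_r is injective on the sets containing s_r).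
-/

namespace Pool.Agent.Work.MP_02cc39_co.Pin

open Classical Pool.Agent.Work.MP_02cc39_co.PT

variable {m : Fin 3 → ℕ}

/-- the spoke to the tip of the arm `t` -/
def sE (hm : ∀ t, 0 < m t) (t : Fin 3) : Sym2 (Pw m) := s(none, tip hm t)

private theorem up_mem_Ed (e : Sym2 (Pw m)) : e ∈ Ed m ↔ ¬ e.IsDiag := by
  unfold Ed
  rw [Finset.mem_filter]
  exact ⟨fun h => h.2, fun h => ⟨Finset.mem_univ _, h⟩⟩

private theorem up_sE_nd (hm : ∀ t, 0 < m t) (t : Fin 3) : ¬ (sE hm t).IsDiag := by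
  unfold sE tip
  rw [Sym2.mk_isDiag_iff]
  exact fun h => Option.some_ne_none _ h.symm

private theorem up_gE_nd (hm : ∀ t, 0 < m t) (t : Fin 3) : ¬ (gE hm t).IsDiag := by
  unfold gE tip
  rw [Sym2.mk_isDiag_iff]
  intro h
  have h1 : t = t + 1 := congrArg Sigma.fst (Option.some.inj h)
  revert h1
  fin_cases t <;> decide

private theorem up_sE_X (hm : ∀ t, 0 < m t) (t : Fin 3) (f : Sym2 (Pw m)) : ¬ XE (sE hm t) f := by
  rintro ⟨-, h⟩
  have h1 : codE (sE hm t) = (-1, 0) := by
    unfold sE tip codE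
    simp [lab, cod]
  rw [h1] at h
  unfold Il at h
  simp only at h
  omega

private theorem up_sE_inj (hm : ∀ t, 0 < m t) {t u : Fin 3} (h : sE hm t = sE hm u) : t = u := by
  unfold sE tip at h
  rw [Sym2.eq_iff] at h
  rcases h with h | h
  · exact congrArg Sigma.fst (Option.some.inj h.2)
  · exact absurd h.1.symm (Option.some_ne_none _)

private theorem up_gE_code (hm : ∀ t, 0 < m t) (t : Fin 3) :
    codE (gE hm t) = (-1, 1) ∧ secE (gE hm t) = t := by
  unfold gE tip codE secE
  fin_cases t <;> simp [lab, cod, sec]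

private theorem up_gE_to (hm : ∀ t, 0 < m t) (r : Fin 3) (f : Sym2 (Pw m)) (h : XE (gE hm r) f) :
    ∃ i : Fin (m r), 0 < (i : ℕ) ∧ f = s((none : Pw m), some ⟨r, i⟩) := by
  obtain ⟨h1, h2⟩ := h
  rw [(up_gE_code hm r).1] at h2
  rw [(up_gE_code hm r).2] at h1
  induction f using Sym2.ind with
  | _ a b =>
    unfold codE at h2
    unfold secE at h1
    simp only [Sym2.lift_mk] at h1 h2
    rcases a with _ | ⟨t, i⟩ <;> rcases b with _ | ⟨u, j⟩
    · simp [lab, cod, Il] at h2
    · simp only [lab, sec] at h1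
      subst h1
      refine ⟨j, ?_, rfl⟩
      simp only [lab, cod, Il] at h2
      omega
    · simp only [lab, sec] at h1
      subst h1
      refine ⟨i, ?_, Sym2.eq_swap⟩
      simp only [lab, cod, Il] at h2
      omega
    · exfalso
      simp only [lab, cod, Il] at h2
      split_ifs at h2 <;> simp only at h2 <;> omega

private theorem up_gE_of (hm : ∀ t, 0 < m t) (r : Fin 3) (i : Fin (m r)) (hi : 0 < (i : ℕ)) :
    XE (gE hm r) s((none : Pw m), some ⟨r, i⟩) := by
  refine ⟨?_, ?_⟩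
  · rw [(up_gE_code hm r).2]
    rfl
  · rw [(up_gE_code hm r).1]
    unfold codE Il
    simp only [Sym2.lift_mk, lab, cod]
    right
    omega

private theorem up_set {α : Type*} (X : α → α → Prop) (D : Finset α) (e : α) :
    ∃ S : Finset (Finset α), S.card = nC X D e ∧ ∀ E, E ∈ S ↔ (IsM X D E ∧ e ∈ E) :=
  ⟨(MS X D).filter fun E => e ∈ E, rfl, fun E => by rw [Finset.mem_filter, mem_MS]⟩

private theorem up_fam {G F : Finset (Sym2 (Pw m))} {e : Sym2 (Pw m)} (hG : Fam (oP m) {none} G)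
    (he : ¬ e.IsDiag) (hx : ∀ f ∈ G, ¬ XE e f) {r : Fin 3}
    (hr : ∀ i : Fin (m r), s((none : Pw m), some ⟨r, i⟩) ∉ G)
    (her : ∀ i : Fin (m r), e ≠ s((none : Pw m), some ⟨r, i⟩))
    (hF : ∀ f, f ∈ F ↔ f = e ∨ f ∈ G) : Fam (oP m) {none} F := by
  have hGE : G ⊆ Ed m := fun f hf => (up_mem_Ed f).2 (hG.nd f hf)
  have hnd : ∀ f ∈ F, ¬ f.IsDiag := by
    intro f hf
    rcases (hF f).1 hf with h1 | h1
    · rw [h1]
      exact he
    · exact hG.nd f h1
  have hFE : F ⊆ Ed m := fun f hf => (up_mem_Ed f).2 (hnd f hf)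
  refine ⟨hnd, ?_, ?_⟩
  · rw [nonCr_iff hFE]
    intro f hf g hg hX
    have hi := (nonCr_iff hGE).1 hG.nc
    rcases (hF f).1 hf with h1 | h1 <;> rcases (hF g).1 hg with h2 | h2
    · rw [h1, h2] at hX
      exact xe_irr e hX
    · rw [h1] at hX
      exact hx g h2 hX
    · rw [h2] at hX
      exact hx f h1 (xe_symm _ _ hX)
    · exact hi f h1 g h2 hX
  · intro v hv
    rw [Finset.mem_singleton] at hv
    rw [hv, ptd_iff hnd]
    refine ⟨r, fun i hi => ?_⟩
    rcases (hF _).1 hi with h1 | h1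
    · exact her i h1.symm
    · exact hr i h1

theorem up_to (hm : ∀ t, 0 < m t) {G : Finset (Sym2 (Pw m))} (hG : Max (oP m) {none} G) {r : Fin 3}
    (hr : ∀ i : Fin (m r), s((none : Pw m), some ⟨r, i⟩) ∉ G) :
    Max (oP m) ∅ (insert (sE hm r) G) ∧ gE hm r ∈ G := by
  obtain ⟨hF, hmax⟩ := hG
  have hGE : G ⊆ Ed m := fun f hf => (up_mem_Ed f).2 (hF.nd f hf)
  have hi := (nonCr_iff hGE).1 hF.nc
  have hg : gE hm r ∈ G := by
    by_contra hno
    refine hmax (gE hm r) (up_gE_nd hm r) hno (up_fam hF (up_gE_nd hm r) ?_ hr ?_ fun f => @Finset.mem_insert _ (_) _ _ _)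
    · intro f hf hX
      obtain ⟨i, -, rfl⟩ := up_gE_to hm r f hX
      exact hr i hf
    · intro i h1
      unfold gE tip at h1
      rw [Sym2.eq_iff] at h1
      rcases h1 with h1 | h1
      · exact Option.some_ne_none _ h1.1
      · exact Option.some_ne_none _ h1.2
  refine ⟨?_, hg⟩
  rw [max_iff]
  refine ⟨?_, ?_, ?_⟩
  · intro f hf
    rcases Finset.mem_insert.1 hf with h1 | h1
    · rw [h1]
      exact (up_mem_Ed _).2 (up_sE_nd hm r)
    · exact hGE h1
  · intro f hf g hg' hX
    rcases Finset.mem_insert.1 hf with h1 | h1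
    · rw [h1] at hX
      exact up_sE_X hm r g hX
    · rcases Finset.mem_insert.1 hg' with h2 | h2
      · rw [h2] at hX
        exact up_sE_X hm r f (xe_symm _ _ hX)
      · exact hi f h1 g h2 hX
  · intro e he heG
    by_contra hno
    push Not at hno
    have h1 : e ∉ G := fun h2 => heG (Finset.mem_insert.2 (Or.inr h2))
    by_cases hr' : ∃ i : Fin (m r), e = s((none : Pw m), some ⟨r, i⟩)
    · obtain ⟨i, rfl⟩ := hr'
      rcases Nat.eq_zero_or_pos (i : ℕ) with h0 | h0
      · apply heG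
        rw [Finset.mem_insert]
        left
        have h3 : i = ⟨0, hm r⟩ := Fin.ext h0
        rw [h3]
        rfl
      · exact hno (gE hm r) (Finset.mem_insert.2 (Or.inr hg)) (xe_symm _ _ (up_gE_of hm r i h0))
    · push Not at hr'
      exact hmax e ((up_mem_Ed e).1 he) h1 (up_fam hF ((up_mem_Ed e).1 he)
        (fun f hf => hno f (Finset.mem_insert.2 (Or.inr hf))) hr hr' fun f => @Finset.mem_insert _ (_) _ _ _)

theorem down (hm : ∀ t, 0 < m t) {T : Finset (Sym2 (Pw m))} (hT : Max (oP m) ∅ T) {r : Fin 3}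
    (hr : gE hm r ∈ T) : Max (oP m) {none} (T.erase (sE hm r)) ∧
      (∀ i : Fin (m r), s((none : Pw m), some ⟨r, i⟩) ∉ T.erase (sE hm r)) ∧ ∀ t, sE hm t ∈ T := by
  have hM := max_iff.1 hT
  have hs : ∀ t, sE hm t ∈ T := fun t =>
    mem_of_iso ((up_mem_Ed _).2 (up_sE_nd hm t)) (fun f _ => up_sE_X hm t f) hM
  have hno : ∀ i : Fin (m r), s((none : Pw m), some ⟨r, i⟩) ∉ T.erase (sE hm r) := by
    intro i hi
    rw [Finset.mem_erase] at hi
    rcases Nat.eq_zero_or_pos (i : ℕ) with h0 | h0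
    · apply hi.1
      have h3 : i = ⟨0, hm r⟩ := Fin.ext h0
      rw [h3]
      rfl
    · exact hM.ind _ hr _ hi.2 (up_gE_of hm r i h0)
  have hsub : T.erase (sE hm r) ⊆ Ed m := (Finset.erase_subset _ _).trans hM.sub
  have hnd : ∀ e ∈ T.erase (sE hm r), ¬ e.IsDiag := fun e he => (up_mem_Ed e).1 (hsub he)
  refine ⟨⟨⟨hnd, ?_, ?_⟩, ?_⟩, hno, hs⟩
  · rw [nonCr_iff hsub]
    intro f hf g hg
    exact hM.ind f (Finset.mem_of_mem_erase hf) g (Finset.mem_of_mem_erase hg)
  · intro v hv
    rw [Finset.mem_singleton] at hv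
    rw [hv, ptd_iff hnd]
    exact ⟨r, hno⟩
  · intro e he heT hF
    have hFE : ∀ f ∈ _, f ∈ Ed m := fun f hf => (up_mem_Ed f).2 (hF.nd f hf)
    by_cases h1 : e = sE hm r
    · have h2 := (ptd_iff hF.nd).1 (hF.pt none (Finset.mem_singleton_self _))
      obtain ⟨u, hu⟩ := h2
      apply hu ⟨0, hm u⟩
      refine (@Finset.mem_insert _ (_) _ _ _).2 ?_
      by_cases h3 : u = r
      · left
        rw [h1, h3]
        rfl
      · right
        rw [Finset.mem_erase]
        refine ⟨fun h4 => h3 (up_sE_inj hm h4), hs u⟩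
    · have h2 : e ∉ T := fun h3 => heT (Finset.mem_erase.2 ⟨h1, h3⟩)
      obtain ⟨f, hf, hX⟩ := hM.mx e ((up_mem_Ed e).2 he) h2
      have h4 : f ≠ sE hm r := by
        intro h5
        rw [h5] at hX
        exact up_sE_X hm r e (xe_symm _ _ hX)
      exact (nonCr_iff hFE).1 hF.nc e ((@Finset.mem_insert _ (_) _ _ _).2 (Or.inl rfl)) f
        ((@Finset.mem_insert _ (_) _ _ _).2 (Or.inr (Finset.mem_erase.2 ⟨h4, hf⟩))) hX

theorem cnt_w (hm : ∀ t, 0 < m t) : cnt (oP m) {none} = ∑ t : Fin 3, nC XE (Ed m) (gE hm t) := by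
  choose S hS hmem using fun t : Fin 3 => up_set XE (Ed m) (gE hm t)
  have h1 : ∑ t : Fin 3, nC XE (Ed m) (gE hm t)
      = ((Finset.univ : Finset (Fin 3)).sigma S).card := by
    rw [Finset.card_sigma]
    exact Finset.sum_congr rfl fun t _ => (hS t).symm
  rw [h1]
  unfold cnt
  symm
  refine Finset.card_bij (fun q _ => q.2.erase (sE hm q.1)) ?_ ?_ ?_
  · rintro ⟨t, T⟩ hq
    rw [Finset.mem_sigma, hmem] at hq
    unfold MaxSet
    rw [Finset.mem_filter]
    exact ⟨Finset.mem_univ _, (down hm (max_iff.2 hq.2.1) hq.2.2).1⟩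
  · rintro ⟨t, T⟩ hq ⟨u, T'⟩ hq' heq
    rw [Finset.mem_sigma, hmem] at hq hq'
    simp only at hq hq' heq
    have hd := (down hm (max_iff.2 hq.2.1) hq.2.2).2.2
    have hd' := (down hm (max_iff.2 hq'.2.1) hq'.2.2).2.2
    have htu : t = u := by
      by_contra hne
      have h2 : sE hm u ∈ T.erase (sE hm t) :=
        Finset.mem_erase.2 ⟨fun h3 => hne (up_sE_inj hm h3).symm, hd u⟩
      rw [heq] at h2
      exact (Finset.mem_erase.1 h2).1 rfl
    subst htu
    have h3 : T = T' := by
      rw [← Finset.insert_erase (hd t), heq, Finset.insert_erase (hd' t)]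
    rw [h3]
  · intro G hG
    unfold MaxSet at hG
    rw [Finset.mem_filter] at hG
    obtain ⟨r, hr⟩ := (ptd_iff hG.2.1.nd).1 (hG.2.1.pt none (Finset.mem_singleton_self _))
    obtain ⟨h2, h3⟩ := up_to hm hG.2 hr
    refine ⟨⟨r, insert (sE hm r) G⟩, ?_, ?_⟩
    · rw [Finset.mem_sigma, hmem]
      exact ⟨Finset.mem_univ _, max_iff.1 h2, Finset.mem_insert.2 (Or.inr h3)⟩
    · exact Finset.erase_insert (hr ⟨0, hm r⟩)

end Pool.Agent.Work.MP_02cc39_co.Pin
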